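import Pool.Agent.R235.FS.Stm

/-!
# A1: consequences of the null relations
-/

set_option autoImplicit false

open MeasureTheory Set Filter Topology
open scoped ContDiff Manifold

namespace Pool.Agent.R235.FS.PA1

open Pool.Agent.R235.FS

variable {n k : ℕ}

lemma pd_congr {Ω : Set (V n)} (hΩ : IsOpen Ω) {f g : V n → ℝ} (h : ∀ x ∈ Ω, f x = g x)
    (i : Fin n) {x : V n} (hx : x ∈ Ω) : pd i f x = pd i g x := by
  unfold pd
  have : f =ᶠ[𝓝 x] g := Filter.eventuallyEq_of_mem (hΩ.mem_nhds hx) h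
  rw [this.fderiv_eq]

lemma pd_zero {Ω : Set (V n)} (hΩ : IsOpen Ω) {f : V n → ℝ} (h : ∀ x ∈ Ω, f x = 0)
    (i : Fin n) {x : V n} (hx : x ∈ Ω) : pd i f x = 0 := by
  rw [pd_congr hΩ (g := fun _ => 0) h i hx]
  simp [pd]

lemma pd_smooth {Ω : Set (V n)} (hΩ : IsOpen Ω) {f : V n → ℝ} (hf : ContDiffOn ℝ ∞ f Ω)
    (i : Fin n) : ContDiffOn ℝ ∞ (pd i f) Ω := by
  have h1 : ContDiffOn ℝ ∞ (fderiv ℝ f) Ω := hf.fderiv_of_isOpen hΩ (by simp)
  exact h1.clm_apply contDiffOn_const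

lemma smooth_diff {Ω : Set (V n)} (hΩ : IsOpen Ω) {f : V n → ℝ} (hf : ContDiffOn ℝ ∞ f Ω)
    {x : V n} (hx : x ∈ Ω) : DifferentiableAt ℝ f x :=
  (hf.contDiffAt (hΩ.mem_nhds hx)).differentiableAt (by simp)

lemma pd_symm {Ω : Set (V n)} (hΩ : IsOpen Ω) {f : V n → ℝ} (hf : ContDiffOn ℝ ∞ f Ω)
    (i l : Fin n) {x : V n} (hx : x ∈ Ω) : pd i (pd l f) x = pd l (pd i f) x := by
  have hd : DifferentiableAt ℝ (fderiv ℝ f) x :=
    ((hf.fderiv_of_isOpen (m := ∞) hΩ (by simp)).contDiffAt (hΩ.mem_nhds hx)).differentiableAt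
      (by simp)
  have key : ∀ a b : Fin n, pd a (pd b f) x
      = fderiv ℝ (fderiv ℝ f) x (Pi.single a 1) (Pi.single b 1) := by
    intro a b
    have h1 : HasFDerivAt (fun y => fderiv ℝ f y (Pi.single b 1))
        ((ContinuousLinearMap.apply ℝ ℝ (Pi.single b (1 : ℝ) : V n)).comp
          (fderiv ℝ (fderiv ℝ f) x)) x :=
      (ContinuousLinearMap.apply ℝ ℝ (Pi.single b (1 : ℝ) : V n)).hasFDerivAt.comp x
        hd.hasFDerivAt
    have h2 : pd b f = fun y => fderiv ℝ f y (Pi.single b 1) := rfl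
    rw [h2]
    unfold pd
    rw [h1.fderiv]
    rfl
  have hs := (hf.contDiffAt (hΩ.mem_nhds hx)).isSymmSndFDerivAt (by
    rw [minSmoothness_of_isRCLikeNormedField]
    exact WithTop.coe_le_coe.2 le_top)
  rw [key, key]
  exact hs _ _

lemma B_comm (ε : Fin k → ℝ) (v w : Fin k → ℝ) : B ε v w = B ε w v := by
  unfold B
  exact Finset.sum_congr rfl fun j _ => by rw [mul_comm (v j)]

lemma pd_B (ε : Fin k → ℝ) (a b : Fin k → V n → ℝ) (x : V n) (i : Fin n)
    (ha : ∀ j, DifferentiableAt ℝ (a j) x) (hb : ∀ j, DifferentiableAt ℝ (b j) x) :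
    pd i (fun y => B ε (fun j => a j y) (fun j => b j y)) x
      = B ε (fun j => pd i (a j) x) (fun j => b j x)
        + B ε (fun j => a j x) (fun j => pd i (b j) x) := by
  have h1 : HasFDerivAt (fun y => B ε (fun j => a j y) (fun j => b j y))
      (∑ j, ε j • (a j x • fderiv ℝ (b j) x + b j x • fderiv ℝ (a j) x)) x := by
    unfold B
    refine HasFDerivAt.fun_sum fun j _ => ?_
    exact ((ha j).hasFDerivAt.mul (hb j).hasFDerivAt).const_mul (ε j)
  unfold pd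
  rw [h1.fderiv]
  unfold B
  rw [← Finset.sum_add_distrib]
  simp only [_root_.sum_apply, _root_.smul_apply, _root_.add_apply, smul_eq_mul]
  refine Finset.sum_congr rfl fun j _ => ?_
  ring

theorem t_A1 : S_A1 := by
  intro n k Ω ε Z hΩ hZ h0 h1
  have dZ : ∀ j, ∀ x ∈ Ω, DifferentiableAt ℝ (Z j) x := fun j x hx => smooth_diff hΩ (hZ j) hx
  have sZ1 : ∀ i j, ContDiffOn ℝ ∞ (pd i (Z j)) Ω := fun i j => pd_smooth hΩ (hZ j) i
  have dZ1 : ∀ i j, ∀ x ∈ Ω, DifferentiableAt ℝ (pd i (Z j)) x :=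
    fun i j x hx => smooth_diff hΩ (sZ1 i j) hx
  have sZ2 : ∀ i l j, ContDiffOn ℝ ∞ (pd i (pd l (Z j))) Ω :=
    fun i l j => pd_smooth hΩ (sZ1 l j) i
  have dZ2 : ∀ i l j, ∀ x ∈ Ω, DifferentiableAt ℝ (pd i (pd l (Z j))) x :=
    fun i l j x hx => smooth_diff hΩ (sZ2 i l j) hx
  -- (1)
  have c1 : ∀ x ∈ Ω, ∀ i l, vh Z i l x = vh Z l i x := by
    intro x hx i l
    funext j
    exact pd_symm hΩ (hZ j) i l hx
  -- (2)
  have c2 : ∀ x ∈ Ω, ∀ i, B ε (vz Z x) (vd Z i x) = 0 := by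
    intro x hx i
    have h2 := pd_zero hΩ h0 i hx
    have h3 := pd_B ε Z Z x i (fun j => dZ j x hx) (fun j => dZ j x hx)
    have h4 : pd i (fun y => B ε (vz Z y) (vz Z y)) x
      = pd i (fun y => B ε (fun j => Z j y) (fun j => Z j y)) x := rfl
    rw [h4, h3] at h2
    have h5 : B ε (fun j => pd i (Z j) x) (fun j => Z j x) = B ε (vz Z x) (vd Z i x) :=
      B_comm _ _ _
    have h6 : B ε (fun j => Z j x) (fun j => pd i (Z j) x) = B ε (vz Z x) (vd Z i x) := rfl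
    rw [h5, h6] at h2
    linarith
  -- (3)
  have c3 : ∀ x ∈ Ω, ∀ i l, B ε (vz Z x) (vh Z i l x) = 0 := by
    intro x hx i l
    have h2 := pd_zero hΩ (fun x hx => c2 x hx l) i hx
    have h3 := pd_B ε Z (fun j => pd l (Z j)) x i (fun j => dZ j x hx) (fun j => dZ1 l j x hx)
    have h4 : pd i (fun y => B ε (vz Z y) (vd Z l y)) x
      = pd i (fun y => B ε (fun j => Z j y) (fun j => pd l (Z j) y)) x := rfl
    rw [h4, h3] at h2
    have h5 : B ε (fun j => pd i (Z j) x) (fun j => pd l (Z j) x) = 0 := h1 x hx i l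
    rw [h5, zero_add] at h2
    exact h2
  -- (4)
  have c4a : ∀ x ∈ Ω, ∀ i l m,
      B ε (vh Z i l x) (vd Z m x) + B ε (vd Z l x) (vh Z i m x) = 0 := by
    intro x hx i l m
    have h2 := pd_zero hΩ (fun x hx => h1 x hx l m) i hx
    have h3 := pd_B ε (fun j => pd l (Z j)) (fun j => pd m (Z j)) x i (fun j => dZ1 l j x hx)
      (fun j => dZ1 m j x hx)
    have h4 : pd i (fun y => B ε (vd Z l y) (vd Z m y)) x
      = pd i (fun y => B ε (fun j => pd l (Z j) y) (fun j => pd m (Z j) y)) x := rfl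
    rw [h4, h3] at h2
    exact h2
  have c4 : ∀ x ∈ Ω, ∀ m i l, B ε (vd Z m x) (vh Z i l x) = 0 := by
    intro x hx m i l
    -- T i l m = B (Z_il) (Z_m)
    have hT : ∀ i l m, B ε (vh Z i l x) (vd Z m x) = - B ε (vh Z i m x) (vd Z l x) := by
      intro i l m
      have h2 := c4a x hx i l m
      rw [B_comm ε (vd Z l x)] at h2
      linarith
    have hS : ∀ i l m, B ε (vh Z i l x) (vd Z m x) = B ε (vh Z l i x) (vd Z m x) := by
      intro i l m
      rw [c1 x hx i l]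
    rw [B_comm]
    have e1 := hT i l m
    have e2 := hS i m l
    have e3 := hT m i l
    have e4 := hS m l i
    have e5 := hT l m i
    have e6 := hS l i m
    linarith
  -- (5)
  have c5a : ∀ x ∈ Ω, ∀ i r l m, B ε (vh Z i r x) (vh Z l m x)
      + B ε (vd Z r x) (fun j => pd i (pd l (pd m (Z j))) x) = 0 := by
    intro x hx i r l m
    have h2 := pd_zero hΩ (fun x hx => c4 x hx r l m) i hx
    have h3 := pd_B ε (fun j => pd r (Z j)) (fun j => pd l (pd m (Z j))) x i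
      (fun j => dZ1 r j x hx) (fun j => dZ2 l m j x hx)
    have h4 : pd i (fun y => B ε (vd Z r y) (vh Z l m y)) x
      = pd i (fun y => B ε (fun j => pd r (Z j) y) (fun j => pd l (pd m (Z j)) y)) x := rfl
    rw [h4, h3] at h2
    exact h2
  intro x hx
  refine ⟨c1 x hx, c2 x hx, c3 x hx, c4 x hx, ?_⟩
  intro i l m r
  have e1 := c5a x hx m r i l
  have e2 := c5a x hx l r i m
  have e3 : (fun j => pd m (pd i (pd l (Z j))) x) = fun j => pd l (pd i (pd m (Z j))) x := by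
    funext j
    calc pd m (pd i (pd l (Z j))) x = pd i (pd m (pd l (Z j))) x :=
          pd_symm hΩ (sZ1 l j) m i hx
      _ = pd i (pd l (pd m (Z j))) x :=
          pd_congr hΩ (fun y hy => pd_symm hΩ (hZ j) m l hy) i hx
      _ = pd l (pd i (pd m (Z j))) x := pd_symm hΩ (sZ1 m j) i l hx
  rw [e3] at e1
  rw [B_comm ε (vh Z i l x), B_comm ε (vh Z i m x)]
  linarith

end Pool.Agent.R235.FS.PA1
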