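import Pool.Agent.R235.FS.Stm

set_option autoImplicit false

namespace Pool.Agent.R235.FS.PA2

open Pool.Agent.R235.FS

variable {n k : ℕ}

theorem B_comm (ε v w : Fin k → ℝ) : B ε v w = B ε w v := by
  unfold B
  exact Finset.sum_congr rfl fun j _ => by ring

theorem B_add (ε v v' w : Fin k → ℝ) : B ε (v + v') w = B ε v w + B ε v' w := by
  unfold B
  rw [← Finset.sum_add_distrib]
  exact Finset.sum_congr rfl fun j _ => by simp only [Pi.add_apply]; ring

theorem B_smul (ε v w : Fin k → ℝ) (c : ℝ) : B ε (c • v) w = c * B ε v w := by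
  unfold B
  rw [Finset.mul_sum]
  exact Finset.sum_congr rfl fun j _ => by simp only [Pi.smul_apply, smul_eq_mul]; ring

theorem B_zero (ε w : Fin k → ℝ) : B ε 0 w = 0 := by
  unfold B
  simp

theorem B_sub (ε v v' w : Fin k → ℝ) : B ε (v - v') w = B ε v w - B ε v' w := by
  unfold B
  rw [← Finset.sum_sub_distrib]
  exact Finset.sum_congr rfl fun j _ => by simp only [Pi.sub_apply]; ring

theorem B_sum {ι : Type*} (s : Finset ι) (ε w : Fin k → ℝ) (f : ι → Fin k → ℝ) :
    B ε (∑ i ∈ s, f i) w = ∑ i ∈ s, B ε (f i) w := by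
  classical
  induction s using Finset.induction_on with
  | empty => simp [B_zero]
  | insert a s ha ih => rw [Finset.sum_insert ha, Finset.sum_insert ha, B_add, ih]

/-- orthogonality to a set passes to the span -/
theorem orth_span (ε w : Fin k → ℝ) (S : Set (Fin k → ℝ)) (h : ∀ v ∈ S, B ε v w = 0) :
    ∀ v ∈ Submodule.span ℝ S, B ε v w = 0 := by
  intro v hv
  induction hv using Submodule.span_induction with
  | mem x hx => exact h x hx
  | zero => exact B_zero ε w
  | add x y _ _ hx hy => rw [B_add, hx, hy, add_zero]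
  | smul a x _ hx => rw [B_smul, hx, mul_zero]

/-- the projection to the positive coordinates -/
def P (ε : Fin k → ℝ) : (Fin k → ℝ) →ₗ[ℝ] ({j : Fin k // ε j = 1} → ℝ) where
  toFun v := fun j => v j.1
  map_add' _ _ := rfl
  map_smul' _ _ := rfl

theorem P_inj (ε : Fin k → ℝ) (W : Submodule ℝ (Fin k → ℝ)) (hε : ∀ j, ε j = 1 ∨ ε j = -1)
    (hW : ∀ v ∈ W, ∀ w ∈ W, B ε v w = 0) : Function.Injective ((P ε).domRestrict W) := by
  rw [← LinearMap.ker_eq_bot, LinearMap.ker_eq_bot']
  rintro ⟨w, hw⟩ h0
  have h1 : ∀ j, ε j = 1 → w j = 0 := fun j hj => congrFun h0 ⟨j, hj⟩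
  have h2 : ∑ j, w j ^ 2 = 0 := by
    have h3 := hW w hw w hw
    unfold B at h3
    have h4 : ∑ j, ε j * (w j * w j) = - ∑ j, w j ^ 2 := by
      rw [← Finset.sum_neg_distrib]
      refine Finset.sum_congr rfl fun j _ => ?_
      rcases hε j with h | h
      · rw [h1 j h]; ring
      · rw [h]; ring
    linarith
  have h5 : ∀ j, w j = 0 := by
    intro j
    have := (Finset.sum_eq_zero_iff_of_nonneg (fun j _ => sq_nonneg (w j))).1 h2 j
      (Finset.mem_univ j)
    exact pow_eq_zero_iff (two_ne_zero) |>.1 this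
  exact Subtype.ext (funext h5)

theorem card_eq (ε : Fin k → ℝ) :
    Module.finrank ℝ ({j : Fin k // ε j = 1} → ℝ) = (Finset.univ.filter fun j => ε j = 1).card := by
  classical
  rw [Module.finrank_fintype_fun_eq_card, Fintype.card_subtype]

theorem t_A2b : S_A2b := by
  intro k ε W hk hε hW
  have hinj := P_inj ε W hε hW
  constructor
  · rw [← card_eq]
    exact LinearMap.finrank_le_finrank_of_injective hinj
  · have h1 : Module.finrank ℝ W ≤ k := by
      have := Submodule.finrank_le W
      rwa [Module.finrank_fintype_fun_eq_card, Fintype.card_fin] at this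
    refine lt_of_le_of_ne h1 fun h => ?_
    have h2 : W = ⊤ := by
      apply Submodule.eq_top_of_finrank_eq
      rw [Module.finrank_fintype_fun_eq_card, Fintype.card_fin, h]
    have h3 := hW (Pi.single (⟨0, hk⟩ : Fin k) 1) (h2 ▸ Submodule.mem_top) (Pi.single (⟨0, hk⟩ : Fin k) 1)
      (h2 ▸ Submodule.mem_top)
    unfold B at h3
    rw [Finset.sum_eq_single (⟨0, hk⟩ : Fin k)] at h3
    · simp only [Pi.single_eq_same, mul_one] at h3
      rcases hε ⟨0, hk⟩ with h | h <;> rw [h] at h3 <;> norm_num at h3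
    · intro j _ hj
      simp [Pi.single_eq_of_ne hj]
    · intro h; exact absurd (Finset.mem_univ _) h

theorem t_A2 : S_A2 := by
  intro n k ε A b lam z d h hε hA hsym hzz hzd hdd hzh hdh hh heq hfin
  set S : Set (Fin k → ℝ) := insert z (Set.range d) with hS
  set W := Submodule.span ℝ S with hWdef
  -- `W` is isotropic
  have hSS : ∀ v ∈ S, ∀ w ∈ S, B ε v w = 0 := by
    intro v hv w hw
    rcases hv with rfl | ⟨i, rfl⟩ <;> rcases hw with rfl | ⟨l, rfl⟩
    · exact hzz
    · exact hzd l
    · rw [B_comm]; exact hzd i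
    · exact hdd i l
  have hWS : ∀ w ∈ S, ∀ v ∈ W, B ε v w = 0 := fun w hw v hv =>
    orth_span ε w S (fun v' hv' => hSS v' hv' w hw) v hv
  have hWW : ∀ v ∈ W, ∀ w ∈ W, B ε v w = 0 := by
    intro v hv w hw
    exact orth_span ε w S (fun v' hv' => by rw [B_comm]; exact hWS v' hv' w hw) v hv
  have hWh : ∀ i l, ∀ v ∈ W, B ε v (h i l) = 0 := by
    intro i l v hv
    refine orth_span ε (h i l) S (fun v' hv' => ?_) v hv
    rcases hv' with rfl | ⟨m, rfl⟩
    · exact hzh i l
    · exact hdh m i l
  -- surjectivity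
  have hinj := P_inj ε W hε hWW
  have hsurj : Function.Surjective ((P ε).domRestrict W) := by
    refine (LinearMap.injective_iff_surjective_of_finrank_eq_finrank ?_).1 hinj
    rw [card_eq]
    exact hfin
  have hex : ∀ i l, ∃ t : Fin k → ℝ, t ∈ W ∧ ∀ j, ε j = 1 → t j = h i l j := by
    intro i l
    obtain ⟨⟨t, ht⟩, h1⟩ := hsurj (P ε (h i l))
    exact ⟨t, ht, fun j hj => congrFun h1 ⟨j, hj⟩⟩
  choose t htW ht using hex
  let y : Fin n → Fin n → Fin k → ℝ := fun i l => h i l - t i l
  have hy1 : ∀ i l j, ε j = 1 → y i l j = 0 := by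
    intro i l j hj
    simp only [y, Pi.sub_apply, ht i l j hj, sub_self]
  have hyW : ∀ i l, ∀ v ∈ W, B ε v (y i l) = 0 := by
    intro i l v hv
    rw [B_comm, B_sub, B_comm ε (h i l), B_comm ε (t i l), hWh i l v hv, hWW v hv _ (htW i l),
      sub_zero]
  have hBy : ∀ i l m r, B ε (y i l) (y m r) = B ε (h i l) (h m r) := by
    intro i l m r
    have e1 : B ε (y i l) (y m r) = B ε (h i l) (y m r) := by
      rw [show y i l = h i l - t i l from rfl, B_sub, hyW m r _ (htW i l), sub_zero]
    have e2 : B ε (h i l) (y m r) = B ε (h i l) (h m r) := by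
      rw [B_comm, show y m r = h m r - t m r from rfl, B_sub, hWh i l _ (htW m r), sub_zero,
        B_comm]
    rw [e1, e2]
  have hneg : ∀ i l m r, B ε (y i l) (y m r) = - ∑ j, y i l j * y m r j := by
    intro i l m r
    unfold B
    rw [← Finset.sum_neg_distrib]
    refine Finset.sum_congr rfl fun j _ => ?_
    rcases hε j with h | h
    · rw [hy1 i l j h]; ring
    · rw [h]; ring
  -- the trace
  have htr : ∀ m, ∑ i, ∑ l, A i l * B ε (h i m) (h l m) = 0 := by
    intro m
    have e1 : ∑ i, ∑ l, A i l * B ε (h i m) (h l m) = B ε (∑ i, ∑ l, A i l • h i l) (h m m) := by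
      rw [B_sum]
      refine Finset.sum_congr rfl fun i _ => ?_
      rw [B_sum]
      refine Finset.sum_congr rfl fun l _ => ?_
      rw [B_smul, hh i l m m]
    have e2 : ∑ i, ∑ l, A i l • h i l = lam • z - ∑ i, b i • d i := by
      rw [← heq]; abel
    rw [e1, e2, B_sub, B_smul, hzh, B_sum, mul_zero, zero_sub, neg_eq_zero]
    refine Finset.sum_eq_zero fun i _ => ?_
    rw [B_smul, hdh, mul_zero]
  have hzero : ∀ m j i, y i m j = 0 := by
    intro m
    have hnn : ∀ j, 0 ≤ ∑ i, ∑ l, A i l * (y i m j * y l m j) := by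
      intro j
      by_cases h0 : (fun i => y i m j) = 0
      · have : ∀ i, y i m j = 0 := fun i => congrFun h0 i
        simp [this]
      · exact (hA.2 _ h0).le
    have hs : ∑ j, ∑ i, ∑ l, A i l * (y i m j * y l m j) = 0 := by
      have h1 := htr m
      have h2 : ∑ i, ∑ l, A i l * B ε (h i m) (h l m) =
          - ∑ j, ∑ i, ∑ l, A i l * (y i m j * y l m j) := by
        have e1 : ∀ i l, A i l * B ε (h i m) (h l m) = - ∑ j, A i l * (y i m j * y l m j) := by
          intro i l
          rw [← hBy, hneg, ← Finset.mul_sum]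
          ring
        have e2 : ∑ i, ∑ l, ∑ j, A i l * (y i m j * y l m j) =
            ∑ j, ∑ i, ∑ l, A i l * (y i m j * y l m j) := by
          have e3 : ∀ i, ∑ l, ∑ j, A i l * (y i m j * y l m j) =
              ∑ j, ∑ l, A i l * (y i m j * y l m j) := fun i => Finset.sum_comm
          simp_rw [e3]
          exact Finset.sum_comm
        simp_rw [e1, Finset.sum_neg_distrib]
        rw [e2]
      linarith
    intro j
    have h3 := (Finset.sum_eq_zero_iff_of_nonneg (fun j _ => hnn j)).1 hs j (Finset.mem_univ j)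
    by_contra hcon
    push Not at hcon
    obtain ⟨i, hi⟩ := hcon
    have h4 : (fun i => y i m j) ≠ 0 := fun h0 => hi (congrFun h0 i)
    exact absurd h3 (hA.2 _ h4).ne'
  intro i l
  have : h i l = t i l := by
    funext j
    have := hzero l j i
    simp only [y, Pi.sub_apply] at this
    linarith
  rw [this]
  exact htW i l

end Pool.Agent.R235.FS.PA2
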