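import Pool.Agent.R235.FS.Stm

/-!
# Piece A3: span of dimension at most two
-/

set_option autoImplicit false

open MeasureTheory Set Filter Topology
open scoped ContDiff

namespace Pool.Agent.R235.FS.PA3

variable {n k : ℕ}

theorem pd_smooth {Ω : Set (V n)} {f : V n → ℝ} (hΩ : IsOpen Ω) (hf : ContDiffOn ℝ ∞ f Ω)
    (i : Fin n) : ContDiffOn ℝ ∞ (pd i f) Ω := by
  have h : ContDiffOn ℝ ∞ (fderiv ℝ f) Ω := hf.fderiv_of_isOpen hΩ (by simp)
  exact h.clm_apply contDiffOn_const

theorem diffAt {Ω : Set (V n)} {f : V n → ℝ} (hΩ : IsOpen Ω) (hf : ContDiffOn ℝ ∞ f Ω)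
    {x : V n} (hx : x ∈ Ω) : DifferentiableAt ℝ f x :=
  (hf.contDiffAt (hΩ.mem_nhds hx)).differentiableAt (by simp)

theorem pd_mul {f g : V n → ℝ} {x : V n} (i : Fin n) (hf : DifferentiableAt ℝ f x)
    (hg : DifferentiableAt ℝ g x) :
    pd i (fun y => f y * g y) x = pd i f x * g x + f x * pd i g x := by
  unfold pd
  rw [fderiv_fun_mul hf hg]
  simp [mul_comm]
  ring

theorem pd_add {f g : V n → ℝ} {x : V n} (i : Fin n) (hf : DifferentiableAt ℝ f x)
    (hg : DifferentiableAt ℝ g x) :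
    pd i (fun y => f y + g y) x = pd i f x + pd i g x := by
  unfold pd
  rw [fderiv_fun_add hf hg]
  simp

theorem pd_congr {f g : V n → ℝ} {O : Set (V n)} {x : V n} (i : Fin n) (hO : IsOpen O)
    (hx : x ∈ O) (h : ∀ y ∈ O, f y = g y) : pd i f x = pd i g x := by
  unfold pd
  have : f =ᶠ[𝓝 x] g := by
    filter_upwards [hO.mem_nhds hx] with y hy using h y hy
  rw [this.fderiv_eq]

theorem pd_comm {Ω : Set (V n)} {f : V n → ℝ} (hΩ : IsOpen Ω) (hf : ContDiffOn ℝ ∞ f Ω)
    {x : V n} (hx : x ∈ Ω) (i l : Fin n) : pd i (pd l f) x = pd l (pd i f) x := by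
  have hfa : ContDiffAt ℝ ∞ f x := hf.contDiffAt (hΩ.mem_nhds hx)
  have h2 : (2 : WithTop ℕ∞) ≤ ∞ := WithTop.coe_le_coe.2 (le_top : (2 : ℕ∞) ≤ ⊤)
  have hs : IsSymmSndFDerivAt ℝ f x := hfa.isSymmSndFDerivAt (by simpa using h2)
  have hd : DifferentiableAt ℝ (fderiv ℝ f) x := by
    have h : ContDiffAt ℝ ∞ (fderiv ℝ f) x := hfa.fderiv_right (by simp)
    exact h.differentiableAt (by simp)
  have key : ∀ a b : Fin n, pd a (pd b f) x
      = fderiv ℝ (fderiv ℝ f) x (Pi.single a 1) (Pi.single b 1) := by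
    intro a b
    have h1 : HasFDerivAt (fun y => fderiv ℝ f y (Pi.single b 1))
        ((fderiv ℝ (fderiv ℝ f) x).flip (Pi.single b 1)) x := by
      simpa using hd.hasFDerivAt.clm_apply (hasFDerivAt_const (Pi.single b (1 : ℝ)) x)
    show fderiv ℝ (fun y => fderiv ℝ f y (Pi.single b 1)) x (Pi.single a 1) = _
    rw [h1.fderiv]
    rfl
  rw [key, key]
  exact hs _ _

theorem vz_mem (Z : Fin k → V n → ℝ) (x : V n) : vz Z x ∈ WW Z x :=
  Submodule.subset_span (mem_insert _ _)

theorem vd_mem (Z : Fin k → V n → ℝ) (i : Fin n) (x : V n) : vd Z i x ∈ WW Z x :=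
  Submodule.subset_span (mem_insert_of_mem _ ⟨i, rfl⟩)

/-- the `2 × 2` minor -/
def D (j1 j2 : Fin k) (u v : Fin k → ℝ) : ℝ := u j1 * v j2 - u j2 * v j1

theorem two_dim {W : Submodule ℝ (Fin k → ℝ)} (hW : Module.finrank ℝ W = 2)
    {j1 j2 : Fin k} {z y u : Fin k → ℝ} (hz : z ∈ W) (hy : y ∈ W) (hu : u ∈ W)
    (hD : D j1 j2 z y ≠ 0) (j : Fin k) :
    D j1 j2 z y * u j = D j1 j2 u y * z j + D j1 j2 z u * y j := by
  have li : LinearIndependent ℝ ![z, y] := by
    rw [LinearIndependent.pair_iff]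
    intro s t h
    have h1 := congrFun h j1
    have h2 := congrFun h j2
    simp only [Pi.add_apply, Pi.smul_apply, smul_eq_mul, Pi.zero_apply] at h1 h2
    have e1 : s * D j1 j2 z y = 0 := by
      unfold D
      linear_combination y j2 * h1 - y j1 * h2
    have e2 : t * D j1 j2 z y = 0 := by
      unfold D
      linear_combination z j1 * h2 - z j2 * h1
    exact ⟨(mul_eq_zero.mp e1).resolve_right hD, (mul_eq_zero.mp e2).resolve_right hD⟩
  have hle : Submodule.span ℝ (Set.range ![z, y]) ≤ W := by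
    rw [Submodule.span_le]
    rintro _ ⟨a, rfl⟩
    fin_cases a
    · exact hz
    · exact hy
  have heq : Submodule.span ℝ (Set.range ![z, y]) = W := by
    apply Submodule.eq_of_le_of_finrank_le hle
    rw [finrank_span_eq_card li, hW]
    simp
  rw [← heq] at hu
  have hr : Set.range ![z, y] = {z, y} := by
    simp [Matrix.range_cons, Matrix.range_empty]
    ext v; simp; tauto
  rw [hr, Submodule.mem_span_pair] at hu
  obtain ⟨a, b, rfl⟩ := hu
  simp only [D, Pi.add_apply, Pi.smul_apply, smul_eq_mul]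
  ring

theorem one_dim {W : Submodule ℝ (Fin k → ℝ)} (hW : Module.finrank ℝ W = 1)
    {j0 : Fin k} {z u : Fin k → ℝ} (hz : z ∈ W) (hu : u ∈ W)
    (hD : z j0 ≠ 0) (j : Fin k) : z j0 * u j = u j0 * z j := by
  have hz0 : z ≠ 0 := by
    rintro rfl; exact hD rfl
  have hle : Submodule.span ℝ {z} ≤ W := by
    rw [Submodule.span_le]
    rintro _ rfl
    exact hz
  have heq : Submodule.span ℝ {z} = W := by
    apply Submodule.eq_of_le_of_finrank_le hle
    rw [finrank_span_singleton hz0, hW]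
  rw [← heq, Submodule.mem_span_singleton] at hu
  obtain ⟨a, rfl⟩ := hu
  simp only [Pi.smul_apply, smul_eq_mul]
  ring

/-- the algebraic part of the two-dimensional case -/
theorem alg2 {W : Submodule ℝ (Fin k → ℝ)} {A : Fin n → Fin n → ℝ} (hA : Ell A)
    (h : Fin n → Fin n → Fin k → ℝ) (hs : ∀ i l, h i l = h l i) (μ : Fin n → ℝ) (i0 : Fin n)
    (h0 : μ i0 ≠ 0) (hW : ∀ m i, μ i0 • h m i - μ i • h m i0 ∈ W)
    (hsum : ∑ i, ∑ l, A i l • h i l ∈ W) (m i : Fin n) : h m i ∈ W := by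
  have h2 : ∀ m i, (μ i0 ^ 2) • h m i - (μ i * μ m) • h i0 i0 ∈ W := by
    intro m i
    have e1 := W.smul_mem (μ i0) (hW m i)
    have e2 := W.smul_mem (μ i) (hW i0 m)
    have e3 := W.add_mem e1 e2
    have : μ i0 • (μ i0 • h m i - μ i • h m i0) + μ i • (μ i0 • h i0 m - μ m • h i0 i0)
        = (μ i0 ^ 2) • h m i - (μ i * μ m) • h i0 i0 := by
      rw [hs m i0]
      ext j
      simp only [Pi.add_apply, Pi.sub_apply, Pi.smul_apply, smul_eq_mul]
      ring
    rwa [this] at e3
  have hN : h i0 i0 ∈ W := by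
    have e1 : ∑ i, ∑ l, A i l • ((μ i0 ^ 2) • h i l - (μ l * μ i) • h i0 i0) ∈ W :=
      Submodule.sum_mem _ fun i _ => Submodule.sum_mem _ fun l _ => W.smul_mem _ (h2 i l)
    have e2 : ∑ i, ∑ l, A i l • ((μ i0 ^ 2) • h i l - (μ l * μ i) • h i0 i0)
        = (μ i0 ^ 2) • (∑ i, ∑ l, A i l • h i l) - (∑ i, ∑ l, A i l * (μ i * μ l)) • h i0 i0 := by
      ext j
      simp only [Finset.sum_apply, Pi.sub_apply, Pi.smul_apply, smul_eq_mul, Finset.mul_sum,
        Finset.sum_mul]
      rw [← Finset.sum_sub_distrib]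
      refine Finset.sum_congr rfl fun i _ => ?_
      rw [← Finset.sum_sub_distrib]
      refine Finset.sum_congr rfl fun l _ => ?_
      ring
    rw [e2] at e1
    have e3 := W.sub_mem (W.smul_mem (μ i0 ^ 2) hsum) e1
    have e4 : (μ i0 ^ 2) • (∑ i, ∑ l, A i l • h i l) -
        ((μ i0 ^ 2) • (∑ i, ∑ l, A i l • h i l) - (∑ i, ∑ l, A i l * (μ i * μ l)) • h i0 i0)
        = (∑ i, ∑ l, A i l * (μ i * μ l)) • h i0 i0 := by abel
    rw [e4] at e3
    have hpos : 0 < ∑ i, ∑ l, A i l * (μ i * μ l) := by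
      apply hA.2
      intro hμ
      exact h0 (congrFun hμ i0)
    exact (Submodule.smul_mem_iff _ hpos.ne').mp e3
  have e5 := W.add_mem (h2 m i) (W.smul_mem (μ i * μ m) hN)
  rw [sub_add_cancel] at e5
  exact (Submodule.smul_mem_iff _ (pow_ne_zero 2 h0)).mp e5

theorem t_A3 : S_A3 := by
  intro n k w Ω Z A b lam x0 hΩ hZ hA heq hw hw2 hx0 hz0
  have hdZ : ∀ x ∈ Ω, ∀ j, DifferentiableAt ℝ (Z j) x := fun x hx j => diffAt hΩ (hZ j) hx
  have hpZ : ∀ i j, ContDiffOn ℝ ∞ (pd i (Z j)) Ω := fun i j => pd_smooth hΩ (hZ j) i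
  have hdpZ : ∀ x ∈ Ω, ∀ i j, DifferentiableAt ℝ (pd i (Z j)) x :=
    fun x hx i j => diffAt hΩ (hpZ i j) hx
  obtain ⟨j0, hj0⟩ : ∃ j0, Z j0 x0 ≠ 0 := by
    by_contra hcon
    push Not at hcon
    exact hz0 (funext hcon)
  have hcont : ∀ j, ContinuousOn (Z j) Ω := fun j => (hZ j).continuousOn
  interval_cases w
  · -- dimension zero
    exfalso
    have h0 := hw x0 hx0
    rw [Submodule.finrank_eq_zero] at h0
    have := vz_mem Z x0
    rw [h0, Submodule.mem_bot] at this
    exact hz0 this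
  · -- dimension one
    refine ⟨Ω ∩ {x | Z j0 x ≠ 0}, ?_, ⟨hx0, hj0⟩, inter_subset_left, ?_⟩
    · exact (hcont j0).isOpen_inter_preimage hΩ isOpen_ne
    · intro x hx m i
      have hO : IsOpen (Ω ∩ {x | Z j0 x ≠ 0}) :=
        (hcont j0).isOpen_inter_preimage hΩ isOpen_ne
      have hxΩ := hx.1
      have key : ∀ j, pd m (fun y => Z j0 y * pd i (Z j) y) x
          = pd m (fun y => pd i (Z j0) y * Z j y) x := by
        intro j
        refine pd_congr m hO hx fun y hy => ?_
        exact one_dim (hw y hy.1) (vz_mem Z y) (vd_mem Z i y) hy.2 j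
      have key2 : ∀ j, pd m (Z j0) x * pd i (Z j) x + Z j0 x * pd m (pd i (Z j)) x
          = pd m (pd i (Z j0)) x * Z j x + pd i (Z j0) x * pd m (Z j) x := by
        intro j
        have := key j
        rw [pd_mul m (hdZ x hxΩ j0) (hdpZ x hxΩ i j),
          pd_mul m (hdpZ x hxΩ i j0) (hdZ x hxΩ j)] at this
        exact this
      have hmem : Z j0 x • vh Z m i x ∈ WW Z x := by
        have : Z j0 x • vh Z m i x = (pd m (pd i (Z j0)) x) • vz Z x
            + (pd i (Z j0) x) • vd Z m x - (pd m (Z j0) x) • vd Z i x := by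
          ext j
          simp only [Pi.add_apply, Pi.sub_apply, Pi.smul_apply, smul_eq_mul, vh, vd, vz]
          linear_combination key2 j
        rw [this]
        exact Submodule.sub_mem _ (Submodule.add_mem _ (Submodule.smul_mem _ _ (vz_mem Z x))
          (Submodule.smul_mem _ _ (vd_mem Z m x))) (Submodule.smul_mem _ _ (vd_mem Z i x))
      exact (Submodule.smul_mem_iff _ hx.2).mp hmem
  · -- dimension two
    obtain ⟨i0, j1, hD0⟩ : ∃ i0 j1, D j0 j1 (vz Z x0) (vd Z i0 x0) ≠ 0 := by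
      by_contra hcon
      push Not at hcon
      have hle : WW Z x0 ≤ Submodule.span ℝ {vz Z x0} := by
        unfold WW
        rw [Submodule.span_le]
        intro v hv
        rcases hv with rfl | ⟨i, rfl⟩
        · exact Submodule.mem_span_singleton_self _
        · rw [SetLike.mem_coe, Submodule.mem_span_singleton]
          refine ⟨pd i (Z j0) x0 / Z j0 x0, ?_⟩
          ext j
          have := hcon i j
          simp only [D, vz, vd] at this
          simp only [Pi.smul_apply, smul_eq_mul, vz, vd]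
          field_simp
          linarith
      have h1 := Submodule.finrank_mono hle
      rw [hw x0 hx0, finrank_span_singleton hz0] at h1
      omega
    have hDc : ContinuousOn (fun x => D j0 j1 (vz Z x) (vd Z i0 x)) Ω := by
      unfold D vz vd
      exact ((hcont j0).mul (hpZ i0 j1).continuousOn).sub
        ((hcont j1).mul (hpZ i0 j0).continuousOn)
    have hO : IsOpen (Ω ∩ {x | D j0 j1 (vz Z x) (vd Z i0 x) ≠ 0}) :=
      hDc.isOpen_inter_preimage hΩ isOpen_ne
    refine ⟨_, hO, ⟨hx0, hD0⟩, inter_subset_left, ?_⟩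
    intro x hx m i
    have hxΩ := hx.1
    have hdd : ∀ (f g : Fin k → V n → ℝ), (∀ j, DifferentiableAt ℝ (f j) x) →
        (∀ j, DifferentiableAt ℝ (g j) x) →
        DifferentiableAt ℝ (fun y => D j0 j1 (fun j => f j y) (fun j => g j y)) x := by
      intro f g hf hg
      unfold D
      exact ((hf j0).mul (hg j1)).sub ((hf j1).mul (hg j0))
    have hstep : ∀ m i, D j0 j1 (vz Z x) (vd Z i0 x) • vh Z m i x
        - D j0 j1 (vz Z x) (vd Z i x) • vh Z m i0 x ∈ WW Z x := by
      intro m i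
      have da : DifferentiableAt ℝ (fun y => D j0 j1 (vz Z y) (vd Z i0 y)) x :=
        hdd Z (fun j => pd i0 (Z j)) (hdZ x hxΩ) (hdpZ x hxΩ i0)
      have db : DifferentiableAt ℝ (fun y => D j0 j1 (vd Z i y) (vd Z i0 y)) x :=
        hdd (fun j => pd i (Z j)) (fun j => pd i0 (Z j)) (hdpZ x hxΩ i) (hdpZ x hxΩ i0)
      have dc : DifferentiableAt ℝ (fun y => D j0 j1 (vz Z y) (vd Z i y)) x :=
        hdd Z (fun j => pd i (Z j)) (hdZ x hxΩ) (hdpZ x hxΩ i)
      have key : ∀ j, pd m (fun y => D j0 j1 (vz Z y) (vd Z i0 y) * pd i (Z j) y) x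
          = pd m (fun y => D j0 j1 (vd Z i y) (vd Z i0 y) * Z j y
            + D j0 j1 (vz Z y) (vd Z i y) * pd i0 (Z j) y) x := by
        intro j
        refine pd_congr m hO hx fun y hy => ?_
        exact two_dim (hw y hy.1) (vz_mem Z y) (vd_mem Z i0 y) (vd_mem Z i y) hy.2 j
      have key2 : ∀ j, pd m (fun y => D j0 j1 (vz Z y) (vd Z i0 y)) x * pd i (Z j) x
            + D j0 j1 (vz Z x) (vd Z i0 x) * pd m (pd i (Z j)) x
          = (pd m (fun y => D j0 j1 (vd Z i y) (vd Z i0 y)) x * Z j x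
            + D j0 j1 (vd Z i x) (vd Z i0 x) * pd m (Z j) x)
            + (pd m (fun y => D j0 j1 (vz Z y) (vd Z i y)) x * pd i0 (Z j) x
            + D j0 j1 (vz Z x) (vd Z i x) * pd m (pd i0 (Z j)) x) := by
        intro j
        have := key j
        rw [pd_mul m da (hdpZ x hxΩ i j),
          pd_add m (db.fun_mul (hdZ x hxΩ j)) (dc.fun_mul (hdpZ x hxΩ i0 j)),
          pd_mul m db (hdZ x hxΩ j), pd_mul m dc (hdpZ x hxΩ i0 j)] at this
        exact this
      have : D j0 j1 (vz Z x) (vd Z i0 x) • vh Z m i x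
          - D j0 j1 (vz Z x) (vd Z i x) • vh Z m i0 x
          = (pd m (fun y => D j0 j1 (vd Z i y) (vd Z i0 y)) x) • vz Z x
            + (D j0 j1 (vd Z i x) (vd Z i0 x)) • vd Z m x
            + (pd m (fun y => D j0 j1 (vz Z y) (vd Z i y)) x) • vd Z i0 x
            - (pd m (fun y => D j0 j1 (vz Z y) (vd Z i0 y)) x) • vd Z i x := by
        ext j
        have h := key2 j
        simp only [Pi.add_apply, Pi.sub_apply, Pi.smul_apply, smul_eq_mul]
        have e1 : vh Z m i x j = pd m (pd i (Z j)) x := rfl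
        have e2 : vh Z m i0 x j = pd m (pd i0 (Z j)) x := rfl
        have e3 : vz Z x j = Z j x := rfl
        have e4 : vd Z m x j = pd m (Z j) x := rfl
        have e5 : vd Z i0 x j = pd i0 (Z j) x := rfl
        have e6 : vd Z i x j = pd i (Z j) x := rfl
        rw [e1, e2, e3, e4, e5, e6]
        linear_combination h
      rw [this]
      exact Submodule.sub_mem _ (Submodule.add_mem _ (Submodule.add_mem _
        (Submodule.smul_mem _ _ (vz_mem Z x)) (Submodule.smul_mem _ _ (vd_mem Z m x)))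
        (Submodule.smul_mem _ _ (vd_mem Z i0 x))) (Submodule.smul_mem _ _ (vd_mem Z i x))
    have hsum : ∑ i, ∑ l, A x i l • vh Z i l x ∈ WW Z x := by
      have h := heq x hxΩ
      have h' : ∑ i, ∑ l, A x i l • vh Z i l x = lam • vz Z x - ∑ i, b x i • vd Z i x := by
        rw [← h]; abel
      rw [h']
      exact Submodule.sub_mem _ (Submodule.smul_mem _ _ (vz_mem Z x))
        (Submodule.sum_mem _ fun i _ => Submodule.smul_mem _ _ (vd_mem Z i x))
    have hsym : ∀ i l, vh Z i l x = vh Z l i x := by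
      intro i l
      ext j
      exact pd_comm hΩ (hZ j) hxΩ i l
    exact alg2 (hA x hxΩ) (fun i l => vh Z i l x) hsym
      (fun i => D j0 j1 (vz Z x) (vd Z i x)) i0 hx.2 hstep hsum m i

end Pool.Agent.R235.FS.PA3
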