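import Mathlib

/-!
# MP_f97e06_gt: a degenerate Laplace eigenvalue has multiplicity at least eight

Definitions and exact statements of the pieces (proofs in `NOTES.md`).
-/

set_option autoImplicit false

open MeasureTheory Set Filter Topology
open scoped ContDiff Manifold

namespace Pool.Agent.R235.FS

/-- coordinate space -/
abbrev V (n : ℕ) : Type := Fin n → ℝ

/-- partial derivative -/
noncomputable def pd {n : ℕ} (i : Fin n) (f : V n → ℝ) (x : V n) : ℝ :=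
  fderiv ℝ f x (Pi.single i 1)

/-- The Laplace-Beltrami operator of the metric `G` in local coordinates. -/
noncomputable def lap {n : ℕ} (G : V n → Matrix (Fin n) (Fin n) ℝ) (u : V n → ℝ) (x : V n) : ℝ :=
  (√(G x).det)⁻¹ * ∑ i, pd i (fun y => √(G y).det * ∑ j, (G y)⁻¹ i j * pd j u y) x

/-- A Riemannian metric on the manifold `M`, given by its components in the charts of the atlas,
which transform like a tensor. -/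
structure RMet (n : ℕ) (M : Type) [TopologicalSpace M] [ChartedSpace (V n) M] where
  G : OpenPartialHomeomorph M (V n) → V n → Matrix (Fin n) (Fin n) ℝ
  smooth : ∀ e ∈ atlas (V n) M, ∀ i j, ContDiffOn ℝ ∞ (fun y => G e y i j) e.target
  posDef : ∀ e ∈ atlas (V n) M, ∀ y ∈ e.target, (G e y).PosDef
  compat : ∀ e ∈ atlas (V n) M, ∀ e' ∈ atlas (V n) M, ∀ y ∈ e.target, e.symm y ∈ e'.source →
    ∀ i j, G e y i j = ∑ k, ∑ l, pd i (fun z => e' (e.symm z) k) y *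
      G e' (e' (e.symm y)) k l * pd j (fun z => e' (e.symm z) l) y

section
variable {n : ℕ} {M : Type} [TopologicalSpace M] [ChartedSpace (V n) M]

/-- `u` is smooth and `Δ_g u = lam u`. -/
def IsEig (g : RMet n M) (lam : ℝ) (u : M → ℝ) : Prop :=
  ContMDiff 𝓘(ℝ, V n) 𝓘(ℝ, ℝ) ∞ u ∧
    ∀ e ∈ atlas (V n) M, ∀ y ∈ e.target, lap (g.G e) (fun z => u (e.symm z)) y = lam * u (e.symm y)

/-- The eigenspace. -/
def Eig (g : RMet n M) (lam : ℝ) : Submodule ℝ (M → ℝ) := Submodule.span ℝ {u | IsEig g lam u}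

/-- Degenerate eigenvalues. -/
def Degenerate (g : RMet n M) (lam : ℝ) : Prop :=
  lam ≠ 0 ∧ 2 ≤ Module.rank ℝ (Eig g lam) ∧
  ∃ (k : ℕ) (u : Fin k → M → ℝ) (ε : Fin k → ℝ), 1 ≤ k ∧ (∀ j, IsEig g lam (u j)) ∧
    LinearIndependent ℝ u ∧ (∀ j, ε j = 1 ∨ ε j = -1) ∧ (∀ x, ∑ j, ε j * u j x ^ 2 = 0) ∧
    ∀ e ∈ atlas (V n) M, ∀ y ∈ e.target, ∀ i l,
      ∑ j, ε j * (pd i (fun z => u j (e.symm z)) y * pd l (fun z => u j (e.symm z)) y) = 0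

end

/-! ## The algebraic part -/

section
variable {n k : ℕ}

/-- value, first and second derivatives of `Z = (Z_1, ..., Z_k)` -/
def vz (Z : Fin k → V n → ℝ) (x : V n) : Fin k → ℝ := fun j => Z j x
noncomputable def vd (Z : Fin k → V n → ℝ) (i : Fin n) (x : V n) : Fin k → ℝ :=
  fun j => pd i (Z j) x
noncomputable def vh (Z : Fin k → V n → ℝ) (i l : Fin n) (x : V n) : Fin k → ℝ :=
  fun j => pd i (pd l (Z j)) x

/-- the form of the signature given by `ε` -/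
def B (ε : Fin k → ℝ) (v w : Fin k → ℝ) : ℝ := ∑ j, ε j * (v j * w j)

/-- the span of the value and of the first derivatives -/
noncomputable def WW (Z : Fin k → V n → ℝ) (x : V n) : Submodule ℝ (Fin k → ℝ) :=
  Submodule.span ℝ (insert (vz Z x) (Set.range fun i => vd Z i x))

end

/-- positive definite symmetric coefficients -/
def Ell {n : ℕ} (A : Fin n → Fin n → ℝ) : Prop :=
  (∀ i j, A i j = A j i) ∧ ∀ ξ : Fin n → ℝ, ξ ≠ 0 → 0 < ∑ i, ∑ j, A i j * (ξ i * ξ j)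

/-- A1: consequences of the null relations. -/
def S_A1 : Prop := ∀ (n k : ℕ) (Ω : Set (V n)) (ε : Fin k → ℝ) (Z : Fin k → V n → ℝ), IsOpen Ω →
  (∀ j, ContDiffOn ℝ ∞ (Z j) Ω) → (∀ x ∈ Ω, B ε (vz Z x) (vz Z x) = 0) →
  (∀ x ∈ Ω, ∀ i l, B ε (vd Z i x) (vd Z l x) = 0) → ∀ x ∈ Ω,
  (∀ i l, vh Z i l x = vh Z l i x) ∧ (∀ i, B ε (vz Z x) (vd Z i x) = 0) ∧
  (∀ i l, B ε (vz Z x) (vh Z i l x) = 0) ∧ (∀ m i l, B ε (vd Z m x) (vh Z i l x) = 0) ∧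
  ∀ i l m r, B ε (vh Z i l x) (vh Z m r x) = B ε (vh Z i m x) (vh Z l r x)

/-- A2: the definite case (pure linear algebra). -/
def S_A2 : Prop := ∀ (n k : ℕ) (ε : Fin k → ℝ) (A : Fin n → Fin n → ℝ) (b : Fin n → ℝ) (lam : ℝ)
  (z : Fin k → ℝ) (d : Fin n → Fin k → ℝ) (h : Fin n → Fin n → Fin k → ℝ),
  (∀ j, ε j = 1 ∨ ε j = -1) → Ell A → (∀ i l, h i l = h l i) → B ε z z = 0 →
  (∀ i, B ε z (d i) = 0) → (∀ i l, B ε (d i) (d l) = 0) → (∀ i l, B ε z (h i l) = 0) →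
  (∀ m i l, B ε (d m) (h i l) = 0) →
  (∀ i l m r, B ε (h i l) (h m r) = B ε (h i m) (h l r)) →
  (∑ i, ∑ l, A i l • h i l + ∑ i, b i • d i = lam • z) →
  Module.finrank ℝ (Submodule.span ℝ (insert z (Set.range d))) =
    (Finset.univ.filter fun j => ε j = 1).card →
  ∀ i l, h i l ∈ Submodule.span ℝ (insert z (Set.range d))

/-- A2b: isotropic subspaces have dimension at most the number of positive signs, and are not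
everything -/
def S_A2b : Prop := ∀ (k : ℕ) (ε : Fin k → ℝ) (W : Submodule ℝ (Fin k → ℝ)), 1 ≤ k →
  (∀ j, ε j = 1 ∨ ε j = -1) → (∀ v ∈ W, ∀ w ∈ W, B ε v w = 0) →
  Module.finrank ℝ W ≤ (Finset.univ.filter fun j => ε j = 1).card ∧ Module.finrank ℝ W < k

/-- A3: dimension at most two. -/
def S_A3 : Prop := ∀ (n k w : ℕ) (Ω : Set (V n)) (Z : Fin k → V n → ℝ)
  (A : V n → Fin n → Fin n → ℝ) (b : V n → Fin n → ℝ) (lam : ℝ) (x0 : V n), IsOpen Ω →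
  (∀ j, ContDiffOn ℝ ∞ (Z j) Ω) → (∀ x ∈ Ω, Ell (A x)) →
  (∀ x ∈ Ω, ∑ i, ∑ l, A x i l • vh Z i l x + ∑ i, b x i • vd Z i x = lam • vz Z x) →
  (∀ x ∈ Ω, Module.finrank ℝ (WW Z x) = w) → w ≤ 2 → x0 ∈ Ω → vz Z x0 ≠ 0 →
  ∃ O : Set (V n), IsOpen O ∧ x0 ∈ O ∧ O ⊆ Ω ∧ ∀ x ∈ O, ∀ i l, vh Z i l x ∈ WW Z x

/-- A4: `WW` is locally constant if it contains the second derivatives. -/
def S_A4 : Prop := ∀ (n k w : ℕ) (Ω : Set (V n)) (Z : Fin k → V n → ℝ) (x0 : V n), IsOpen Ω →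
  (∀ j, ContDiffOn ℝ ∞ (Z j) Ω) → (∀ x ∈ Ω, Module.finrank ℝ (WW Z x) = w) → w < k →
  (∀ x ∈ Ω, ∀ i l, vh Z i l x ∈ WW Z x) → x0 ∈ Ω →
  ∃ (O : Set (V n)) (c : Fin k → ℝ), IsOpen O ∧ x0 ∈ O ∧ O ⊆ Ω ∧ c ≠ 0 ∧
    ∀ x ∈ O, ∑ j, c j * Z j x = 0

/-- LOC: the local theorem. -/
def S_LOC : Prop := ∀ (n k : ℕ) (Ω : Set (V n)) (ε : Fin k → ℝ) (Z : Fin k → V n → ℝ)
  (A : V n → Fin n → Fin n → ℝ) (b : V n → Fin n → ℝ) (lam : ℝ), IsOpen Ω → Ω.Nonempty → 1 ≤ k →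
  (∀ j, ContDiffOn ℝ ∞ (Z j) Ω) → (∀ j, ε j = 1 ∨ ε j = -1) →
  (Finset.univ.filter fun j => ε j = 1).card ≤ 3 →
  (∀ x ∈ Ω, B ε (vz Z x) (vz Z x) = 0) →
  (∀ x ∈ Ω, ∀ i l, B ε (vd Z i x) (vd Z l x) = 0) → (∀ x ∈ Ω, Ell (A x)) →
  (∀ x ∈ Ω, ∑ i, ∑ l, A x i l • vh Z i l x + ∑ i, b x i • vd Z i x = lam • vz Z x) →
  ∃ (O : Set (V n)) (c : Fin k → ℝ), IsOpen O ∧ O.Nonempty ∧ O ⊆ Ω ∧ c ≠ 0 ∧
    ∀ x ∈ O, ∑ j, c j * Z j x = 0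

/-! ## Unique continuation -/

section
variable {n : ℕ}

/-- `div (a grad u)` -/
noncomputable def Pa (a : V n → Fin n → Fin n → ℝ) (u : V n → ℝ) (x : V n) : ℝ :=
  ∑ i, pd i (fun y => ∑ j, a y i j * pd j u y) x

/-- the gradient of `φ` with respect to `a` -/
noncomputable def XX (a : V n → Fin n → Fin n → ℝ) (φ : V n → ℝ) (x : V n) (m : Fin n) : ℝ :=
  ∑ l, a x m l * pd l φ x

/-- `a(∇φ, ∇φ)` -/
noncomputable def qq (a : V n → Fin n → Fin n → ℝ) (φ : V n → ℝ) (x : V n) : ℝ :=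
  ∑ m, pd m φ x * XX a φ x m

/-- symmetric part of the conjugated operator -/
noncomputable def Sop (a : V n → Fin n → Fin n → ℝ) (φ : V n → ℝ) (τ : ℝ) (v : V n → ℝ)
    (x : V n) : ℝ := Pa a v x + τ ^ 2 * qq a φ x * v x

/-- antisymmetric part of the conjugated operator -/
noncomputable def Aop (a : V n → Fin n → Fin n → ℝ) (φ : V n → ℝ) (τ : ℝ) (v : V n → ℝ)
    (x : V n) : ℝ := -(2 * τ) * (∑ m, XX a φ x m * pd m v x) - τ * Pa a φ x * v x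

/-- the Hessian form -/
noncomputable def HH (a : V n → Fin n → Fin n → ℝ) (φ : V n → ℝ) (x : V n) (ξ : Fin n → ℝ) : ℝ :=
  2 * (∑ i, ∑ j, ∑ m, pd i (fun y => XX a φ y m) x * a x i j * (ξ m * ξ j)) -
    ∑ i, ∑ j, ∑ m, XX a φ x m * pd m (fun y => a y i j) x * (ξ i * ξ j)

/-- smooth symmetric coefficients -/
def SmS (a : V n → Fin n → Fin n → ℝ) : Prop :=
  (∀ i j, ContDiff ℝ ∞ fun x => a x i j) ∧ ∀ x i j, a x i j = a x j i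

end

/-- IB: integration by parts. -/
def S_IB : Prop := ∀ (n : ℕ) (i : Fin n) (f g : V n → ℝ), ContDiff ℝ ∞ f → ContDiff ℝ ∞ g →
  HasCompactSupport g → ∫ x, pd i f x * g x = -∫ x, f x * pd i g x

/-- I1: the commutator identity. -/
def S_I1 : Prop := ∀ (n : ℕ) (a : V n → Fin n → Fin n → ℝ) (φ v : V n → ℝ) (τ : ℝ), SmS a →
  ContDiff ℝ ∞ φ → ContDiff ℝ ∞ v → HasCompactSupport v →
  2 * ∫ x, Sop a φ τ v x * Aop a φ τ v x =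
    2 * τ * (∫ x, HH a φ x (fun i => pd i v x)) +
    2 * τ ^ 3 * (∫ x, (∑ m, XX a φ x m * pd m (qq a φ) x) * v x ^ 2) -
    τ * ∫ x, Pa a (Pa a φ) x * v x ^ 2

/-- I2: the energy identity. -/
def S_I2 : Prop := ∀ (n : ℕ) (a : V n → Fin n → Fin n → ℝ) (φ g v : V n → ℝ) (τ : ℝ), SmS a →
  ContDiff ℝ ∞ φ → ContDiff ℝ ∞ g → ContDiff ℝ ∞ v → HasCompactSupport v →
  ∫ x, Sop a φ τ v x * (g x * v x) =
    -(∫ x, g x * ∑ i, ∑ j, a x i j * (pd i v x * pd j v x)) +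
    (1 / 2) * (∫ x, Pa a g x * v x ^ 2) + τ ^ 2 * ∫ x, qq a φ x * g x * v x ^ 2

/-- CJ: conjugation. -/
def S_CJ : Prop := ∀ (n : ℕ) (a : V n → Fin n → Fin n → ℝ) (φ v : V n → ℝ) (τ : ℝ), SmS a →
  ContDiff ℝ ∞ φ → ContDiff ℝ ∞ v → ∀ x,
  Real.exp (τ * φ x) * Pa a (fun y => Real.exp (-(τ * φ y)) * v y) x =
    Sop a φ τ v x + Aop a φ τ v x

/-- WT: exponential weights. -/
def S_WT : Prop := ∀ (n : ℕ) (a : V n → Fin n → Fin n → ℝ) (ψ : V n → ℝ) (s : ℝ), SmS a →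
  ContDiff ℝ ∞ ψ → ∀ (φ : V n → ℝ), φ = (fun x => Real.exp (s * ψ x)) → ∀ x,
  (∀ ξ, HH a φ x ξ = s * φ x * HH a ψ x ξ + 2 * s ^ 2 * φ x * (∑ m, XX a ψ x m * ξ m) ^ 2) ∧
  (∑ m, XX a φ x m * pd m (qq a φ) x = 2 * s ^ 4 * φ x ^ 3 * qq a ψ x ^ 2 +
    s ^ 3 * φ x ^ 3 * ∑ m, XX a ψ x m * pd m (qq a ψ) x) ∧
  qq a φ x = s ^ 2 * φ x ^ 2 * qq a ψ x

/-- CV: the Carleman inequality for the conjugated function. -/
def S_CV : Prop := ∀ (n : ℕ) (a : V n → Fin n → Fin n → ℝ) (ψ : V n → ℝ) (K : Set (V n)), SmS a →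
  ContDiff ℝ ∞ ψ → IsCompact K → (∀ x ∈ K, Ell (a x)) → (∀ x ∈ K, ∃ i, pd i ψ x ≠ 0) →
  ∃ s c τ0 : ℝ, 0 < s ∧ 0 < c ∧ 1 ≤ τ0 ∧ ∀ τ, τ0 ≤ τ → ∀ v : V n → ℝ, ContDiff ℝ ∞ v →
    tsupport v ⊆ K → c * ∫ x, (τ ^ 3 * v x ^ 2 + τ * ∑ i, pd i v x ^ 2) ≤
      ∫ x, (Sop a (fun y => Real.exp (s * ψ y)) τ v x +
        Aop a (fun y => Real.exp (s * ψ y)) τ v x) ^ 2

/-- CW: the Carleman inequality. -/
def S_CW : Prop := ∀ (n : ℕ) (a : V n → Fin n → Fin n → ℝ) (ψ : V n → ℝ) (K : Set (V n)), SmS a →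
  ContDiff ℝ ∞ ψ → IsCompact K → (∀ x ∈ K, Ell (a x)) → (∀ x ∈ K, ∃ i, pd i ψ x ≠ 0) →
  ∃ s c τ0 : ℝ, 0 < s ∧ 0 < c ∧ 1 ≤ τ0 ∧ ∀ τ, τ0 ≤ τ → ∀ w : V n → ℝ, ContDiff ℝ ∞ w →
    tsupport w ⊆ K →
    c * ∫ x, Real.exp (2 * τ * Real.exp (s * ψ x)) * (τ ^ 3 * w x ^ 2 + τ * ∑ i, pd i w x ^ 2) ≤
      ∫ x, Real.exp (2 * τ * Real.exp (s * ψ x)) * Pa a w x ^ 2

/-- squared Euclidean norm -/
def sq {n : ℕ} (x : V n) : ℝ := ∑ i, x i ^ 2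

/-- `u` satisfies a second order elliptic equation with smooth coefficients on `Ω` -/
structure Sol {n : ℕ} (Ω : Set (V n)) (a : V n → Fin n → Fin n → ℝ) (b : V n → Fin n → ℝ)
    (c u : V n → ℝ) : Prop where
  op : IsOpen Ω
  sa : ∀ i j, ContDiffOn ℝ ∞ (fun x => a x i j) Ω
  ell : ∀ x ∈ Ω, Ell (a x)
  sb : ∀ i, ContinuousOn (fun x => b x i) Ω
  sc : ContinuousOn c Ω
  su : ContDiffOn ℝ ∞ u Ω
  eq : ∀ x ∈ Ω, ∑ i, ∑ j, a x i j * pd i (pd j u) x + ∑ i, b x i * pd i u x + c x * u x = 0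

/-- U1: unique continuation across a sphere. -/
def S_U1 : Prop := ∀ (n : ℕ) (Ω : Set (V n)) (a : V n → Fin n → Fin n → ℝ) (b : V n → Fin n → ℝ)
  (c u : V n → ℝ) (x1 y : V n), Sol Ω a b c u → x1 ∈ Ω → 0 < sq (x1 - y) →
  (∀ x ∈ Ω, sq (x - y) < sq (x1 - y) → u x = 0) →
  ∃ U : Set (V n), IsOpen U ∧ x1 ∈ U ∧ ∀ x ∈ U, u x = 0

/-- UC: local unique continuation. -/
def S_UC : Prop := ∀ (n : ℕ) (Ω : Set (V n)) (a : V n → Fin n → Fin n → ℝ) (b : V n → Fin n → ℝ)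
  (c u : V n → ℝ) (x0 : V n), Sol Ω a b c u → x0 ∈ Ω →
  (∀ U : Set (V n), IsOpen U → x0 ∈ U → ∃ O ⊆ U, IsOpen O ∧ O.Nonempty ∧ ∀ x ∈ O, u x = 0) →
  ∃ U : Set (V n), IsOpen U ∧ x0 ∈ U ∧ ∀ x ∈ U, u x = 0

/-- LAP: the Laplace-Beltrami operator in nondivergence form. -/
def S_LAP : Prop := ∀ (n : ℕ) (Ω : Set (V n)) (G : V n → Matrix (Fin n) (Fin n) ℝ), IsOpen Ω →
  (∀ i j, ContDiffOn ℝ ∞ (fun x => G x i j) Ω) → (∀ x ∈ Ω, (G x).PosDef) →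
  (∀ i j, ContDiffOn ℝ ∞ (fun x => (G x)⁻¹ i j) Ω) ∧ (∀ x ∈ Ω, Ell fun i j => (G x)⁻¹ i j) ∧
  ∃ b : V n → Fin n → ℝ, (∀ i, ContinuousOn (fun x => b x i) Ω) ∧
    ∀ u : V n → ℝ, ContDiffOn ℝ ∞ u Ω → ∀ x ∈ Ω,
      lap G u x = ∑ i, ∑ j, (G x)⁻¹ i j * pd i (pd j u) x + ∑ i, b x i * pd i u x

/-- MUC: unique continuation on manifolds. -/
def S_MUC : Prop := ∀ (n : ℕ) (M : Type) [TopologicalSpace M] [ChartedSpace (V n) M]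
  [IsManifold 𝓘(ℝ, V n) ∞ M] [ConnectedSpace M] (g : RMet n M) (lam : ℝ) (u : M → ℝ),
  IsEig g lam u → (∃ O : Set M, IsOpen O ∧ O.Nonempty ∧ ∀ x ∈ O, u x = 0) → ∀ x, u x = 0

/-- MAIN -/
def S_MAIN : Prop := ∀ (n : ℕ) (M : Type) [TopologicalSpace M] [ChartedSpace (V n) M]
  [IsManifold 𝓘(ℝ, V n) ∞ M] [CompactSpace M] [T2Space M] [ConnectedSpace M] (g : RMet n M)
  (lam : ℝ), Degenerate g lam → 8 ≤ Module.rank ℝ (Eig g lam)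

end Pool.Agent.R235.FS
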