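import Mathlib
import Pool.Agent.R235.FS.Stm

/-!
Project FS (MP_f97e06_gt), piece A4: the span of the value and the first derivatives is locally
constant if it contains the second derivatives.
-/

set_option autoImplicit false

open MeasureTheory Set Filter Topology
open scoped ContDiff Manifold

namespace Pool.Agent.R235.FS

namespace PA4

variable {n k : ℕ}

/-- value and first derivatives as one family -/
noncomputable def fam (Z : Fin k → V n → ℝ) (a : Option (Fin n)) (x : V n) : Fin k → ℝ :=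
  match a with
  | none => vz Z x
  | some i => vd Z i x

theorem WW_eq (Z : Fin k → V n → ℝ) (x : V n) :
    WW Z x = Submodule.span ℝ (Set.range fun a => fam Z a x) := by
  unfold WW
  congr 1
  ext v
  constructor
  · rintro (rfl | ⟨i, rfl⟩)
    · exact ⟨none, rfl⟩
    · exact ⟨some i, rfl⟩
  · rintro ⟨a, rfl⟩
    cases a with
    | none => exact Or.inl rfl
    | some i => exact Or.inr ⟨i, rfl⟩

theorem fam_mem (Z : Fin k → V n → ℝ) (a : Option (Fin n)) (x : V n) : fam Z a x ∈ WW Z x := by
  rw [WW_eq]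
  exact Submodule.subset_span ⟨a, rfl⟩

theorem diff_fam {Ω : Set (V n)} {Z : Fin k → V n → ℝ} (hΩ : IsOpen Ω)
    (hZ : ∀ j, ContDiffOn ℝ ∞ (Z j) Ω) (a : Option (Fin n)) {x : V n} (hx : x ∈ Ω) :
    DifferentiableAt ℝ (fam Z a) x := by
  have hat : ∀ j, ContDiffAt ℝ ∞ (Z j) x := fun j => (hZ j).contDiffAt (hΩ.mem_nhds hx)
  rw [differentiableAt_pi]
  intro j
  cases a with
  | none =>
    exact (hat j).differentiableAt (by simp)
  | some i =>
    have h1 : ContDiffAt ℝ 1 (fderiv ℝ (Z j)) x :=
      ((hat j).of_le (n := ∞) (m := 2) (WithTop.coe_le_coe.mpr le_top)).fderiv_right (m := 1)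
        (by norm_num)
    have h2 : DifferentiableAt ℝ (fderiv ℝ (Z j)) x := h1.differentiableAt (by simp)
    exact h2.clm_apply (differentiableAt_const _)

theorem fderiv_fam {Ω : Set (V n)} {Z : Fin k → V n → ℝ} (hΩ : IsOpen Ω)
    (hZ : ∀ j, ContDiffOn ℝ ∞ (Z j) Ω) (hvh : ∀ x ∈ Ω, ∀ i l, vh Z i l x ∈ WW Z x)
    (a : Option (Fin n)) {x : V n} (hx : x ∈ Ω) (v : V n) :
    fderiv ℝ (fam Z a) x v ∈ WW Z x := by
  have hd := diff_fam hΩ hZ a hx
  have hcoord : ∀ (m : Fin n) (j : Fin k), fderiv ℝ (fam Z a) x (Pi.single m 1) j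
      = pd m (fun y => fam Z a y j) x := by
    intro m j
    unfold pd
    have h1 : HasFDerivAt (fun y => fam Z a y j)
        ((ContinuousLinearMap.proj j).comp (fderiv ℝ (fam Z a) x)) x :=
      (ContinuousLinearMap.proj (R := ℝ) (φ := fun _ : Fin k => ℝ) j).hasFDerivAt.comp x
        hd.hasFDerivAt
    rw [h1.fderiv]
    rfl
  have hm : ∀ m : Fin n, fderiv ℝ (fam Z a) x (Pi.single m 1) ∈ WW Z x := by
    intro m
    cases a with
    | none =>
      have : fderiv ℝ (fam Z none) x (Pi.single m 1) = fam Z (some m) x := by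
        funext j
        rw [hcoord]
        rfl
      rw [this]
      exact fam_mem Z (some m) x
    | some l =>
      have : fderiv ℝ (fam Z (some l)) x (Pi.single m 1) = vh Z m l x := by
        funext j
        rw [hcoord]
        rfl
      rw [this]
      exact hvh x hx m l
  have hv : v = ∑ m, v m • (Pi.single m (1 : ℝ) : V n) := by
    funext i
    simp [Finset.sum_apply, Pi.single_apply]
  rw [hv, map_sum]
  refine Submodule.sum_mem _ fun m _ => ?_
  rw [map_smul]
  exact Submodule.smul_mem _ _ (hm m)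

end PA4

open PA4 in
theorem t_A4 : S_A4 := by
  intro n k w Ω Z x0 hΩ hZ hrank hwk hvh hx0
  obtain ⟨κ, a, hainj, haspan, hali⟩ := exists_linearIndependent' ℝ (fun a => fam Z a x0)
  have : Finite κ := Finite.of_injective a hainj
  have : Fintype κ := Fintype.ofFinite κ
  have : DecidableEq κ := Classical.decEq κ
  have hcard : Fintype.card κ = w := by
    have h1 := finrank_span_eq_card hali
    rw [haspan, ← WW_eq, hrank x0 hx0] at h1
    exact h1.symm
  -- the maps
  let L : V n → ((κ → ℝ) →L[ℝ] (Fin k → ℝ)) := fun z =>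
    ∑ b, (ContinuousLinearMap.proj (R := ℝ) (φ := fun _ : κ => ℝ) b).smulRight (fam Z (a b) z)
  have hLapp : ∀ z c, L z c = ∑ b, c b • fam Z (a b) z := by
    intro z c
    simp [L]
  have hLdiff : ∀ z ∈ Ω, DifferentiableAt ℝ L z := by
    intro z hz
    refine DifferentiableAt.fun_sum fun b _ => ?_
    exact ((ContinuousLinearMap.smulRightL ℝ (κ → ℝ) (Fin k → ℝ)
      (ContinuousLinearMap.proj (R := ℝ) (φ := fun _ : κ => ℝ) b)).differentiableAt).comp z
        (diff_fam hΩ hZ (a b) hz)
  have hLsingle : ∀ z b, L z (Pi.single b 1) = fam Z (a b) z := by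
    intro z b
    rw [hLapp]
    simp [Pi.single_apply]
  have hLmem : ∀ z c, L z c ∈ WW Z z := by
    intro z c
    rw [hLapp]
    exact Submodule.sum_mem _ fun b _ => Submodule.smul_mem _ _ (fam_mem Z _ z)
  have hLx0 : Function.Injective (L x0) := by
    rw [injective_iff_map_eq_zero]
    intro c hc
    rw [hLapp] at hc
    have := Fintype.linearIndependent_iff.mp hali c hc
    funext b
    exact this b
  obtain ⟨R0, hR0⟩ := LinearMap.exists_leftInverse_of_injective (L x0).toLinearMap
    (LinearMap.ker_eq_bot.mpr hLx0)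
  let R : (Fin k → ℝ) →L[ℝ] (κ → ℝ) := LinearMap.toContinuousLinearMap R0
  let M : V n → ((κ → ℝ) →L[ℝ] (κ → ℝ)) := fun z => R.comp (L z)
  have hMx0 : M x0 = 1 := by
    ext1 c
    exact LinearMap.congr_fun hR0 c
  have hMdiff : ∀ z ∈ Ω, DifferentiableAt ℝ M z := fun z hz =>
    (differentiableAt_const R).clm_comp (hLdiff z hz)
  have hunit : ∀ᶠ z in 𝓝 x0, IsUnit (M z) := by
    have h1 : {m : (κ → ℝ) →L[ℝ] (κ → ℝ) | IsUnit m} ∈ 𝓝 (M x0) := by
      rw [hMx0]
      exact (Units.isOpen (R := (κ → ℝ) →L[ℝ] (κ → ℝ))).mem_nhds isUnit_one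
    exact (hMdiff x0 hx0).continuousAt h1
  obtain ⟨r, hr, hball⟩ := Metric.mem_nhds_iff.mp
    (Filter.inter_mem (hΩ.mem_nhds hx0) hunit)
  have hbΩ : ∀ z ∈ Metric.ball x0 r, z ∈ Ω := fun z hz => (hball hz).1
  have hbU : ∀ z ∈ Metric.ball x0 r, IsUnit (M z) := fun z hz => (hball hz).2
  let T : V n → ((κ → ℝ) →L[ℝ] (Fin k → ℝ)) := fun z => (L z).comp (Ring.inverse (M z))
  have hTdiff : ∀ z ∈ Metric.ball x0 r, DifferentiableAt ℝ T z := by
    intro z hz
    refine (hLdiff z (hbΩ z hz)).clm_comp ?_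
    have h1 : DifferentiableAt ℝ (Ring.inverse : ((κ → ℝ) →L[ℝ] (κ → ℝ)) → _) (M z) :=
      differentiableAt_inverse (hbU z hz)
    exact h1.comp z (hMdiff z (hbΩ z hz))
  have hinv : ∀ z ∈ Metric.ball x0 r, ∀ c, Ring.inverse (M z) (M z c) = c := by
    intro z hz c
    have := Ring.inverse_mul_cancel (M z) (hbU z hz)
    exact congrArg (fun f : (κ → ℝ) →L[ℝ] (κ → ℝ) => f c) this
  have hinv' : ∀ z ∈ Metric.ball x0 r, ∀ c, M z (Ring.inverse (M z) c) = c := by
    intro z hz c
    have := Ring.mul_inverse_cancel (M z) (hbU z hz)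
    exact congrArg (fun f : (κ → ℝ) →L[ℝ] (κ → ℝ) => f c) this
  have hTR : ∀ z ∈ Metric.ball x0 r, ∀ u ∈ WW Z z, T z (R u) = u := by
    intro z hz u hu
    have hinj : Function.Injective (L z) := by
      intro c c' hcc
      have : M z c = M z c' := by
        change R (L z c) = R (L z c')
        rw [hcc]
      rw [← hinv z hz c, ← hinv z hz c', this]
    have hrange : LinearMap.range (L z).toLinearMap = WW Z z := by
      refine Submodule.eq_of_le_of_finrank_eq ?_ ?_
      · rintro _ ⟨c, rfl⟩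
        exact hLmem z c
      · rw [hrank z (hbΩ z hz), LinearMap.finrank_range_of_inj hinj, Module.finrank_pi, hcard]
    rw [← hrange] at hu
    obtain ⟨c, rfl⟩ := hu
    change L z (Ring.inverse (M z) (M z c)) = L z c
    rw [hinv z hz]
  have hTconst : ∀ z ∈ Metric.ball x0 r, fderiv ℝ T z = 0 := by
    intro z hz
    ext1 v
    have hkey : ∀ b, (fderiv ℝ T z v) (R (fam Z (a b) z)) = 0 := by
      intro b
      have hfd := (diff_fam hΩ hZ (a b) (hbΩ z hz)).hasFDerivAt
      have h1 : HasFDerivAt (fun y => R (fam Z (a b) y))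
          (R.comp (fderiv ℝ (fam Z (a b)) z)) z := R.hasFDerivAt.comp z hfd
      have h2 := (hTdiff z hz).hasFDerivAt.clm_apply h1
      have h3 : (fun y => T y (R (fam Z (a b) y))) =ᶠ[𝓝 z] fam Z (a b) := by
        filter_upwards [Metric.isOpen_ball.mem_nhds hz] with y hy
        exact hTR y hy _ (fam_mem Z _ y)
      have h4 := (h2.congr_of_eventuallyEq h3.symm).unique hfd
      have h5 := congrArg (fun f : V n →L[ℝ] (Fin k → ℝ) => f v) h4
      simp only [ContinuousLinearMap.add_apply, ContinuousLinearMap.comp_apply,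
        ContinuousLinearMap.flip_apply] at h5
      have h6 := hTR z hz _ (fderiv_fam hΩ hZ hvh (a b) (hbΩ z hz) v)
      rw [h6] at h5
      simpa using h5
    have hM1 : ∀ b, M z (Pi.single b 1) = R (fam Z (a b) z) := by
      intro b
      change R (L z (Pi.single b 1)) = _
      rw [hLsingle]
    ext1 c
    rw [← hinv' z hz c]
    set c' := Ring.inverse (M z) c
    have hc' : c' = ∑ b, c' b • (Pi.single b (1 : ℝ) : κ → ℝ) := by
      funext i
      simp [Finset.sum_apply, Pi.single_apply]
    have hc2 : (fderiv ℝ T z v) (M z c') = 0 := by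
      rw [hc', map_sum, map_sum]
      refine Finset.sum_eq_zero fun b _ => ?_
      rw [map_smul, map_smul, hM1, hkey, smul_zero]
    exact hc2
  have hT0 : ∀ z ∈ Metric.ball x0 r, T z = T x0 := by
    intro z hz
    refine Metric.isOpen_ball.is_const_of_fderiv_eq_zero (𝕜 := ℝ)
      (convex_ball x0 r).isPreconnected ?_ ?_ hz (Metric.mem_ball_self hr)
    · intro y hy
      exact (hTdiff y hy).differentiableWithinAt
    · intro y hy
      exact hTconst y hy
  -- the functional
  have hlt : WW Z x0 < ⊤ := by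
    rw [lt_top_iff_ne_top]
    intro htop
    have h1 := hrank x0 hx0
    rw [htop, finrank_top, Module.finrank_pi, Fintype.card_fin] at h1
    omega
  obtain ⟨φ, hφ0, hφ⟩ := Submodule.exists_le_ker_of_lt_top (WW Z x0) hlt
  refine ⟨Metric.ball x0 r, fun j => φ (Pi.single j 1), Metric.isOpen_ball,
    Metric.mem_ball_self hr, fun z hz => hbΩ z hz, ?_, ?_⟩
  · intro h0
    apply hφ0
    refine LinearMap.ext fun v => ?_
    rw [LinearMap.pi_apply_eq_sum_univ φ v]
    have : ∀ i, φ (fun j => if i = j then 1 else 0) = 0 := by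
      intro i
      have h1 := congrFun h0 i
      simp only [Pi.zero_apply] at h1
      have h2 : (fun j => if i = j then 1 else 0) = (Pi.single i (1 : ℝ) : Fin k → ℝ) := by
        funext j
        simp [Pi.single_apply, eq_comm]
      rw [h2, h1]
    simp [this]
  · intro x hx
    have h1 : vz Z x ∈ WW Z x0 := by
      have h2 := hTR x hx _ (fam_mem Z none x)
      rw [hT0 x hx] at h2
      have h3 : T x0 (R (fam Z none x)) ∈ WW Z x0 := hLmem x0 _
      rw [h2] at h3
      exact h3
    have h2 : φ (vz Z x) = 0 := hφ h1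
    rw [LinearMap.pi_apply_eq_sum_univ φ (vz Z x)] at h2
    rw [← h2]
    refine Finset.sum_congr rfl fun j _ => ?_
    have : (Pi.single j (1 : ℝ) : Fin k → ℝ) = fun i => if j = i then 1 else 0 := by
      funext i
      simp [Pi.single_apply, eq_comm]
    change φ (Pi.single j 1) * Z j x = Z j x * φ _
    rw [this, mul_comm]

end Pool.Agent.R235.FS
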