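import Pool.Agent.R235.FS.Stm

/-!
# CJ (MP_f97e06_gt): the conjugated operator
-/

set_option autoImplicit false

open MeasureTheory Set Filter Topology
open scoped ContDiff Manifold

namespace Pool.Agent.R235.FS.PCJ

open Pool.Agent.R235.FS

theorem cd_pd {n : ℕ} {f : V n → ℝ} (hf : ContDiff ℝ ∞ f) (i : Fin n) :
    ContDiff ℝ ∞ (fun x => pd i f x) := by
  unfold pd
  exact (hf.fderiv_right (m := ∞) (by simp)).clm_apply contDiff_const

theorem cd_diff {n : ℕ} {f : V n → ℝ} (hf : ContDiff ℝ ∞ f) (x : V n) :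
    DifferentiableAt ℝ f x := (hf.differentiable (by simp)).differentiableAt

theorem pd_mul {n : ℕ} {f g : V n → ℝ} {x : V n} (hf : DifferentiableAt ℝ f x)
    (hg : DifferentiableAt ℝ g x) (i : Fin n) :
    pd i (fun y => f y * g y) x = f x * pd i g x + g x * pd i f x := by
  unfold pd
  rw [fderiv_fun_mul hf hg]
  simp

theorem pd_const_mul {n : ℕ} {g : V n → ℝ} {x : V n} (c : ℝ)
    (hg : DifferentiableAt ℝ g x) (i : Fin n) :
    pd i (fun y => c * g y) x = c * pd i g x := by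
  unfold pd
  rw [(hg.hasFDerivAt.const_mul c).fderiv]
  simp

theorem pd_sub {n : ℕ} {f g : V n → ℝ} {x : V n} (hf : DifferentiableAt ℝ f x)
    (hg : DifferentiableAt ℝ g x) (i : Fin n) :
    pd i (fun y => f y - g y) x = pd i f x - pd i g x := by
  unfold pd
  rw [fderiv_fun_sub hf hg]
  simp

theorem pd_exp {n : ℕ} {f : V n → ℝ} {x : V n} (hf : DifferentiableAt ℝ f x) (i : Fin n) :
    pd i (fun y => Real.exp (f y)) x = Real.exp (f x) * pd i f x := by
  unfold pd
  rw [hf.hasFDerivAt.exp.fderiv]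
  simp

theorem cd_XX {n : ℕ} {a : V n → Fin n → Fin n → ℝ} {φ : V n → ℝ} (ha : SmS a)
    (hφ : ContDiff ℝ ∞ φ) (m : Fin n) : ContDiff ℝ ∞ (fun x => XX a φ x m) := by
  unfold XX
  exact ContDiff.sum fun l _ => (ha.1 m l).mul (cd_pd hφ l)

theorem cd_qq {n : ℕ} {a : V n → Fin n → Fin n → ℝ} {φ : V n → ℝ} (ha : SmS a)
    (hφ : ContDiff ℝ ∞ φ) : ContDiff ℝ ∞ (fun x => qq a φ x) := by
  unfold qq
  exact ContDiff.sum fun l _ => (cd_pd hφ l).mul (cd_XX ha hφ l)

theorem sym_sum {n : ℕ} {a : V n → Fin n → Fin n → ℝ} {φ : V n → ℝ} (ha : SmS a) (x : V n)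
    (w : Fin n → ℝ) :
    ∑ i, pd i φ x * ∑ j, a x i j * w j = ∑ j, XX a φ x j * w j := by
  unfold XX
  simp_rw [Finset.mul_sum, Finset.sum_mul]
  rw [Finset.sum_comm]
  refine Finset.sum_congr rfl fun j _ => Finset.sum_congr rfl fun i _ => ?_
  rw [ha.2 x i j]
  ring

theorem t_CJ : S_CJ := by
  intro n a φ v τ ha hφ hv x
  have hdφ := cd_diff hφ
  have hdv := cd_diff hv
  have hτφ : ContDiff ℝ ∞ (fun y => τ * φ y) := contDiff_const.mul hφ
  have hnφ : ContDiff ℝ ∞ (fun y => -(τ * φ y)) := hτφ.neg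
  have hE : ContDiff ℝ ∞ (fun y => Real.exp (-(τ * φ y))) := hnφ.exp
  have hdE := cd_diff hE
  have hpE : ∀ (y : V n) (i : Fin n), pd i (fun y => Real.exp (-(τ * φ y))) y =
      -(τ * pd i φ y * Real.exp (-(τ * φ y))) := by
    intro y i
    rw [pd_exp (cd_diff hnφ y)]
    have h1 : (fun y => -(τ * φ y)) = fun y => (-τ) * φ y := by
      funext y
      ring
    rw [h1, pd_const_mul (-τ) (hdφ y)]
    ring
  have hpv : ∀ (y : V n) (j : Fin n), pd j (fun y => Real.exp (-(τ * φ y)) * v y) y =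
      Real.exp (-(τ * φ y)) * (pd j v y - τ * (pd j φ y * v y)) := by
    intro y j
    rw [pd_mul (hdE y) (hdv y), hpE]
    ring
  have hflux : ∀ i : Fin n, (fun y => ∑ j, a y i j *
      pd j (fun y => Real.exp (-(τ * φ y)) * v y) y) =
      fun y => Real.exp (-(τ * φ y)) * (XX a v y i - τ * (XX a φ y i * v y)) := by
    intro i
    funext y
    simp_rw [hpv]
    unfold XX
    rw [Finset.sum_mul, Finset.mul_sum, ← Finset.sum_sub_distrib, Finset.mul_sum]
    refine Finset.sum_congr rfl fun j _ => ?_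
    ring
  have hXv : ∀ i, DifferentiableAt ℝ (fun y => XX a v y i) x := fun i => cd_diff (cd_XX ha hv i) x
  have hXφ : ∀ i, DifferentiableAt ℝ (fun y => XX a φ y i) x := fun i => cd_diff (cd_XX ha hφ i) x
  have hterm : ∀ i : Fin n,
      pd i (fun y => Real.exp (-(τ * φ y)) * (XX a v y i - τ * (XX a φ y i * v y))) x =
      Real.exp (-(τ * φ x)) * (pd i (fun y => XX a v y i) x -
        τ * (pd i (fun y => XX a φ y i) x * v x) - τ * (XX a φ x i * pd i v x) -
        τ * (pd i φ x * XX a v x i) + τ ^ 2 * (pd i φ x * XX a φ x i) * v x) := by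
    intro i
    have h1 : DifferentiableAt ℝ (fun y => XX a φ y i * v y) x := (hXφ i).mul (hdv x)
    have h2 : DifferentiableAt ℝ (fun y => τ * (XX a φ y i * v y)) x := h1.const_mul τ
    have h3 : DifferentiableAt ℝ (fun y => XX a v y i - τ * (XX a φ y i * v y)) x :=
      (hXv i).sub h2
    rw [pd_mul (hdE x) h3, pd_sub (hXv i) h2, pd_const_mul τ h1, pd_mul (hXφ i) (hdv x), hpE]
    ring
  have hone : Real.exp (τ * φ x) * Real.exp (-(τ * φ x)) = 1 := by
    rw [← Real.exp_add, add_neg_cancel, Real.exp_zero]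
  have hP : Pa a (fun y => Real.exp (-(τ * φ y)) * v y) x =
      Real.exp (-(τ * φ x)) * ∑ i, (pd i (fun y => XX a v y i) x -
        τ * (pd i (fun y => XX a φ y i) x * v x) - τ * (XX a φ x i * pd i v x) -
        τ * (pd i φ x * XX a v x i) + τ ^ 2 * (pd i φ x * XX a φ x i) * v x) := by
    unfold Pa
    rw [Finset.mul_sum]
    refine Finset.sum_congr rfl fun i _ => ?_
    rw [hflux i, hterm i]
  rw [hP, ← mul_assoc, hone, one_mul, Finset.sum_add_distrib, Finset.sum_sub_distrib,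
    Finset.sum_sub_distrib, Finset.sum_sub_distrib, ← Finset.mul_sum, ← Finset.mul_sum,
    ← Finset.mul_sum, ← Finset.sum_mul, ← Finset.sum_mul, ← Finset.mul_sum]
  have s1 : ∑ i, pd i φ x * XX a v x i = ∑ j, XX a φ x j * pd j v x :=
    sym_sum ha x (fun j => pd j v x)
  have s2 : ∑ i, pd i φ x * XX a φ x i = qq a φ x := rfl
  have s3 : ∑ i, pd i (fun y => XX a v y i) x = Pa a v x := rfl
  have s4 : ∑ i, pd i (fun y => XX a φ y i) x = Pa a φ x := rfl
  rw [s1, s2, s3, s4]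
  unfold Sop Aop
  ring

end Pool.Agent.R235.FS.PCJ
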