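import Pool.Agent.R235.FS.Stm

set_option autoImplicit false

open MeasureTheory Set Filter Topology
open scoped ContDiff

namespace Pool.Agent.R235.FS.PCV

variable {n : ℕ}

theorem sm_pd {f : V n → ℝ} (hf : ContDiff ℝ ∞ f) (i : Fin n) : ContDiff ℝ ∞ (pd i f) := by
  unfold pd
  exact (hf.fderiv_right (m := ∞) (by simp)).clm_apply contDiff_const

theorem sm_XX {a : V n → Fin n → Fin n → ℝ} (ha : SmS a) {f : V n → ℝ} (hf : ContDiff ℝ ∞ f)
    (m : Fin n) : ContDiff ℝ ∞ (fun x => XX a f x m) := by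
  unfold XX
  exact ContDiff.sum fun l _ => (ha.1 m l).mul (sm_pd hf l)

theorem sm_qq {a : V n → Fin n → Fin n → ℝ} (ha : SmS a) {f : V n → ℝ} (hf : ContDiff ℝ ∞ f) :
    ContDiff ℝ ∞ (qq a f) := by
  unfold qq
  exact ContDiff.sum fun l _ => (sm_pd hf l).mul (sm_XX ha hf l)

theorem sm_Pa {a : V n → Fin n → Fin n → ℝ} (ha : SmS a) {f : V n → ℝ} (hf : ContDiff ℝ ∞ f) :
    ContDiff ℝ ∞ (Pa a f) := by
  unfold Pa
  exact ContDiff.sum fun l _ => sm_pd (ContDiff.sum fun j _ => (ha.1 l j).mul (sm_pd hf j)) l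

theorem co_HH {a : V n → Fin n → Fin n → ℝ} (ha : SmS a) {f : V n → ℝ} (hf : ContDiff ℝ ∞ f) :
    Continuous (fun p : V n × V n => HH a f p.1 p.2) := by
  unfold HH
  have h1 : ∀ i m, Continuous fun p : V n × V n => pd i (fun y => XX a f y m) p.1 := fun i m =>
    ((sm_pd (sm_XX ha hf m) i).continuous).comp continuous_fst
  have h2 : ∀ i j, Continuous fun p : V n × V n => a p.1 i j := fun i j =>
    ((ha.1 i j).continuous).comp continuous_fst
  have h3 : ∀ m, Continuous fun p : V n × V n => XX a f p.1 m := fun m =>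
    ((sm_XX ha hf m).continuous).comp continuous_fst
  have h4 : ∀ m i j, Continuous fun p : V n × V n => pd m (fun y => a y i j) p.1 := fun m i j =>
    ((sm_pd (ha.1 i j) m).continuous).comp continuous_fst
  have h5 : ∀ i, Continuous fun p : V n × V n => p.2 i := fun i => by fun_prop
  refine Continuous.sub (continuous_const.mul ?_) ?_
  · exact continuous_finsetSum _ fun i _ => continuous_finsetSum _ fun j _ =>
      continuous_finsetSum _ fun m _ => ((h1 i m).mul (h2 i j)).mul ((h5 m).mul (h5 j))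
  · exact continuous_finsetSum _ fun i _ => continuous_finsetSum _ fun j _ =>
      continuous_finsetSum _ fun m _ => ((h3 m).mul (h4 m i j)).mul ((h5 i).mul (h5 j))

theorem sm_Sop {a : V n → Fin n → Fin n → ℝ} (ha : SmS a) {f v : V n → ℝ} (hf : ContDiff ℝ ∞ f)
    (hv : ContDiff ℝ ∞ v) (τ : ℝ) : Continuous (Sop a f τ v) := by
  unfold Sop
  exact (sm_Pa ha hv).continuous.add ((continuous_const.mul (sm_qq ha hf).continuous).mul
    hv.continuous)

theorem sm_Aop {a : V n → Fin n → Fin n → ℝ} (ha : SmS a) {f v : V n → ℝ} (hf : ContDiff ℝ ∞ f)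
    (hv : ContDiff ℝ ∞ v) (τ : ℝ) : Continuous (Aop a f τ v) := by
  unfold Aop
  exact (continuous_const.mul (continuous_finsetSum _ fun m _ =>
    (sm_XX ha hf m).continuous.mul (sm_pd hv m).continuous)).sub
    ((continuous_const.mul (sm_Pa ha hf).continuous).mul hv.continuous)

theorem pd_zero {S : Set (V n)} (hS : IsClosed S) {f : V n → ℝ} (h : ∀ x ∉ S, f x = 0)
    (i : Fin n) : ∀ x ∉ S, pd i f x = 0 := by
  intro x hx
  have h1 : f =ᶠ[𝓝 x] fun _ => 0 := by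
    filter_upwards [hS.isOpen_compl.mem_nhds hx] with y hy using h y hy
  unfold pd
  rw [h1.fderiv_eq]
  simp

/-- a bound on a compact set -/
theorem bd {X : Type*} [TopologicalSpace X] {S : Set X} (hS : IsCompact S) {f g : X → ℝ}
    (hf : ContinuousOn f S) (hg : ContinuousOn g S) (hpos : ∀ x ∈ S, 0 < g x) :
    ∃ C : ℝ, 0 < C ∧ ∀ x ∈ S, |f x| ≤ C * g x := by
  obtain ⟨C, hC⟩ := hS.exists_bound_of_continuousOn
    (hf.div hg (fun x hx => (hpos x hx).ne'))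
  refine ⟨max C 1, by positivity, fun x hx => ?_⟩
  have h1 := hC x hx
  have h2 := hpos x hx
  rw [Real.norm_eq_abs, Pi.div_apply, abs_div, abs_of_pos h2, div_le_iff₀ h2] at h1
  exact h1.trans (mul_le_mul_of_nonneg_right (le_max_left _ _) h2.le)

/-- quadratic forms depending on a parameter in a compact set -/
theorem bdq {K : Set (V n)} (hK : IsCompact K) {f g : V n × V n → ℝ}
    (hf : Continuous f) (hg : Continuous g)
    (hf2 : ∀ x ξ (t : ℝ), f (x, t • ξ) = t ^ 2 * f (x, ξ))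
    (hg2 : ∀ x ξ (t : ℝ), g (x, t • ξ) = t ^ 2 * g (x, ξ))
    (hpos : ∀ x ∈ K, ∀ ξ, ξ ≠ 0 → 0 < g (x, ξ)) :
    ∃ C : ℝ, 0 < C ∧ ∀ x ∈ K, ∀ ξ, |f (x, ξ)| ≤ C * g (x, ξ) := by
  obtain ⟨C, hC, h⟩ := bd (hK.prod (isCompact_sphere (0 : V n) 1)) (f := f) (g := g)
    hf.continuousOn hg.continuousOn (by
      rintro ⟨x, ξ⟩ ⟨hx, hξ⟩
      exact hpos x hx ξ (by rintro rfl; simp at hξ))
  refine ⟨C, hC, fun x hx ξ => ?_⟩
  by_cases h0 : ξ = 0
  · subst h0
    have e1 := hf2 x 0 0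
    have e2 := hg2 x 0 0
    simp at e1 e2
    simp [e1, e2]
  · have hn : ‖ξ‖ ≠ 0 := norm_ne_zero_iff.2 h0
    have h1 := h (x, ‖ξ‖⁻¹ • ξ) ⟨hx, by simp [norm_smul, hn]⟩
    have e : ξ = ‖ξ‖ • (‖ξ‖⁻¹ • ξ) := by rw [smul_smul, mul_inv_cancel₀ hn, one_smul]
    rw [e, hf2, hg2, abs_mul, abs_of_nonneg (sq_nonneg _)]
    calc ‖ξ‖ ^ 2 * |f (x, ‖ξ‖⁻¹ • ξ)| ≤ ‖ξ‖ ^ 2 * (C * g (x, ‖ξ‖⁻¹ • ξ)) :=
          mul_le_mul_of_nonneg_left h1 (sq_nonneg _)
      _ = _ := by ring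

theorem pointwise (S A s φ τ v κ Xκ C2 C3 D P1 P2 H L Q N c0 φ0 E : ℝ)
    (hs : 0 < s) (hφ0 : 0 < φ0) (hφ : φ0 ≤ φ) (hτ : 1 ≤ τ) (hC2 : 0 ≤ C2)
    (hD : D = C2 + 1 / 2) (hH : -(C2 * Q) ≤ H) (hc0 : 0 < c0) (hQ : c0 * N ≤ Q) (hN : 0 ≤ N)
    (hX : -C3 ≤ Xκ) (hb : 1 ≤ 4 * s * κ ^ 2 - 2 * C3 - 2 * D * κ)
    (hE : D ^ 2 * s ^ 2 * φ ^ 2 + D * |P1| + |P2| ≤ E) :
    τ * s * φ0 * c0 * N + τ ^ 3 * s ^ 3 * φ0 ^ 3 * v ^ 2 - τ ^ 2 * E * v ^ 2 ≤
    S ^ 2 + A ^ 2 + (2 * τ * (s * φ * H + 2 * s ^ 2 * φ * L ^ 2) +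
      2 * τ ^ 3 * (2 * s ^ 4 * φ ^ 3 * κ ^ 2 + s ^ 3 * φ ^ 3 * Xκ) * v ^ 2 - τ * P2 * v ^ 2) -
      2 * D * τ * (-(S * (s * φ * v)) - s * φ * Q + 1 / 2 * P1 * v ^ 2 +
        τ ^ 2 * (s ^ 2 * φ ^ 2 * κ) * (s * φ) * v ^ 2) := by
  have hφp : 0 < φ := lt_of_lt_of_le hφ0 hφ
  have hτp : 0 < τ := by linarith
  have hDp : 0 ≤ D := by rw [hD]; linarith
  have t1 : 0 ≤ 2 * τ * s * φ * (H + C2 * Q) := by
    apply mul_nonneg (by positivity); linarith
  have t2 : 0 ≤ τ * s * (φ * Q - φ0 * (c0 * N)) := by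
    apply mul_nonneg (by positivity)
    have : φ0 * (c0 * N) ≤ φ * (c0 * N) := mul_le_mul_of_nonneg_right hφ (by positivity)
    have : φ * (c0 * N) ≤ φ * Q := mul_le_mul_of_nonneg_left hQ hφp.le
    linarith
  have t3 : 0 ≤ 4 * τ * s ^ 2 * φ * L ^ 2 := by positivity
  have t4 : 0 ≤ τ ^ 3 * s ^ 3 * v ^ 2 * (φ ^ 3 * (4 * s * κ ^ 2 + 2 * Xκ - 2 * D * κ) - φ0 ^ 3) := by
    apply mul_nonneg (by positivity)
    have h1 : φ0 ^ 3 ≤ φ ^ 3 := pow_le_pow_left₀ hφ0.le hφ 3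
    have h2 : φ ^ 3 * 1 ≤ φ ^ 3 * (4 * s * κ ^ 2 + 2 * Xκ - 2 * D * κ) :=
      mul_le_mul_of_nonneg_left (by linarith) (by positivity)
    linarith
  have t5 : 0 ≤ τ * v ^ 2 * (τ * (E - D ^ 2 * s ^ 2 * φ ^ 2) - (P2 + D * P1)) := by
    apply mul_nonneg (by positivity)
    have h1 : D * P1 ≤ D * |P1| := mul_le_mul_of_nonneg_left (le_abs_self _) hDp
    have h2 : P2 ≤ |P2| := le_abs_self _
    have h3 : 0 ≤ D * |P1| + |P2| := by positivity
    have h4 : 1 * (D * |P1| + |P2|) ≤ τ * (E - D ^ 2 * s ^ 2 * φ ^ 2) := by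
      apply mul_le_mul hτ (by linarith) h3 hτp.le
    linarith
  have t6 := sq_nonneg A
  have t7 := sq_nonneg (S + D * τ * s * φ * v)
  subst hD
  nlinarith [t1, t2, t3, t4, t5, t6, t7]

theorem int_step {F G : V n → ℝ} (c : ℝ) (hF : Integrable F) (hG : Integrable G) :
    Integrable (fun x => F x + c * G x) ∧ ∫ x, (F x + c * G x) = (∫ x, F x) + c * ∫ x, G x := by
  refine ⟨hF.add (hG.const_mul c), ?_⟩
  rw [integral_add hF (hG.const_mul c), integral_const_mul]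

/-- the quadratic form -/
def QQ (a : V n → Fin n → Fin n → ℝ) (p : V n × V n) : ℝ :=
  ∑ i, ∑ j, a p.1 i j * (p.2 i * p.2 j)

theorem co_QQ {a : V n → Fin n → Fin n → ℝ} (ha : SmS a) : Continuous (QQ a) := by
  unfold QQ
  have h2 : ∀ i j, Continuous fun p : V n × V n => a p.1 i j := fun i j =>
    ((ha.1 i j).continuous).comp continuous_fst
  have h5 : ∀ i, Continuous fun p : V n × V n => p.2 i := fun i => by fun_prop
  exact continuous_finsetSum _ fun i _ => continuous_finsetSum _ fun j _ =>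
      (h2 i j).mul ((h5 i).mul (h5 j))

theorem QQ_smul (a : V n → Fin n → Fin n → ℝ) (x ξ : V n) (t : ℝ) :
    QQ a (x, t • ξ) = t ^ 2 * QQ a (x, ξ) := by
  simp only [QQ, Finset.mul_sum, Pi.smul_apply, smul_eq_mul]
  refine Finset.sum_congr rfl fun i _ => Finset.sum_congr rfl fun j _ => by ring

theorem HH_smul (a : V n → Fin n → Fin n → ℝ) (f : V n → ℝ) (x ξ : V n) (t : ℝ) :
    HH a f x (t • ξ) = t ^ 2 * HH a f x ξ := by
  simp only [HH, Finset.mul_sum, Pi.smul_apply, smul_eq_mul, mul_sub]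
  congr 1
  · refine Finset.sum_congr rfl fun i _ => Finset.sum_congr rfl fun j _ =>
      Finset.sum_congr rfl fun m _ => by ring
  · refine Finset.sum_congr rfl fun i _ => Finset.sum_congr rfl fun j _ =>
      Finset.sum_congr rfl fun m _ => by ring

theorem HH_zero (a : V n → Fin n → Fin n → ℝ) (f : V n → ℝ) (x : V n) :
    HH a f x (fun _ => 0) = 0 := by
  simp [HH]

/-- constants -/
theorem consts {a : V n → Fin n → Fin n → ℝ} {ψ : V n → ℝ} {K : Set (V n)} (ha : SmS a)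
    (hψ : ContDiff ℝ ∞ ψ) (hK : IsCompact K) (hell : ∀ x ∈ K, Ell (a x))
    (hgrad : ∀ x ∈ K, ∃ i, pd i ψ x ≠ 0) :
    ∃ c0 C2 C3 D s : ℝ, 0 < c0 ∧ 0 ≤ C2 ∧ D = C2 + 1 / 2 ∧ 0 < s ∧
      (∀ x ∈ K, ∀ ξ : V n, c0 * ∑ i, ξ i ^ 2 ≤ QQ a (x, ξ)) ∧
      (∀ x ∈ K, ∀ ξ : V n, -(C2 * QQ a (x, ξ)) ≤ HH a ψ x ξ) ∧
      (∀ x ∈ K, -C3 ≤ ∑ m, XX a ψ x m * pd m (qq a ψ) x) ∧
      (∀ x ∈ K, 1 ≤ 4 * s * qq a ψ x ^ 2 - 2 * C3 - 2 * D * qq a ψ x) := by
  have hpos : ∀ x ∈ K, ∀ ξ : V n, ξ ≠ 0 → 0 < QQ a (x, ξ) := fun x hx ξ hξ => (hell x hx).2 ξ hξ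
  have hκ : ∀ x ∈ K, 0 < qq a ψ x := by
    intro x hx
    have h := hpos x hx (fun i => pd i ψ x) (by
      obtain ⟨i, hi⟩ := hgrad x hx
      intro h0
      exact hi (congrFun h0 i))
    have e : QQ a (x, fun i => pd i ψ x) = qq a ψ x := by
      simp only [QQ, qq, XX, Finset.mul_sum]
      refine Finset.sum_congr rfl fun i _ => Finset.sum_congr rfl fun j _ => by ring
    rwa [e] at h
  obtain ⟨C1, hC1, b1⟩ := bdq hK (f := fun p : V n × V n => ∑ i, p.2 i ^ 2) (g := QQ a)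
    (by fun_prop) (co_QQ ha) (by
      intro x ξ t
      simp only [Finset.mul_sum, Pi.smul_apply, smul_eq_mul]
      exact Finset.sum_congr rfl fun i _ => by ring) (QQ_smul a) hpos
  obtain ⟨C2, hC2, b2⟩ := bdq hK (f := fun p : V n × V n => HH a ψ p.1 p.2) (g := QQ a)
    (co_HH ha hψ) (co_QQ ha) (fun x ξ t => HH_smul a ψ x ξ t) (QQ_smul a) hpos
  obtain ⟨C3, b3⟩ := hK.exists_bound_of_continuousOn
    (f := fun x => ∑ m, XX a ψ x m * pd m (qq a ψ) x)
    (Continuous.continuousOn (continuous_finsetSum _ fun m _ =>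
      (sm_XX ha hψ m).continuous.mul (sm_pd (sm_qq ha hψ) m).continuous))
  obtain ⟨C4, b4⟩ := hK.exists_bound_of_continuousOn (f := qq a ψ)
    (sm_qq ha hψ).continuous.continuousOn
  obtain ⟨C5, hC5, b5⟩ := bd hK (f := fun _ => 1) (g := qq a ψ) continuousOn_const
    (sm_qq ha hψ).continuous.continuousOn hκ
  refine ⟨C1⁻¹, C2, |C3|, C2 + 1 / 2, C5 ^ 2 * (1 + 2 * |C3| + 2 * (C2 + 1 / 2) * |C4|),
    by positivity, hC2.le, rfl, by positivity, ?_, ?_, ?_, ?_⟩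
  · intro x hx ξ
    have h := b1 x hx ξ
    rw [inv_mul_le_iff₀ hC1]
    exact (le_abs_self _).trans h
  · intro x hx ξ
    have h := b2 x hx ξ
    exact (abs_le.1 h).1
  · intro x hx
    have h := b3 x hx
    rw [Real.norm_eq_abs] at h
    exact (abs_le.1 (h.trans (le_abs_self _))).1
  · intro x hx
    have h4 := b4 x hx
    have h5 := b5 x hx
    have hk := hκ x hx
    rw [Real.norm_eq_abs, abs_of_pos hk] at h4
    rw [abs_one] at h5
    have h4' := h4.trans (le_abs_self C4)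
    have h6 : 1 ≤ (C5 * qq a ψ x) ^ 2 := one_le_pow₀ h5
    have h7 : 0 ≤ 1 + 2 * |C3| + 2 * (C2 + 1 / 2) * |C4| := by positivity
    have h8 : (1 + 2 * |C3| + 2 * (C2 + 1 / 2) * |C4|) * 1 ≤
        (1 + 2 * |C3| + 2 * (C2 + 1 / 2) * |C4|) * (C5 * qq a ψ x) ^ 2 :=
      mul_le_mul_of_nonneg_left h6 h7
    have h9 : 2 * (C2 + 1 / 2) * qq a ψ x ≤ 2 * (C2 + 1 / 2) * |C4| :=
      mul_le_mul_of_nonneg_left h4' (by positivity)
    have h10 : 4 * (C5 ^ 2 * (1 + 2 * |C3| + 2 * (C2 + 1 / 2) * |C4|)) * qq a ψ x ^ 2 =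
      4 * ((1 + 2 * |C3| + 2 * (C2 + 1 / 2) * |C4|) * (C5 * qq a ψ x) ^ 2) := by ring
    rw [h10]
    have h11 : 0 ≤ 2 * (C2 + 1 / 2) * |C4| := by positivity
    have h12 := abs_nonneg C3
    linarith

theorem co_HHv {a : V n → Fin n → Fin n → ℝ} (ha : SmS a) {f v : V n → ℝ}
    (hf : ContDiff ℝ ∞ f) (hv : ContDiff ℝ ∞ v) :
    Continuous (fun x => HH a f x (fun i => pd i v x)) := by
  unfold HH
  have h1 : ∀ i m, Continuous fun x => pd i (fun y => XX a f y m) x := fun i m =>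
    (sm_pd (sm_XX ha hf m) i).continuous
  have h2 : ∀ i j, Continuous fun x => a x i j := fun i j => (ha.1 i j).continuous
  have h3 : ∀ m, Continuous fun x => XX a f x m := fun m => (sm_XX ha hf m).continuous
  have h4 : ∀ m i j, Continuous fun x => pd m (fun y => a y i j) x := fun m i j =>
    (sm_pd (ha.1 i j) m).continuous
  have h5 : ∀ i, Continuous fun x => pd i v x := fun i => (sm_pd hv i).continuous
  refine Continuous.sub (continuous_const.mul ?_) ?_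
  · exact continuous_finsetSum _ fun i _ => continuous_finsetSum _ fun j _ =>
      continuous_finsetSum _ fun m _ => ((h1 i m).mul (h2 i j)).mul ((h5 m).mul (h5 j))
  · exact continuous_finsetSum _ fun i _ => continuous_finsetSum _ fun j _ =>
      continuous_finsetSum _ fun m _ => ((h3 m).mul (h4 m i j)).mul ((h5 i).mul (h5 j))

theorem co_QQv {a : V n → Fin n → Fin n → ℝ} (ha : SmS a) {v : V n → ℝ}
    (hv : ContDiff ℝ ∞ v) :
    Continuous (fun x => ∑ i, ∑ j, a x i j * (pd i v x * pd j v x)) := by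
  have h2 : ∀ i j, Continuous fun x => a x i j := fun i j => (ha.1 i j).continuous
  have h5 : ∀ i, Continuous fun x => pd i v x := fun i => (sm_pd hv i).continuous
  exact continuous_finsetSum _ fun i _ => continuous_finsetSum _ fun j _ =>
      (h2 i j).mul ((h5 i).mul (h5 j))

theorem t_CV (h1 : S_I1) (h2 : S_I2) (h3 : S_WT) : S_CV := by
  intro n a ψ K ha hψ hK hell hgrad
  obtain ⟨c0, C2, C3, D, s, hc0, hC2, hD, hs, b1, b2, b3, b4⟩ := consts ha hψ hK hell hgrad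
  obtain ⟨φ, hφe⟩ : ∃ φ : V n → ℝ, φ = fun y => Real.exp (s * ψ y) := ⟨_, rfl⟩
  have hφ : ContDiff ℝ ∞ φ := by rw [hφe]; fun_prop
  have hg : ContDiff ℝ ∞ (fun x => s * φ x) := by fun_prop
  have hφpos : ∀ x, 0 < φ x := fun x => by rw [hφe]; exact Real.exp_pos _
  obtain ⟨C5, hC5, b5⟩ := bd hK (f := fun _ => 1) (g := φ) continuousOn_const
    hφ.continuous.continuousOn (fun x _ => hφpos x)
  obtain ⟨E, bE⟩ := hK.exists_bound_of_continuousOn
    (f := fun x => D ^ 2 * s ^ 2 * φ x ^ 2 + D * |Pa a (fun x => s * φ x) x| +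
      |Pa a (Pa a φ) x|)
    (Continuous.continuousOn (by
      have k1 := (sm_Pa ha hg).continuous
      have k2 := (sm_Pa ha (sm_Pa ha hφ)).continuous
      have k3 := hφ.continuous
      exact ((continuous_const.mul (k3.pow 2)).add (continuous_const.mul k1.abs)).add k2.abs))
  have hφ0 : 0 < C5⁻¹ := by positivity
  refine ⟨s, min (s * C5⁻¹ * c0) (s ^ 3 * C5⁻¹ ^ 3 / 2), max 1 (2 * |E| / (s ^ 3 * C5⁻¹ ^ 3)),
    hs, by positivity, le_max_left _ _, ?_⟩
  rw [← hφe]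
  intro τ hτ v hv hvK
  have hτ1 : 1 ≤ τ := (le_max_left _ _).trans hτ
  have hτ2 : 2 * |E| / (s ^ 3 * C5⁻¹ ^ 3) ≤ τ := (le_max_right _ _).trans hτ
  have hτp : 0 < τ := by linarith
  have hcv : HasCompactSupport v := hK.of_isClosed_subset (isClosed_tsupport v) hvK
  have hv0 : ∀ x ∉ K, v x = 0 := fun x hx => image_eq_zero_of_notMem_tsupport fun h => hx (hvK h)
  have hvd : ∀ i, ∀ x ∉ K, pd i v x = 0 := fun i => pd_zero hK.isClosed hv0 i
  have hvP : ∀ x ∉ K, Pa a v x = 0 := by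
    intro x hx
    unfold Pa
    refine Finset.sum_eq_zero fun i _ => pd_zero hK.isClosed ?_ i x hx
    intro y hy
    exact Finset.sum_eq_zero fun j _ => by rw [hvd j y hy, mul_zero]
  have hvS : ∀ x ∉ K, Sop a φ τ v x = 0 := by
    intro x hx
    unfold Sop
    rw [hvP x hx, hv0 x hx]; ring
  have hvA : ∀ x ∉ K, Aop a φ τ v x = 0 := by
    intro x hx
    unfold Aop
    rw [hv0 x hx, Finset.sum_eq_zero fun m _ => by rw [hvd m x hx, mul_zero]]; ring
  have hint : ∀ f : V n → ℝ, Continuous f → (∀ x ∉ K, f x = 0) → Integrable f :=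
    fun f hf h0 => hf.integrable_of_hasCompactSupport (HasCompactSupport.intro hK h0)
  have cS := sm_Sop ha hφ hv τ
  have cA := sm_Aop ha hφ hv τ
  have cφ := hφ.continuous
  have cv := hv.continuous
  have cd : ∀ i, Continuous (pd i v) := fun i => (sm_pd hv i).continuous
  have cH : Continuous (fun x => HH a φ x (fun i => pd i v x)) := co_HHv ha hφ hv
  have cQ : Continuous (fun x => ∑ i, ∑ j, a x i j * (pd i v x * pd j v x)) := co_QQv ha hv
  have cX : Continuous (fun x => ∑ m, XX a φ x m * pd m (qq a φ) x) :=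
    continuous_finsetSum _ fun m _ =>
      (sm_XX ha hφ m).continuous.mul (sm_pd (sm_qq ha hφ) m).continuous
  have cP1 := (sm_Pa ha hg).continuous
  have cP2 := (sm_Pa ha (sm_Pa ha hφ)).continuous
  have cq := (sm_qq ha hφ).continuous
  have i0 : Integrable (fun x => (Sop a φ τ v x + Aop a φ τ v x) ^ 2) :=
    hint _ ((cS.add cA).pow 2) (fun x hx => by simp only [hvS x hx, hvA x hx]; ring)
  have i1 : Integrable (fun x => Sop a φ τ v x * Aop a φ τ v x) :=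
    hint _ (cS.mul cA) (fun x hx => by simp only [hvS x hx, hvA x hx]; ring)
  have i2 : Integrable (fun x => HH a φ x (fun i => pd i v x)) :=
    hint _ cH (fun x hx => by
      have : (fun i => pd i v x) = fun _ => (0 : ℝ) := funext fun i => hvd i x hx
      rw [this, HH_zero])
  have i3 : Integrable (fun x => (∑ m, XX a φ x m * pd m (qq a φ) x) * v x ^ 2) :=
    hint _ (cX.mul (cv.pow 2)) (fun x hx => by simp only [hv0 x hx]; ring)
  have i4 : Integrable (fun x => Pa a (Pa a φ) x * v x ^ 2) :=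
    hint _ (cP2.mul (cv.pow 2)) (fun x hx => by simp only [hv0 x hx]; ring)
  have i5 : Integrable (fun x => Sop a φ τ v x * (s * φ x * v x)) :=
    hint _ (cS.mul ((continuous_const.mul cφ).mul cv)) (fun x hx => by simp only [hv0 x hx]; ring)
  have i6 : Integrable (fun x => s * φ x * ∑ i, ∑ j, a x i j * (pd i v x * pd j v x)) :=
    hint _ ((continuous_const.mul cφ).mul cQ) (fun x hx => by simp only [hvd _ x hx]; simp)
  have i7 : Integrable (fun x => Pa a (fun x => s * φ x) x * v x ^ 2) :=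
    hint _ (cP1.mul (cv.pow 2)) (fun x hx => by simp only [hv0 x hx]; ring)
  have i8 : Integrable (fun x => qq a φ x * (s * φ x) * v x ^ 2) :=
    hint _ ((cq.mul (continuous_const.mul cφ)).mul (cv.pow 2))
      (fun x hx => by simp only [hv0 x hx]; ring)
  have iN : Integrable (fun x => τ ^ 3 * v x ^ 2 + τ * ∑ i, pd i v x ^ 2) :=
    hint _ ((continuous_const.mul (cv.pow 2)).add (continuous_const.mul
      (continuous_finsetSum _ fun i _ => (cd i).pow 2)))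
      (fun x hx => by simp only [hv0 x hx, hvd _ x hx]; simp)
  have e1 := h1 n a φ v τ ha hφ hv hcv
  have e2 := h2 n a φ (fun x => s * φ x) v τ ha hφ hg hv hcv
  obtain ⟨j1, q1⟩ := int_step (-2) i0 i1
  obtain ⟨j2, q2⟩ := int_step (2 * τ) j1 i2
  obtain ⟨j3, q3⟩ := int_step (2 * τ ^ 3) j2 i3
  obtain ⟨j4, q4⟩ := int_step (-τ) j3 i4
  obtain ⟨j5, q5⟩ := int_step (2 * D * τ) j4 i5
  obtain ⟨j6, q6⟩ := int_step (2 * D * τ) j5 i6
  obtain ⟨j7, q7⟩ := int_step (-(D * τ)) j6 i7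
  obtain ⟨j8, q8⟩ := int_step (-(2 * D * τ ^ 3)) j7 i8
  have key := integral_mono (μ := volume) (iN.const_mul (min (s * C5⁻¹ * c0) (s ^ 3 * C5⁻¹ ^ 3 / 2)))
    j8 ?_
  · rw [integral_const_mul] at key
    refine key.trans (le_of_eq ?_)
    rw [q8, q7, q6, q5, q4, q3, q2, q1]
    linear_combination (-1 : ℝ) * e1 + 2 * D * τ * e2
  · intro x
    by_cases hx : x ∈ K
    · obtain ⟨w1, w2, w3⟩ := h3 n a ψ s ha hψ φ hφe x
      have hφx : C5⁻¹ ≤ φ x := by
        have h := b5 x hx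
        rw [abs_one] at h
        rw [inv_le_iff_one_le_mul₀ hC5]
        linarith
      have hEx : D ^ 2 * s ^ 2 * φ x ^ 2 + D * |Pa a (fun x => s * φ x) x| +
          |Pa a (Pa a φ) x| ≤ |E| := by
        have h := bE x hx
        rw [Real.norm_eq_abs] at h
        exact (le_abs_self _).trans (h.trans (le_abs_self _))
      have hQe : QQ a (x, fun i => pd i v x) =
          ∑ i, ∑ j, a x i j * (pd i v x * pd j v x) := rfl
      have P := pointwise (Sop a φ τ v x) (Aop a φ τ v x) s (φ x) τ (v x) (qq a ψ x)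
        (∑ m, XX a ψ x m * pd m (qq a ψ) x) C2 C3 D (Pa a (fun x => s * φ x) x)
        (Pa a (Pa a φ) x) (HH a ψ x (fun i => pd i v x)) (∑ m, XX a ψ x m * pd m v x)
        (QQ a (x, fun i => pd i v x)) (∑ i, pd i v x ^ 2) c0 C5⁻¹ |E| hs hφ0 hφx hτ1 hC2 hD
        (b2 x hx _) hc0 (b1 x hx _) (Finset.sum_nonneg fun i _ => sq_nonneg _) (b3 x hx)
        (b4 x hx) hEx
      rw [hQe] at P
      have w1' := w1 (fun i => pd i v x)
      beta_reduce
      rw [w1', w2, w3]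
      refine le_trans ?_ (P.trans (le_of_eq (by ring)))
      have m1 := min_le_left (s * C5⁻¹ * c0) (s ^ 3 * C5⁻¹ ^ 3 / 2)
      have m2 := min_le_right (s * C5⁻¹ * c0) (s ^ 3 * C5⁻¹ ^ 3 / 2)
      have hN : 0 ≤ τ * ∑ i, pd i v x ^ 2 :=
        mul_nonneg hτp.le (Finset.sum_nonneg fun i _ => sq_nonneg _)
      have hV : 0 ≤ τ ^ 3 * v x ^ 2 := by positivity
      have u1 := mul_le_mul_of_nonneg_right m1 hN
      have u2 := mul_le_mul_of_nonneg_right m2 hV
      have u3 : 2 * |E| ≤ τ * (s ^ 3 * C5⁻¹ ^ 3) := by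
        rwa [div_le_iff₀ (by positivity)] at hτ2
      have u4 := mul_le_mul_of_nonneg_right u3 (show 0 ≤ τ ^ 2 * v x ^ 2 by positivity)
      rw [mul_add]
      linarith
    · simp only [hvS x hx, hvA x hx, hv0 x hx, hvd _ x hx, HH_zero]
      simp

end Pool.Agent.R235.FS.PCV
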