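import Pool.Agent.R235.FS.Stm

/-!
# FS-CW (helper451): the Carleman inequality
-/

set_option autoImplicit false

open MeasureTheory Set Filter Topology
open scoped ContDiff Manifold

namespace Pool.Agent.R235.FS.PCW

open Pool.Agent.R235.FS

variable {n : ℕ}

lemma pd_cont {f : V n → ℝ} (hf : ContDiff ℝ ∞ f) (i : Fin n) : Continuous (pd i f) := by
  unfold pd
  exact (hf.continuous_fderiv (by norm_num)).clm_apply continuous_const

lemma pd_supp {f : V n → ℝ} (hf : HasCompactSupport f) (i : Fin n) :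
    HasCompactSupport (pd i f) := hf.fderiv_apply ℝ (Pi.single i 1)

lemma pd_mul_exp {φ w : V n → ℝ} (hφ : ContDiff ℝ ∞ φ) (hw : ContDiff ℝ ∞ w) (τ : ℝ) (i : Fin n)
    (x : V n) : pd i (fun y => Real.exp (τ * φ y) * w y) x =
      Real.exp (τ * φ x) * (pd i w x + τ * pd i φ x * w x) := by
  unfold pd
  have h1 : HasFDerivAt φ (fderiv ℝ φ x) x := (hφ.differentiable (by norm_num) x).hasFDerivAt
  have h2 : HasFDerivAt w (fderiv ℝ w x) x := (hw.differentiable (by norm_num) x).hasFDerivAt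
  have h3 := ((h1.const_mul τ).exp).mul h2
  have h4 : fderiv ℝ (fun y => Real.exp (τ * φ y) * w y) x = _ := h3.fderiv
  rw [h4]
  simp only [add_apply, smul_apply, smul_eq_mul]
  ring

lemma zero_near {w : V n → ℝ} {x : V n} (hx : x ∉ tsupport w) (i : Fin n) :
    w x = 0 ∧ pd i w x = 0 := by
  refine ⟨image_eq_zero_of_notMem_tsupport hx, ?_⟩
  unfold pd
  have h := notMem_tsupport_iff_eventuallyEq.1 hx
  rw [h.fderiv_eq]
  simp

theorem t_CW (h1 : S_CV) (h2 : S_CJ) : S_CW := by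
  intro n a ψ K ha hψ hK hell hpd
  obtain ⟨s, c, τ0, hs, hc, hτ0, hCV⟩ := h1 n a ψ K ha hψ hK hell hpd
  set φ : V n → ℝ := fun y => Real.exp (s * ψ y) with hφdef
  have hφ : ContDiff ℝ ∞ φ := (contDiff_const.mul hψ).exp
  -- the bound of the gradient
  obtain ⟨C, hC0, hC⟩ : ∃ C : ℝ, 0 ≤ C ∧ ∀ x ∈ K, ∑ i, pd i φ x ^ 2 ≤ C := by
    have hcont : Continuous fun x => ∑ i, pd i φ x ^ 2 :=
      continuous_finset_sum _ fun i _ => (pd_cont hφ i).pow 2
    obtain ⟨C, hC⟩ := (hK.image hcont).bddAbove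
    refine ⟨max C 0, le_max_right _ _, fun x hx => (hC ⟨x, hx, rfl⟩).trans (le_max_left _ _)⟩
  refine ⟨s, c / (2 * (1 + C)), τ0, hs, by positivity, hτ0, fun τ hτ w hw hsw => ?_⟩
  have hτ1 : 1 ≤ τ := hτ0.trans hτ
  have hτ0' : 0 < τ := by linarith
  set v : V n → ℝ := fun x => Real.exp (τ * φ x) * w x with hvdef
  have hv : ContDiff ℝ ∞ v := ((contDiff_const.mul hφ).exp).mul hw
  have hsv : tsupport v ⊆ K := (tsupport_mul_subset_right).trans hsw
  have hcw : HasCompactSupport w := hK.of_isClosed_subset (isClosed_tsupport _) hsw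
  have hcv : HasCompactSupport v := hK.of_isClosed_subset (isClosed_tsupport _) hsv
  have hmain := hCV τ hτ v hv hsv
  -- the right hand side
  have hw2 : (fun y => Real.exp (-(τ * φ y)) * v y) = w := by
    funext y
    simp only [hvdef]
    rw [← mul_assoc, ← Real.exp_add]
    simp
  have hR : ∀ x, (Sop a φ τ v x + Aop a φ τ v x) ^ 2 =
      Real.exp (2 * τ * Real.exp (s * ψ x)) * Pa a w x ^ 2 := by
    intro x
    rw [← h2 n a φ v τ ha hφ hv x, hw2, mul_pow, ← Real.exp_nat_mul]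
    congr 2
    push_cast
    simp only [hφdef]
    ring
  simp only [hR] at hmain
  refine le_trans ?_ hmain
  -- the pointwise inequality
  have hpt : ∀ x, Real.exp (2 * τ * Real.exp (s * ψ x)) *
      (τ ^ 3 * w x ^ 2 + τ * ∑ i, pd i w x ^ 2) ≤
      2 * (1 + C) * (τ ^ 3 * v x ^ 2 + τ * ∑ i, pd i v x ^ 2) := by
    intro x
    by_cases hx : x ∈ K
    · have hE : Real.exp (2 * τ * Real.exp (s * ψ x)) = Real.exp (τ * φ x) ^ 2 := by
        rw [← Real.exp_nat_mul]
        congr 1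
        push_cast
        simp only [hφdef]
        ring
      rw [hE]
      have e1 : Real.exp (τ * φ x) ^ 2 * w x ^ 2 = v x ^ 2 := by
        simp only [hvdef]
        ring
      have e2 : ∀ i, Real.exp (τ * φ x) ^ 2 * pd i w x ^ 2 ≤
          2 * pd i v x ^ 2 + 2 * τ ^ 2 * (pd i φ x ^ 2 * v x ^ 2) := by
        intro i
        have h3 : pd i v x = Real.exp (τ * φ x) * pd i w x + τ * pd i φ x * v x := by
          rw [hvdef, pd_mul_exp hφ hw]
          ring
        have h4 : Real.exp (τ * φ x) * pd i w x = pd i v x - τ * pd i φ x * v x := by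
          rw [h3]
          ring
        rw [← mul_pow, h4]
        nlinarith [sq_nonneg (pd i v x + τ * pd i φ x * v x)]
      have e3 : Real.exp (τ * φ x) ^ 2 * ∑ i, pd i w x ^ 2 ≤
          2 * ∑ i, pd i v x ^ 2 + 2 * τ ^ 2 * ((∑ i, pd i φ x ^ 2) * v x ^ 2) := by
        rw [Finset.mul_sum, Finset.mul_sum, Finset.sum_mul, Finset.mul_sum,
          ← Finset.sum_add_distrib]
        exact Finset.sum_le_sum fun i _ => e2 i
      have e4 := hC x hx
      have e5 : 0 ≤ ∑ i, pd i v x ^ 2 := Finset.sum_nonneg fun i _ => sq_nonneg _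
      have e6 : (∑ i, pd i φ x ^ 2) * v x ^ 2 ≤ C * v x ^ 2 :=
        mul_le_mul_of_nonneg_right e4 (sq_nonneg _)
      calc Real.exp (τ * φ x) ^ 2 * (τ ^ 3 * w x ^ 2 + τ * ∑ i, pd i w x ^ 2)
          = τ ^ 3 * (Real.exp (τ * φ x) ^ 2 * w x ^ 2) +
            τ * (Real.exp (τ * φ x) ^ 2 * ∑ i, pd i w x ^ 2) := by ring
        _ ≤ τ ^ 3 * v x ^ 2 + τ * (2 * ∑ i, pd i v x ^ 2 + 2 * τ ^ 2 * (C * v x ^ 2)) := by
            rw [e1]
            have h5 : 2 * τ ^ 2 * ((∑ i, pd i φ x ^ 2) * v x ^ 2) ≤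
                2 * τ ^ 2 * (C * v x ^ 2) := mul_le_mul_of_nonneg_left e6 (by positivity)
            have h6 := mul_le_mul_of_nonneg_left (e3.trans (add_le_add_right h5 _)) hτ0'.le
            linarith
        _ ≤ 2 * (1 + C) * (τ ^ 3 * v x ^ 2 + τ * ∑ i, pd i v x ^ 2) := by
            have h7 : 0 ≤ τ ^ 3 * v x ^ 2 := by positivity
            have h8 : 0 ≤ C * (τ * ∑ i, pd i v x ^ 2) := by positivity
            nlinarith
    · have hxw : x ∉ tsupport w := fun h => hx (hsw h)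
      have e0 : w x = 0 := image_eq_zero_of_notMem_tsupport hxw
      have e1 : ∀ i, pd i w x = 0 := fun i => (zero_near hxw i).2
      simp only [e0, e1]
      have h9 : 0 ≤ 2 * (1 + C) * (τ ^ 3 * v x ^ 2 + τ * ∑ i, pd i v x ^ 2) := by
        have : 0 ≤ ∑ i, pd i v x ^ 2 := Finset.sum_nonneg fun i _ => sq_nonneg _
        positivity
      simpa using h9
  have hsumsupp : ∀ {f : V n → ℝ}, HasCompactSupport f → ContDiff ℝ ∞ f →
      Continuous (fun x => τ ^ 3 * f x ^ 2 + τ * ∑ i, pd i f x ^ 2) ∧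
      HasCompactSupport (fun x => τ ^ 3 * f x ^ 2 + τ * ∑ i, pd i f x ^ 2) := by
    intro f hcf hf
    constructor
    · exact (continuous_const.mul (hf.continuous.pow 2)).add
        (continuous_const.mul (continuous_finset_sum _ fun i _ => (pd_cont hf i).pow 2))
    · refine HasCompactSupport.intro' (K := tsupport f) hcf (isClosed_tsupport _) fun x hx => ?_
      have e0 : f x = 0 := image_eq_zero_of_notMem_tsupport hx
      have e1 : ∀ i, pd i f x = 0 := fun i => (zero_near hx i).2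
      simp [e0, e1]
  have hi1 : Integrable fun x => Real.exp (2 * τ * Real.exp (s * ψ x)) *
      (τ ^ 3 * w x ^ 2 + τ * ∑ i, pd i w x ^ 2) := by
    obtain ⟨h3, h4⟩ := hsumsupp hcw hw
    refine Continuous.integrable_of_hasCompactSupport ?_ h4.mul_left
    have := hψ.continuous
    fun_prop
  have hi2 : Integrable fun x => 2 * (1 + C) * (τ ^ 3 * v x ^ 2 + τ * ∑ i, pd i v x ^ 2) := by
    obtain ⟨h3, h4⟩ := hsumsupp hcv hv
    exact (h3.integrable_of_hasCompactSupport h4).const_mul _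
  have h10 := integral_mono hi1 hi2 hpt
  rw [integral_const_mul] at h10
  rw [div_mul_eq_mul_div, div_le_iff₀ (by positivity)]
  have h11 := mul_le_mul_of_nonneg_left h10 hc.le
  calc c * ∫ x, Real.exp (2 * τ * Real.exp (s * ψ x)) *
        (τ ^ 3 * w x ^ 2 + τ * ∑ i, pd i w x ^ 2)
      ≤ c * (2 * (1 + C) * ∫ x, (τ ^ 3 * v x ^ 2 + τ * ∑ i, pd i v x ^ 2)) := h11
    _ = _ := by ring

end Pool.Agent.R235.FS.PCW
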