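import Pool.Agent.R235.FS.Stm

/-!
# FS-I1: the commutator identity

Pointwise, `2 S A - RHS` is the divergence of a smooth compactly supported vector field.
-/

set_option autoImplicit false

open MeasureTheory Set Filter Topology
open scoped ContDiff Manifold

namespace Pool.Agent.R235.FS.PI1

open Pool.Agent.R235.FS

variable {n : ℕ}

/-! ## Rules for `pd` -/

theorem pd_smooth (i : Fin n) {f : V n → ℝ} (hf : ContDiff ℝ ∞ f) : ContDiff ℝ ∞ (pd i f) := by
  have h1 : ContDiff ℝ ∞ (fderiv ℝ f) := hf.fderiv_right (m := ∞) (by norm_cast)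
  exact h1.clm_apply contDiff_const

theorem df {f : V n → ℝ} (hf : ContDiff ℝ ∞ f) (x : V n) : DifferentiableAt ℝ f x :=
  (hf.differentiable (by simp)) x

theorem pd_mul (i : Fin n) {f g : V n → ℝ} (hf : ContDiff ℝ ∞ f) (hg : ContDiff ℝ ∞ g) (x : V n) :
    pd i (fun y => f y * g y) x = pd i f x * g x + f x * pd i g x := by
  have := ((df hf x).hasFDerivAt.mul (df hg x).hasFDerivAt).fderiv
  unfold pd
  have h2 : (fun y => f y * g y) = f * g := rfl
  rw [h2, this]
  simp only [_root_.add_apply, _root_.smul_apply, smul_eq_mul]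
  ring

theorem pd_sum (i : Fin n) {ι : Type} (s : Finset ι) {f : ι → V n → ℝ}
    (hf : ∀ k ∈ s, ContDiff ℝ ∞ (f k)) (x : V n) :
    pd i (fun y => ∑ k ∈ s, f k y) x = ∑ k ∈ s, pd i (f k) x := by
  unfold pd
  rw [fderiv_fun_sum (fun k hk => df (hf k hk) x)]
  simp

theorem pd_comm (i j : Fin n) {f : V n → ℝ} (hf : ContDiff ℝ ∞ f) (x : V n) :
    pd i (pd j f) x = pd j (pd i f) x := by
  have h1 : ContDiff ℝ ∞ (fderiv ℝ f) := hf.fderiv_right (m := ∞) (by norm_cast)
  have key : ∀ k l : Fin n, pd k (pd l f) x =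
      fderiv ℝ (fderiv ℝ f) x (Pi.single k 1) (Pi.single l 1) := by
    intro k l
    unfold pd
    have h2 : DifferentiableAt ℝ (fderiv ℝ f) x := (h1.differentiable (by simp)) x
    have h3 := (h2.hasFDerivAt.clm_apply (hasFDerivAt_const (Pi.single l (1 : ℝ) : V n) x)).fderiv
    rw [h3]
    simp
  rw [key, key]
  have hs : IsSymmSndFDerivAt ℝ f x :=
    (hf.contDiffAt (x := x)).isSymmSndFDerivAt (by
      simp only [minSmoothness_of_isRCLikeNormedField]
      exact (WithTop.coe_le_coe.2 (le_top : (2 : ℕ∞) ≤ ⊤)))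
  exact hs.eq _ _

/-- divergence -/
noncomputable def dv (G : Fin n → V n → ℝ) (x : V n) : ℝ := ∑ i, pd i (G i) x

theorem dv_mul {f : V n → ℝ} {G : Fin n → V n → ℝ} (hf : ContDiff ℝ ∞ f)
    (hG : ∀ i, ContDiff ℝ ∞ (G i)) (x : V n) :
    dv (fun i y => f y * G i y) x = (∑ i, pd i f x * G i x) + f x * dv G x := by
  unfold dv
  rw [Finset.mul_sum, ← Finset.sum_add_distrib]
  exact Finset.sum_congr rfl fun i _ => pd_mul i hf (hG i) x

theorem cs_pd (i : Fin n) {f : V n → ℝ} (hf : HasCompactSupport f) :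
    HasCompactSupport (pd i f) := by
  have h1 : HasCompactSupport (fderiv ℝ f) := hf.fderiv (𝕜 := ℝ)
  exact h1.comp_left (g := fun L : V n →L[ℝ] ℝ => L (Pi.single i 1)) (by simp)

theorem int_of {f : V n → ℝ} (hf : ContDiff ℝ ∞ f) (hc : HasCompactSupport f) : Integrable f :=
  hf.continuous.integrable_of_hasCompactSupport hc

theorem int_pd (h : S_IB) (i : Fin n) {f : V n → ℝ} (hf : ContDiff ℝ ∞ f)
    (hc : HasCompactSupport f) : ∫ x, pd i f x = 0 := by
  have h1 := h n i (fun _ => (1 : ℝ)) f contDiff_const hf hc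
  have h2 : ∀ x, pd i (fun _ : V n => (1 : ℝ)) x = 0 := by
    intro x; unfold pd; simp
  simp only [h2, zero_mul, one_mul, integral_zero] at h1
  linarith

theorem int_dv (h : S_IB) {G : Fin n → V n → ℝ} (hG : ∀ i, ContDiff ℝ ∞ (G i))
    (hc : ∀ i, HasCompactSupport (G i)) : ∫ x, dv G x = 0 := by
  unfold dv
  rw [integral_finsetSum _ (fun i _ => int_of (pd_smooth i (hG i)) (cs_pd i (hc i)))]
  exact Finset.sum_eq_zero fun i _ => int_pd h i (hG i) (hc i)

theorem integrable_dv {G : Fin n → V n → ℝ} (hG : ∀ i, ContDiff ℝ ∞ (G i))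
    (hc : ∀ i, HasCompactSupport (G i)) : Integrable (fun x => dv G x) := by
  unfold dv
  exact integrable_finsetSum _ fun i _ => int_of (pd_smooth i (hG i)) (cs_pd i (hc i))

/-! ## Smoothness of the ingredients -/

/-- `a ∇ u` -/
noncomputable def AG (a : V n → Fin n → Fin n → ℝ) (u : V n → ℝ) (i : Fin n) (x : V n) : ℝ :=
  ∑ j, a x i j * pd j u x

theorem AG_smooth {a : V n → Fin n → Fin n → ℝ} (ha : SmS a) {u : V n → ℝ}
    (hu : ContDiff ℝ ∞ u) (i : Fin n) : ContDiff ℝ ∞ (AG a u i) := by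
  unfold AG
  exact ContDiff.sum fun j _ => (ha.1 i j).mul (pd_smooth j hu)

theorem Pa_eq (a : V n → Fin n → Fin n → ℝ) (u : V n → ℝ) (x : V n) : Pa a u x = dv (AG a u) x :=
  rfl

theorem Pa_smooth {a : V n → Fin n → Fin n → ℝ} (ha : SmS a) {u : V n → ℝ}
    (hu : ContDiff ℝ ∞ u) : ContDiff ℝ ∞ (Pa a u) := by
  have : Pa a u = fun x => ∑ i, pd i (AG a u i) x := rfl
  rw [this]
  exact ContDiff.sum fun i _ => pd_smooth i (AG_smooth ha hu i)

theorem XX_eq (a : V n → Fin n → Fin n → ℝ) (u : V n → ℝ) (x : V n) (m : Fin n) :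
    XX a u x m = AG a u m x := rfl

theorem qq_smooth {a : V n → Fin n → Fin n → ℝ} (ha : SmS a) {u : V n → ℝ}
    (hu : ContDiff ℝ ∞ u) : ContDiff ℝ ∞ (qq a u) := by
  have : qq a u = fun x => ∑ m, pd m u x * AG a u m x := rfl
  rw [this]
  exact ContDiff.sum fun m _ => (pd_smooth m hu).mul (AG_smooth ha hu m)

/-- `X v` -/
noncomputable def XV (a : V n → Fin n → Fin n → ℝ) (φ v : V n → ℝ) (x : V n) : ℝ :=
  ∑ m, AG a φ m x * pd m v x

theorem XV_smooth {a : V n → Fin n → Fin n → ℝ} (ha : SmS a) {φ v : V n → ℝ}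
    (hφ : ContDiff ℝ ∞ φ) (hv : ContDiff ℝ ∞ v) : ContDiff ℝ ∞ (XV a φ v) := by
  unfold XV
  exact ContDiff.sum fun m _ => (AG_smooth ha hφ m).mul (pd_smooth m hv)

/-- `a(∇ v, ∇ v)` -/
noncomputable def QV (a : V n → Fin n → Fin n → ℝ) (v : V n → ℝ) (x : V n) : ℝ :=
  ∑ i, ∑ j, a x i j * (pd i v x * pd j v x)

theorem QV_smooth {a : V n → Fin n → Fin n → ℝ} (ha : SmS a) {v : V n → ℝ}
    (hv : ContDiff ℝ ∞ v) : ContDiff ℝ ∞ (QV a v) := by
  unfold QV
  exact ContDiff.sum fun i _ => ContDiff.sum fun j _ =>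
    (ha.1 i j).mul ((pd_smooth i hv).mul (pd_smooth j hv))

theorem pd_XV (i : Fin n) {a : V n → Fin n → Fin n → ℝ} (ha : SmS a) {φ v : V n → ℝ}
    (hφ : ContDiff ℝ ∞ φ) (hv : ContDiff ℝ ∞ v) (x : V n) :
    pd i (XV a φ v) x =
      (∑ m, pd i (AG a φ m) x * pd m v x) + ∑ m, AG a φ m x * pd i (pd m v) x := by
  unfold XV
  rw [pd_sum i _ (fun m _ => (AG_smooth ha hφ m).mul (pd_smooth m hv)), ← Finset.sum_add_distrib]
  exact Finset.sum_congr rfl fun m _ => pd_mul i (AG_smooth ha hφ m) (pd_smooth m hv) x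

theorem pd_QV (m : Fin n) {a : V n → Fin n → Fin n → ℝ} (ha : SmS a) {v : V n → ℝ}
    (hv : ContDiff ℝ ∞ v) (x : V n) :
    pd m (QV a v) x = (∑ i, ∑ j, pd m (fun y => a y i j) x * (pd i v x * pd j v x)) +
      2 * ∑ i, ∑ j, a x i j * (pd i (pd m v) x * pd j v x) := by
  have hs : ∑ i, ∑ j, a x i j * (pd j (pd m v) x * pd i v x) =
      ∑ i, ∑ j, a x i j * (pd i (pd m v) x * pd j v x) := by
    rw [Finset.sum_comm]
    refine Finset.sum_congr rfl fun i _ => Finset.sum_congr rfl fun j _ => ?_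
    rw [ha.2 x j i]
  have h1 : pd m (QV a v) x = ∑ i, ∑ j, (pd m (fun y => a y i j) x * (pd i v x * pd j v x) +
      (a x i j * (pd i (pd m v) x * pd j v x) + a x i j * (pd j (pd m v) x * pd i v x))) := by
    unfold QV
    rw [pd_sum m _ (fun i _ => ContDiff.sum fun j _ =>
      (ha.1 i j).mul ((pd_smooth i hv).mul (pd_smooth j hv)))]
    refine Finset.sum_congr rfl fun i _ => ?_
    rw [pd_sum m _ (fun j _ => (ha.1 i j).mul ((pd_smooth i hv).mul (pd_smooth j hv)))]
    refine Finset.sum_congr rfl fun j _ => ?_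
    rw [pd_mul m (ha.1 i j) ((pd_smooth i hv).mul (pd_smooth j hv)),
      pd_mul m (pd_smooth i hv) (pd_smooth j hv), pd_comm m i hv, pd_comm m j hv]
    ring
  rw [h1]
  simp only [Finset.sum_add_distrib]
  rw [hs]
  ring

/-- symmetry of the form -/
theorem form_symm {a : V n → Fin n → Fin n → ℝ} (ha : SmS a) (x : V n) (u w : V n → ℝ) :
    ∑ i, pd i u x * AG a w i x = ∑ i, pd i w x * AG a u i x := by
  unfold AG
  simp only [Finset.mul_sum]
  rw [Finset.sum_comm]
  refine Finset.sum_congr rfl fun i _ => Finset.sum_congr rfl fun j _ => ?_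
  rw [ha.2 x j i]; ring

theorem QV_eq (a : V n → Fin n → Fin n → ℝ) (x : V n) (v : V n → ℝ) :
    QV a v x = ∑ i, pd i v x * AG a v i x := by
  unfold QV AG
  simp only [Finset.mul_sum]
  refine Finset.sum_congr rfl fun i _ => Finset.sum_congr rfl fun j _ => ?_
  ring

/-! ## The pointwise identity -/

theorem HH_eq (a : V n → Fin n → Fin n → ℝ) (φ v : V n → ℝ) (x : V n) :
    HH a φ x (fun i => pd i v x) =
      2 * (∑ i, (∑ m, pd i (AG a φ m) x * pd m v x) * AG a v i x) -
        ∑ m, AG a φ m x * ∑ i, ∑ j, pd m (fun y => a y i j) x * (pd i v x * pd j v x) := by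
  have h1 : ∑ i, (∑ m, pd i (AG a φ m) x * pd m v x) * AG a v i x =
      ∑ i, ∑ j, ∑ m, pd i (fun y => XX a φ y m) x * a x i j * (pd m v x * pd j v x) := by
    refine Finset.sum_congr rfl fun i _ => ?_
    rw [Finset.sum_mul, Finset.sum_comm]
    refine Finset.sum_congr rfl fun m _ => ?_
    unfold AG
    rw [Finset.mul_sum]
    refine Finset.sum_congr rfl fun j _ => ?_
    have : (fun y => XX a φ y m) = fun y => ∑ j, a y m j * pd j φ y := rfl
    rw [this]; ring
  have h2 : ∑ m, AG a φ m x * ∑ i, ∑ j, pd m (fun y => a y i j) x * (pd i v x * pd j v x) =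
      ∑ i, ∑ j, ∑ m, XX a φ x m * pd m (fun y => a y i j) x * (pd i v x * pd j v x) := by
    simp only [Finset.mul_sum]
    rw [Finset.sum_comm]
    refine Finset.sum_congr rfl fun i _ => ?_
    rw [Finset.sum_comm]
    refine Finset.sum_congr rfl fun j _ => ?_
    refine Finset.sum_congr rfl fun m _ => ?_
    rw [XX_eq]; ring
  unfold HH
  rw [h1, h2]

theorem pointwise {a : V n → Fin n → Fin n → ℝ} (ha : SmS a) {φ v : V n → ℝ} (τ : ℝ)
    (hφ : ContDiff ℝ ∞ φ) (hv : ContDiff ℝ ∞ v) (x : V n) :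
    2 * (Sop a φ τ v x * Aop a φ τ v x) =
      -(4 * τ) * dv (fun i y => XV a φ v y * AG a v i y) x +
      2 * τ * dv (fun i y => QV a v y * AG a φ i y) x -
      2 * τ * dv (fun i y => (Pa a φ y * v y) * AG a v i y) x +
      τ * dv (fun i y => (v y * v y) * AG a (Pa a φ) i y) x -
      2 * τ ^ 3 * dv (fun i y => (qq a φ y * (v y * v y)) * AG a φ i y) x +
      (2 * τ * HH a φ x (fun i => pd i v x) +
        2 * τ ^ 3 * ((∑ m, XX a φ x m * pd m (qq a φ) x) * v x ^ 2) -
        τ * (Pa a (Pa a φ) x * v x ^ 2)) := by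
  have hA := AG_smooth ha hv
  have hX := AG_smooth ha hφ
  have he := Pa_smooth ha hφ
  have hE := AG_smooth ha he
  have hq := qq_smooth ha hφ
  -- D1
  have D1 : dv (fun i y => XV a φ v y * AG a v i y) x =
      (∑ i, (∑ m, pd i (AG a φ m) x * pd m v x) * AG a v i x) +
      (∑ i, (∑ m, AG a φ m x * pd i (pd m v) x) * AG a v i x) + XV a φ v x * Pa a v x := by
    rw [dv_mul (XV_smooth ha hφ hv) hA, Pa_eq, ← Finset.sum_add_distrib]
    congr 1
    refine Finset.sum_congr rfl fun i _ => ?_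
    rw [pd_XV i ha hφ hv]; ring
  have D2 : dv (fun i y => QV a v y * AG a φ i y) x =
      (∑ m, AG a φ m x * ∑ i, ∑ j, pd m (fun y => a y i j) x * (pd i v x * pd j v x)) +
      2 * (∑ i, (∑ m, AG a φ m x * pd i (pd m v) x) * AG a v i x) + QV a v x * Pa a φ x := by
    rw [dv_mul (QV_smooth ha hv) hX, Pa_eq]
    congr 1
    have h1 : ∑ i, (∑ m, AG a φ m x * pd i (pd m v) x) * AG a v i x =
        ∑ m, AG a φ m x * ∑ i, ∑ j, a x i j * (pd i (pd m v) x * pd j v x) := by
      simp only [Finset.sum_mul]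
      rw [Finset.sum_comm]
      refine Finset.sum_congr rfl fun m _ => ?_
      rw [Finset.mul_sum]
      refine Finset.sum_congr rfl fun i _ => ?_
      have : AG a v i x = ∑ j, a x i j * pd j v x := rfl
      rw [this, Finset.mul_sum, Finset.mul_sum]
      refine Finset.sum_congr rfl fun j _ => ?_
      ring
    rw [h1, Finset.mul_sum, ← Finset.sum_add_distrib]
    refine Finset.sum_congr rfl fun m _ => ?_
    rw [pd_QV m ha hv]; ring
  have D3 : dv (fun i y => (Pa a φ y * v y) * AG a v i y) x =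
      v x * (∑ i, pd i (Pa a φ) x * AG a v i x) + Pa a φ x * QV a v x +
        Pa a φ x * v x * Pa a v x := by
    rw [dv_mul (he.mul hv) hA, QV_eq, Finset.mul_sum, Finset.mul_sum, ← Finset.sum_add_distrib,
      Pa_eq a v]
    congr 1
    refine Finset.sum_congr rfl fun i _ => ?_
    rw [pd_mul i he hv]; ring
  have D4 : dv (fun i y => (v y * v y) * AG a (Pa a φ) i y) x =
      2 * v x * (∑ i, pd i (Pa a φ) x * AG a v i x) + v x * v x * Pa a (Pa a φ) x := by
    rw [dv_mul (hv.mul hv) hE, form_symm ha x (Pa a φ) v, Finset.mul_sum, Pa_eq a (Pa a φ)]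
    congr 1
    refine Finset.sum_congr rfl fun i _ => ?_
    rw [pd_mul i hv hv]; ring
  have D5 : dv (fun i y => (qq a φ y * (v y * v y)) * AG a φ i y) x =
      (∑ m, XX a φ x m * pd m (qq a φ) x) * (v x * v x) +
      2 * qq a φ x * v x * XV a φ v x + qq a φ x * (v x * v x) * Pa a φ x := by
    rw [dv_mul (hq.mul (hv.mul hv)) hX, Pa_eq a φ]
    congr 1
    have : XV a φ v x = ∑ m, AG a φ m x * pd m v x := rfl
    rw [this, Finset.sum_mul, Finset.mul_sum, ← Finset.sum_add_distrib]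
    refine Finset.sum_congr rfl fun i _ => ?_
    rw [pd_mul i hq (hv.mul hv), pd_mul i hv hv, XX_eq]; ring
  have hAop : Aop a φ τ v x = -(2 * τ) * XV a φ v x - τ * Pa a φ x * v x := rfl
  have hSop : Sop a φ τ v x = Pa a v x + τ ^ 2 * qq a φ x * v x := rfl
  rw [D1, D2, D3, D4, D5, hAop, hSop, HH_eq]
  ring

theorem cs_mul_left {f g : V n → ℝ} (hf : HasCompactSupport f) :
    HasCompactSupport (fun x => f x * g x) := hf.mul_right

theorem cs_mul_right {f g : V n → ℝ} (hg : HasCompactSupport g) :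
    HasCompactSupport (fun x => f x * g x) := hg.mul_left

theorem cs_sum {ι : Type} (s : Finset ι) {f : ι → V n → ℝ}
    (hf : ∀ k ∈ s, HasCompactSupport (f k)) : HasCompactSupport (fun x => ∑ k ∈ s, f k x) := by
  classical
  induction s using Finset.induction_on with
  | empty =>
    simp only [Finset.sum_empty]
    exact HasCompactSupport.zero
  | insert k s hk ih =>
    have h1 : (fun x => ∑ l ∈ insert k s, f l x) = (f k) + (fun x => ∑ l ∈ s, f l x) := by
      funext x; simp [Finset.sum_insert hk]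
    rw [h1]
    exact (hf k (Finset.mem_insert_self _ _)).add
      (ih fun l hl => hf l (Finset.mem_insert_of_mem hl))

theorem HH_smooth {a : V n → Fin n → Fin n → ℝ} (ha : SmS a) {φ v : V n → ℝ}
    (hφ : ContDiff ℝ ∞ φ) (hv : ContDiff ℝ ∞ v) :
    ContDiff ℝ ∞ (fun x => HH a φ x (fun i => pd i v x)) := by
  have h : (fun x => HH a φ x (fun i => pd i v x)) = fun x =>
      2 * (∑ i, (∑ m, pd i (AG a φ m) x * pd m v x) * AG a v i x) -
        ∑ m, AG a φ m x * ∑ i, ∑ j, pd m (fun y => a y i j) x * (pd i v x * pd j v x) := by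
    funext x; exact HH_eq a φ v x
  rw [h]
  refine (contDiff_const.mul (ContDiff.sum fun i _ => (ContDiff.sum fun m _ =>
    (pd_smooth i (AG_smooth ha hφ m)).mul (pd_smooth m hv)).mul (AG_smooth ha hv i))).sub ?_
  exact ContDiff.sum fun m _ => (AG_smooth ha hφ m).mul (ContDiff.sum fun i _ =>
    ContDiff.sum fun j _ => (pd_smooth m (ha.1 i j)).mul ((pd_smooth i hv).mul (pd_smooth j hv)))

theorem AG_cs (a : V n → Fin n → Fin n → ℝ) {v : V n → ℝ} (hc : HasCompactSupport v)
    (i : Fin n) : HasCompactSupport (AG a v i) :=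
  cs_sum _ fun j _ => cs_mul_right (cs_pd j hc)

theorem HH_cs (a : V n → Fin n → Fin n → ℝ) (φ : V n → ℝ) {v : V n → ℝ}
    (hc : HasCompactSupport v) : HasCompactSupport (fun x => HH a φ x (fun i => pd i v x)) := by
  have h : (fun x => HH a φ x (fun i => pd i v x)) = (fun x =>
      2 * (∑ i, (∑ m, pd i (AG a φ m) x * pd m v x) * AG a v i x)) -
        (fun x => ∑ m, AG a φ m x *
          ∑ i, ∑ j, pd m (fun y => a y i j) x * (pd i v x * pd j v x)) := by
    funext x; exact HH_eq a φ v x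
  rw [h]
  refine HasCompactSupport.sub ?_ ?_
  · exact cs_mul_right (cs_sum _ fun i _ => cs_mul_right (AG_cs a hc i))
  · exact cs_sum _ fun m _ => cs_mul_right (cs_sum _ fun i _ => cs_sum _ fun j _ =>
      cs_mul_right (cs_mul_right (cs_pd j hc)))

theorem int_comb {f1 f2 f3 f4 f5 f6 f7 f8 : V n → ℝ} (c1 c2 c3 c4 c5 c6 c7 c8 : ℝ)
    (h1 : Integrable f1) (h2 : Integrable f2) (h3 : Integrable f3) (h4 : Integrable f4)
    (h5 : Integrable f5) (h6 : Integrable f6) (h7 : Integrable f7) (h8 : Integrable f8) :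
    ∫ x, (c1 * f1 x + c2 * f2 x - c3 * f3 x + c4 * f4 x - c5 * f5 x +
      (c6 * f6 x + c7 * f7 x - c8 * f8 x)) =
      c1 * (∫ x, f1 x) + c2 * (∫ x, f2 x) - c3 * (∫ x, f3 x) + c4 * (∫ x, f4 x) -
      c5 * (∫ x, f5 x) + (c6 * (∫ x, f6 x) + c7 * (∫ x, f7 x) - c8 * ∫ x, f8 x) := by
  have k1 := h1.const_mul c1
  have k2 := h2.const_mul c2
  have k3 := h3.const_mul c3
  have k4 := h4.const_mul c4
  have k5 := h5.const_mul c5
  have k6 := h6.const_mul c6
  have k7 := h7.const_mul c7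
  have k8 := h8.const_mul c8
  have m2 : Integrable (fun x => c1 * f1 x + c2 * f2 x) := k1.add k2
  have m3 : Integrable (fun x => c1 * f1 x + c2 * f2 x - c3 * f3 x) := m2.sub k3
  have m4 : Integrable (fun x => c1 * f1 x + c2 * f2 x - c3 * f3 x + c4 * f4 x) := m3.add k4
  have m5 : Integrable (fun x => c1 * f1 x + c2 * f2 x - c3 * f3 x + c4 * f4 x - c5 * f5 x) :=
    m4.sub k5
  have m7 : Integrable (fun x => c6 * f6 x + c7 * f7 x) := k6.add k7
  have m8 : Integrable (fun x => c6 * f6 x + c7 * f7 x - c8 * f8 x) := m7.sub k8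
  rw [integral_add m5 m8, integral_sub m4 k5, integral_add m3 k4, integral_sub m2 k3,
    integral_add k1 k2, integral_sub m7 k8, integral_add k6 k7]
  simp only [integral_const_mul]

theorem t_I1 (h : S_IB) : S_I1 := by
  intro n a φ v τ ha hφ hv hc
  have hA := AG_smooth ha hv
  have hX := AG_smooth ha hφ
  have he := Pa_smooth ha hφ
  have hE := AG_smooth ha he
  have hq := qq_smooth ha hφ
  -- the five fields
  have s1 : ∀ i, ContDiff ℝ ∞ (fun y => XV a φ v y * AG a v i y) :=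
    fun i => (XV_smooth ha hφ hv).mul (hA i)
  have c1 : ∀ i, HasCompactSupport (fun y => XV a φ v y * AG a v i y) :=
    fun i => cs_mul_right (AG_cs a hc i)
  have s2 : ∀ i, ContDiff ℝ ∞ (fun y => QV a v y * AG a φ i y) :=
    fun i => (QV_smooth ha hv).mul (hX i)
  have c2 : ∀ i, HasCompactSupport (fun y => QV a v y * AG a φ i y) :=
    fun i => cs_mul_left (cs_sum _ fun i _ => cs_sum _ fun j _ =>
      cs_mul_right (cs_mul_right (cs_pd j hc)))
  have s3 : ∀ i, ContDiff ℝ ∞ (fun y => (Pa a φ y * v y) * AG a v i y) :=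
    fun i => (he.mul hv).mul (hA i)
  have c3 : ∀ i, HasCompactSupport (fun y => (Pa a φ y * v y) * AG a v i y) :=
    fun i => cs_mul_right (AG_cs a hc i)
  have s4 : ∀ i, ContDiff ℝ ∞ (fun y => (v y * v y) * AG a (Pa a φ) i y) :=
    fun i => (hv.mul hv).mul (hE i)
  have c4 : ∀ i, HasCompactSupport (fun y => (v y * v y) * AG a (Pa a φ) i y) :=
    fun i => cs_mul_left (cs_mul_left hc)
  have s5 : ∀ i, ContDiff ℝ ∞ (fun y => (qq a φ y * (v y * v y)) * AG a φ i y) :=
    fun i => (hq.mul (hv.mul hv)).mul (hX i)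
  have c5 : ∀ i, HasCompactSupport (fun y => (qq a φ y * (v y * v y)) * AG a φ i y) :=
    fun i => cs_mul_left (cs_mul_right (cs_mul_left hc))
  -- the remaining terms
  have i6 : Integrable (fun x => HH a φ x (fun i => pd i v x)) :=
    int_of (HH_smooth ha hφ hv) (HH_cs a φ hc)
  have i7 : Integrable (fun x => (∑ m, XX a φ x m * pd m (qq a φ) x) * v x ^ 2) := by
    refine int_of ?_ ?_
    · exact (ContDiff.sum fun m _ => (hX m).mul (pd_smooth m hq)).mul (hv.pow 2)
    · have : (fun x => (∑ m, XX a φ x m * pd m (qq a φ) x) * v x ^ 2) =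
        fun x => (∑ m, XX a φ x m * pd m (qq a φ) x) * (v x * v x) := by funext x; ring
      rw [this]
      exact cs_mul_right (cs_mul_left hc)
  have i8 : Integrable (fun x => Pa a (Pa a φ) x * v x ^ 2) := by
    refine int_of ?_ ?_
    · exact (Pa_smooth ha he).mul (hv.pow 2)
    · have : (fun x => Pa a (Pa a φ) x * v x ^ 2) =
        fun x => Pa a (Pa a φ) x * (v x * v x) := by funext x; ring
      rw [this]
      exact cs_mul_right (cs_mul_left hc)
  have j1 := integrable_dv s1 c1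
  have j2 := integrable_dv s2 c2
  have j3 := integrable_dv s3 c3
  have j4 := integrable_dv s4 c4
  have j5 := integrable_dv s5 c5
  have z1 := int_dv h s1 c1
  have z2 := int_dv h s2 c2
  have z3 := int_dv h s3 c3
  have z4 := int_dv h s4 c4
  have z5 := int_dv h s5 c5
  rw [← integral_const_mul]
  have hp : (fun x => 2 * (Sop a φ τ v x * Aop a φ τ v x)) = fun x =>
      -(4 * τ) * dv (fun i y => XV a φ v y * AG a v i y) x +
      2 * τ * dv (fun i y => QV a v y * AG a φ i y) x -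
      2 * τ * dv (fun i y => (Pa a φ y * v y) * AG a v i y) x +
      τ * dv (fun i y => (v y * v y) * AG a (Pa a φ) i y) x -
      2 * τ ^ 3 * dv (fun i y => (qq a φ y * (v y * v y)) * AG a φ i y) x +
      (2 * τ * HH a φ x (fun i => pd i v x) +
        2 * τ ^ 3 * ((∑ m, XX a φ x m * pd m (qq a φ) x) * v x ^ 2) -
        τ * (Pa a (Pa a φ) x * v x ^ 2)) := by
    funext x; exact pointwise ha τ hφ hv x
  rw [hp, int_comb _ _ _ _ _ _ _ _ j1 j2 j3 j4 j5 i6 i7 i8]
  rw [z1, z2, z3, z4, z5]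
  ring

end Pool.Agent.R235.FS.PI1
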