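import Pool.Agent.R235.FS.Stm

/-! I2: the energy identity. -/

set_option autoImplicit false

open MeasureTheory Set Filter Topology
open scoped ContDiff Manifold

namespace Pool.Agent.R235.FS.PI2

variable {n : ℕ}

theorem cd_pd (i : Fin n) {f : V n → ℝ} (hf : ContDiff ℝ ∞ f) : ContDiff ℝ ∞ (pd i f) := by
  have h1 : ContDiff ℝ ∞ (fderiv ℝ f) := by
    apply ContDiff.fderiv_right (n := ∞) hf
    simp
  exact h1.clm_apply contDiff_const

theorem pd_mul (i : Fin n) {f g : V n → ℝ} (hf : ContDiff ℝ ∞ f) (hg : ContDiff ℝ ∞ g)
    (x : V n) : pd i (fun y => f y * g y) x = pd i f x * g x + f x * pd i g x := by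
  have hf' : DifferentiableAt ℝ f x := (hf.differentiable (by simp)).differentiableAt
  have hg' : DifferentiableAt ℝ g x := (hg.differentiable (by simp)).differentiableAt
  unfold pd
  rw [fderiv_fun_mul hf' hg']
  simp
  ring

theorem pd_zero (i : Fin n) {v : V n → ℝ} {x : V n} (hx : x ∉ tsupport v) : pd i v x = 0 := by
  have h1 : x ∉ tsupport (fderiv ℝ v) := fun h => hx (tsupport_fderiv_subset ℝ h)
  have h2 : fderiv ℝ v x = 0 := image_eq_zero_of_notMem_tsupport h1
  unfold pd
  rw [h2]
  simp

theorem integ {v f : V n → ℝ} (hv : HasCompactSupport v) (hf : Continuous f)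
    (h0 : ∀ x, x ∉ tsupport v → f x = 0) : Integrable f :=
  hf.integrable_of_hasCompactSupport (HasCompactSupport.intro hv.isCompact h0)

theorem t_I2 (h : S_IB) : S_I2 := by
  intro n a φ g v τ ha hφ hg hv hvc
  have hac : ∀ i j, Continuous fun x => a x i j := fun i j => (ha.1 i j).continuous
  have hvC : Continuous v := hv.continuous
  have hgC : Continuous g := hg.continuous
  have hpv : ∀ i, Continuous (pd i v) := fun i => (cd_pd i hv).continuous
  have hpg : ∀ i, Continuous (pd i g) := fun i => (cd_pd i hg).continuous
  have hpφ : ∀ i, Continuous (pd i φ) := fun i => (cd_pd i hφ).continuous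
  have hF : ∀ u : V n → ℝ, ContDiff ℝ ∞ u → ∀ i, ContDiff ℝ ∞ (fun y => ∑ j, a y i j * pd j u y) := by
    intro u hu i
    exact ContDiff.sum fun j _ => (ha.1 i j).mul (cd_pd j hu)
  have hPa : ∀ u : V n → ℝ, ContDiff ℝ ∞ u → Continuous (Pa a u) := by
    intro u hu
    unfold Pa
    exact continuous_finset_sum _ fun i _ => (cd_pd i (hF u hu i)).continuous
  have hqq : Continuous (qq a φ) := by
    unfold qq XX
    exact continuous_finset_sum _ fun m _ => (hpφ m).mul
      (continuous_finset_sum _ fun l _ => (hac m l).mul (hpφ l))
  have v0 : ∀ x, x ∉ tsupport v → v x = 0 := fun x hx => image_eq_zero_of_notMem_tsupport hx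
  have p0 : ∀ i x, x ∉ tsupport v → pd i v x = 0 := fun i x hx => pd_zero i hx
  have hgv : ContDiff ℝ ∞ (fun y => g y * v y) := hg.mul hv
  have hvv : ContDiff ℝ ∞ (fun y => v y * v y) := hv.mul hv
  have hgvc : HasCompactSupport (fun y => g y * v y) := hvc.mul_left
  have hvvc : HasCompactSupport (fun y => v y * v y) := hvc.mul_left
  have e1 : ∫ x, Pa a v x * (g x * v x) =
      -(∫ x, (∑ i, ∑ j, a x i j * pd j v x * (pd i g x * v x))) -
        ∫ x, g x * ∑ i, ∑ j, a x i j * (pd i v x * pd j v x) := by
    have s1 : ∀ x, Pa a v x * (g x * v x) =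
        ∑ i, pd i (fun y => ∑ j, a y i j * pd j v y) x * (g x * v x) := by
      intro x; unfold Pa; rw [Finset.sum_mul]
    simp_rw [s1]
    rw [integral_finset_sum]
    · have s2 : ∀ i : Fin n, ∫ x, pd i (fun y => ∑ j, a y i j * pd j v y) x * (g x * v x) =
          -∫ x, ((∑ j, a x i j * pd j v x * (pd i g x * v x)) +
            g x * ∑ j, a x i j * (pd i v x * pd j v x)) := by
        intro i
        rw [h n i _ _ (hF v hv i) hgv hgvc]
        congr 1
        apply integral_congr_ae
        filter_upwards with x
        rw [pd_mul i hg hv x, Finset.sum_mul, Finset.mul_sum, ← Finset.sum_add_distrib]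
        apply Finset.sum_congr rfl
        intro j _
        ring
      rw [Finset.sum_congr rfl fun i _ => s2 i, Finset.sum_neg_distrib,
        ← integral_finset_sum]
      · rw [← neg_add', ← integral_add]
        · congr 1
          apply integral_congr_ae
          filter_upwards with x
          rw [Finset.sum_add_distrib, Finset.mul_sum]
        · apply integ hvc
          · exact continuous_finset_sum _ fun i _ => continuous_finset_sum _ fun j _ =>
              ((hac i j).mul (hpv j)).mul ((hpg i).mul hvC)
          · intro x hx
            simp [v0 x hx]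
        · apply integ hvc
          · exact hgC.mul (continuous_finset_sum _ fun i _ => continuous_finset_sum _ fun j _ =>
              (hac i j).mul ((hpv i).mul (hpv j)))
          · intro x hx
            simp [p0 _ x hx]
      · intro i _
        apply integ hvc
        · exact (continuous_finset_sum _ fun j _ =>
              ((hac i j).mul (hpv j)).mul ((hpg i).mul hvC)).add
            (hgC.mul (continuous_finset_sum _ fun j _ => (hac i j).mul ((hpv i).mul (hpv j))))
        · intro x hx
          simp [v0 x hx, p0 _ x hx]
    · intro i _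
      apply integ hvc
      · exact (cd_pd i (hF v hv i)).continuous.mul (hgC.mul hvC)
      · intro x hx
        simp [v0 x hx]
  have e2 : ∫ x, Pa a g x * v x ^ 2 =
      -2 * ∫ x, (∑ i, ∑ j, a x i j * pd j v x * (pd i g x * v x)) := by
    have s1 : ∀ x, Pa a g x * v x ^ 2 =
        ∑ i, pd i (fun y => ∑ j, a y i j * pd j g y) x * (v x * v x) := by
      intro x; unfold Pa; rw [Finset.sum_mul]
      apply Finset.sum_congr rfl
      intro i _
      ring
    simp_rw [s1]
    rw [integral_finset_sum]
    · have s2 : ∀ i : Fin n, ∫ x, pd i (fun y => ∑ j, a y i j * pd j g y) x * (v x * v x) =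
          -2 * ∫ x, (∑ j, a x i j * pd i v x * (pd j g x * v x)) := by
        intro i
        rw [h n i _ _ (hF g hg i) hvv hvvc, neg_mul, ← integral_const_mul]
        congr 1
        apply integral_congr_ae
        filter_upwards with x
        rw [pd_mul i hv hv x, Finset.sum_mul, Finset.mul_sum]
        apply Finset.sum_congr rfl
        intro j _
        ring
      rw [Finset.sum_congr rfl fun i _ => s2 i, ← Finset.mul_sum, ← integral_finset_sum]
      · congr 1
        apply integral_congr_ae
        filter_upwards with x
        rw [Finset.sum_comm]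
        apply Finset.sum_congr rfl
        intro i _
        apply Finset.sum_congr rfl
        intro j _
        rw [ha.2 x j i]
      · intro i _
        apply integ hvc
        · exact continuous_finset_sum _ fun j _ =>
              ((hac i j).mul (hpv i)).mul ((hpg j).mul hvC)
        · intro x hx
          simp [v0 x hx]
    · intro i _
      apply integ hvc
      · exact (cd_pd i (hF g hg i)).continuous.mul (hvC.mul hvC)
      · intro x hx
        simp [v0 x hx]
  have e3 : ∫ x, Sop a φ τ v x * (g x * v x) =
      (∫ x, Pa a v x * (g x * v x)) + τ ^ 2 * ∫ x, qq a φ x * g x * v x ^ 2 := by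
    rw [← integral_const_mul, ← integral_add]
    · apply integral_congr_ae
      filter_upwards with x
      unfold Sop
      ring
    · apply integ hvc
      · exact (hPa v hv).mul (hgC.mul hvC)
      · intro x hx
        simp [v0 x hx]
    · apply integ hvc
      · exact continuous_const.mul ((hqq.mul hgC).mul (hvC.pow 2))
      · intro x hx
        simp [v0 x hx]
  rw [e3, e1, e2]
  ring

end Pool.Agent.R235.FS.PI2
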