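import Pool.Agent.R235.FS.Stm

/-!
# IB (MP_f97e06_gt): integration by parts
-/

set_option autoImplicit false

open MeasureTheory Set Filter Topology
open scoped ContDiff Manifold

namespace Pool.Agent.R235.FS.PIB

open Pool.Agent.R235.FS

theorem cont_pd {n : ℕ} {f : V n → ℝ} (hf : ContDiff ℝ ∞ f) (i : Fin n) :
    Continuous (fun x => pd i f x) := by
  unfold pd
  exact (hf.continuous_fderiv (by simp)).clm_apply continuous_const

theorem t_IB : S_IB := by
  intro n i f g hf hg hc
  have hpc : HasCompactSupport (fun x => pd i g x) := hc.fderiv_apply (𝕜 := ℝ) (Pi.single i 1)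
  have h1 : Integrable (fun x => fderiv ℝ f x (Pi.single i 1) * g x) (volume : Measure (V n)) := by
    have hcont : Continuous (fun x => pd i f x * g x) := (cont_pd hf i).mul hg.continuous
    exact hcont.integrable_of_hasCompactSupport hc.mul_left
  have h2 : Integrable (fun x => f x * fderiv ℝ g x (Pi.single i 1)) (volume : Measure (V n)) := by
    have hcont : Continuous (fun x => f x * pd i g x) := hf.continuous.mul (cont_pd hg i)
    exact hcont.integrable_of_hasCompactSupport hpc.mul_left
  have h3 : Integrable (fun x => f x * g x) (volume : Measure (V n)) := by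
    have hcont : Continuous (fun x => f x * g x) := hf.continuous.mul hg.continuous
    exact hcont.integrable_of_hasCompactSupport hc.mul_left
  have h4 := integral_mul_fderiv_eq_neg_fderiv_mul_of_integrable h1 h2 h3
    (fun x _ => (hf.differentiable (by simp)).differentiableAt)
    (fun x _ => (hg.differentiable (by simp)).differentiableAt)
  unfold pd
  rw [h4, neg_neg]

end Pool.Agent.R235.FS.PIB
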