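import Pool.Agent.R235.FS.Stm

set_option autoImplicit false

open MeasureTheory Set Filter Topology
open scoped ContDiff Manifold

namespace Pool.Agent.R235.FS.PLAP

theorem pd_contDiffOn {n : ℕ} {Ω : Set (V n)} (hΩ : IsOpen Ω) {f : V n → ℝ}
    (hf : ContDiffOn ℝ ∞ f Ω) (i : Fin n) : ContDiffOn ℝ ∞ (pd i f) Ω :=
  (hf.fderiv_of_isOpen hΩ (by simp)).clm_apply contDiffOn_const

theorem det_contDiffOn {n : ℕ} {Ω : Set (V n)} {G : V n → Matrix (Fin n) (Fin n) ℝ}
    (hG : ∀ i j, ContDiffOn ℝ ∞ (fun x => G x i j) Ω) :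
    ContDiffOn ℝ ∞ (fun x => (G x).det) Ω := by
  simp only [Matrix.det_apply']
  exact ContDiffOn.sum fun σ _ => contDiffOn_const.mul (contDiffOn_prod fun i _ => hG _ _)

theorem adj_contDiffOn {n : ℕ} {Ω : Set (V n)} {G : V n → Matrix (Fin n) (Fin n) ℝ}
    (hG : ∀ i j, ContDiffOn ℝ ∞ (fun x => G x i j) Ω) (i j : Fin n) :
    ContDiffOn ℝ ∞ (fun x => (G x).adjugate i j) Ω := by
  simp only [Matrix.adjugate_apply]
  apply det_contDiffOn
  intro k l
  simp only [Matrix.updateRow_apply]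
  split_ifs
  · exact contDiffOn_const
  · exact hG k l

theorem inv_contDiffOn {n : ℕ} {Ω : Set (V n)} {G : V n → Matrix (Fin n) (Fin n) ℝ}
    (hG : ∀ i j, ContDiffOn ℝ ∞ (fun x => G x i j) Ω) (hP : ∀ x ∈ Ω, (G x).PosDef) (i j : Fin n) :
    ContDiffOn ℝ ∞ (fun x => (G x)⁻¹ i j) Ω := by
  have h : ContDiffOn ℝ ∞ (fun x => ((G x).det)⁻¹ * (G x).adjugate i j) Ω :=
    ((det_contDiffOn hG).inv fun x hx => (hP x hx).det_pos.ne').mul (adj_contDiffOn hG i j)
  refine h.congr fun x hx => ?_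
  rw [Matrix.inv_def, Matrix.smul_apply, Ring.inverse_eq_inv', smul_eq_mul]

theorem ell_inv {n : ℕ} {G : Matrix (Fin n) (Fin n) ℝ} (hP : G.PosDef) :
    Ell fun i j => G⁻¹ i j := by
  have h := hP.inv
  refine ⟨fun i j => ?_, fun ξ hξ => ?_⟩
  · have h1 := h.isHermitian.apply i j
    simpa using h1.symm
  · have h1 := h.dotProduct_mulVec_pos hξ
    have h2 : star ξ ⬝ᵥ (G⁻¹.mulVec ξ) = ∑ i, ∑ j, G⁻¹ i j * (ξ i * ξ j) := by
      simp only [dotProduct, Matrix.mulVec, Finset.mul_sum]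
      refine Finset.sum_congr rfl fun i _ => Finset.sum_congr rfl fun j _ => ?_
      simp
      ring
    rwa [h2] at h1

theorem t_LAP : S_LAP := by
  intro n Ω G hΩ hG hP
  refine ⟨inv_contDiffOn hG hP, fun x hx => ell_inv (hP x hx), ?_⟩
  set w : V n → ℝ := fun y => √(G y).det with hw
  have hwc : ContDiffOn ℝ ∞ w Ω :=
    (det_contDiffOn hG).sqrt fun x hx => (hP x hx).det_pos.ne'
  have hw0 : ∀ x ∈ Ω, w x ≠ 0 := fun x hx => (Real.sqrt_pos.2 (hP x hx).det_pos).ne'
  have hwh : ∀ i j, ContDiffOn ℝ ∞ (fun y => w y * (G y)⁻¹ i j) Ω := fun i j =>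
    hwc.mul (inv_contDiffOn hG hP i j)
  refine ⟨fun x j => (w x)⁻¹ * ∑ i, pd i (fun y => w y * (G y)⁻¹ i j) x, fun j => ?_, ?_⟩
  · refine ContinuousOn.mul (hwc.continuousOn.inv₀ hw0) ?_
    exact continuousOn_finset_sum _ fun i _ => (pd_contDiffOn hΩ (hwh i j) i).continuousOn
  · intro u hu x hx
    have hxn : Ω ∈ 𝓝 x := hΩ.mem_nhds hx
    have hd : ∀ i, pd i (fun y => w y * ∑ j, (G y)⁻¹ i j * pd j u y) x =
        ∑ j, (pd i (fun y => w y * (G y)⁻¹ i j) x * pd j u x +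
          w x * (G x)⁻¹ i j * pd i (pd j u) x) := by
      intro i
      have e1 : (fun y => w y * ∑ j, (G y)⁻¹ i j * pd j u y) =
          fun y => ∑ j, (w y * (G y)⁻¹ i j) * pd j u y := by
        funext y
        rw [Finset.mul_sum]
        exact Finset.sum_congr rfl fun j _ => by ring
      have hA : ∀ j, DifferentiableAt ℝ (fun y => w y * (G y)⁻¹ i j) x := fun j =>
        ((hwh i j).contDiffAt hxn).differentiableAt (by simp)
      have hB : ∀ j, DifferentiableAt ℝ (pd j u) x := fun j =>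
        ((pd_contDiffOn hΩ hu j).contDiffAt hxn).differentiableAt (by simp)
      unfold pd at e1 ⊢
      rw [e1]
      have e2 : fderiv ℝ (fun y => ∑ j, (w y * (G y)⁻¹ i j) * fderiv ℝ u y (Pi.single j 1)) x =
          ∑ j, fderiv ℝ (fun y => (w y * (G y)⁻¹ i j) * fderiv ℝ u y (Pi.single j 1)) x :=
        fderiv_fun_sum fun j _ => (hA j).mul (hB j)
      rw [e2, ContinuousLinearMap.sum_apply]
      refine Finset.sum_congr rfl fun j _ => ?_
      have e3 := fderiv_fun_mul (hA j) (hB j)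
      unfold pd at e3
      rw [e3]
      simp only [ContinuousLinearMap.add_apply, ContinuousLinearMap.smul_apply, smul_eq_mul]
      ring
    show (w x)⁻¹ * ∑ i, pd i (fun y => w y * ∑ j, (G y)⁻¹ i j * pd j u y) x = _
    rw [Finset.sum_congr rfl fun i _ => hd i]
    simp only [Finset.sum_add_distrib, mul_add]
    rw [add_comm]
    congr 1
    · rw [Finset.mul_sum]
      refine Finset.sum_congr rfl fun i _ => ?_
      rw [Finset.mul_sum]
      refine Finset.sum_congr rfl fun j _ => ?_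
      have := hw0 x hx
      field_simp
    · rw [Finset.sum_comm, Finset.mul_sum]
      refine Finset.sum_congr rfl fun j _ => ?_
      rw [mul_assoc, Finset.sum_mul]

end Pool.Agent.R235.FS.PLAP
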