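import Pool.Agent.R235.FS.Stm

/-!
# MP_f97e06_gt, piece LOC: the local theorem
-/

set_option autoImplicit false

open MeasureTheory Set Filter Topology
open scoped ContDiff Manifold

namespace Pool.Agent.R235.FS.PLOC

open Pool.Agent.R235.FS

variable {n k : ℕ}

theorem B_zero_left (ε : Fin k → ℝ) (w : Fin k → ℝ) : B ε 0 w = 0 := by
  unfold B
  simp

theorem B_zero_right (ε : Fin k → ℝ) (w : Fin k → ℝ) : B ε w 0 = 0 := by
  unfold B
  simp

theorem B_add_left (ε : Fin k → ℝ) (u v w : Fin k → ℝ) : B ε (u + v) w = B ε u w + B ε v w := by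
  unfold B
  rw [← Finset.sum_add_distrib]
  refine Finset.sum_congr rfl fun j _ => ?_
  simp only [Pi.add_apply]
  ring

theorem B_add_right (ε : Fin k → ℝ) (u v w : Fin k → ℝ) : B ε w (u + v) = B ε w u + B ε w v := by
  unfold B
  rw [← Finset.sum_add_distrib]
  refine Finset.sum_congr rfl fun j _ => ?_
  simp only [Pi.add_apply]
  ring

theorem B_smul_left (ε : Fin k → ℝ) (a : ℝ) (v w : Fin k → ℝ) : B ε (a • v) w = a * B ε v w := by
  unfold B
  rw [Finset.mul_sum]
  refine Finset.sum_congr rfl fun j _ => ?_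
  simp only [Pi.smul_apply, smul_eq_mul]
  ring

theorem B_smul_right (ε : Fin k → ℝ) (a : ℝ) (v w : Fin k → ℝ) : B ε w (a • v) = a * B ε w v := by
  unfold B
  rw [Finset.mul_sum]
  refine Finset.sum_congr rfl fun j _ => ?_
  simp only [Pi.smul_apply, smul_eq_mul]
  ring

theorem B_comm (ε : Fin k → ℝ) (v w : Fin k → ℝ) : B ε v w = B ε w v := by
  unfold B
  exact Finset.sum_congr rfl fun j _ => by ring

/-- A form vanishing on the generators vanishes on the span. -/
theorem B_span (ε : Fin k → ℝ) {s : Set (Fin k → ℝ)} (hs : ∀ v ∈ s, ∀ w ∈ s, B ε v w = 0) :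
    ∀ v ∈ Submodule.span ℝ s, ∀ w ∈ Submodule.span ℝ s, B ε v w = 0 := by
  have h1 : ∀ v ∈ s, ∀ w ∈ Submodule.span ℝ s, B ε v w = 0 := by
    intro v hv w hw
    induction hw using Submodule.span_induction with
    | mem w hw => exact hs v hv w hw
    | zero => exact B_zero_right ε v
    | add a c _ _ ha hc => rw [B_add_right, ha, hc, add_zero]
    | smul a c _ hc => rw [B_smul_right, hc, mul_zero]
  intro v hv w hw
  induction hv using Submodule.span_induction with
  | mem v hv => exact h1 v hv w hw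
  | zero => exact B_zero_left ε w
  | add a c _ _ ha hc => rw [B_add_left, ha, hc, add_zero]
  | smul a c _ hc => rw [B_smul_left, hc, mul_zero]

/-- The generators as a family. -/
noncomputable def fam (Z : Fin k → V n → ℝ) (o : Option (Fin n)) (x : V n) : Fin k → ℝ :=
  o.elim (vz Z x) fun i => vd Z i x

theorem range_fam (Z : Fin k → V n → ℝ) (x : V n) :
    (Set.range fun o => fam Z o x) = insert (vz Z x) (Set.range fun i => vd Z i x) := by
  ext v
  constructor
  · rintro ⟨o, rfl⟩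
    cases o with
    | none => exact Set.mem_insert _ _
    | some i => exact Set.mem_insert_of_mem _ ⟨i, rfl⟩
  · intro hv
    rcases Set.mem_insert_iff.1 hv with rfl | ⟨i, rfl⟩
    · exact ⟨none, rfl⟩
    · exact ⟨some i, rfl⟩

theorem fam_cont {Ω : Set (V n)} (hΩ : IsOpen Ω) {Z : Fin k → V n → ℝ}
    (hZ : ∀ j, ContDiffOn ℝ ∞ (Z j) Ω) (o : Option (Fin n)) : ContinuousOn (fam Z o) Ω := by
  refine continuousOn_pi.2 fun j => ?_
  cases o with
  | none => exact (hZ j).continuousOn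
  | some i =>
    have h1 : ContinuousOn (fun x => fderiv ℝ (Z j) x) Ω :=
      (hZ j).continuousOn_fderiv_of_isOpen hΩ (by norm_num)
    exact h1.clm_apply continuousOn_const

/-- The dimension of the span is lower semicontinuous. -/
theorem rank_lsc {Ω : Set (V n)} (hΩ : IsOpen Ω) {Z : Fin k → V n → ℝ}
    (hZ : ∀ j, ContDiffOn ℝ ∞ (Z j) Ω) {x0 : V n} (hx0 : x0 ∈ Ω) :
    ∃ O : Set (V n), IsOpen O ∧ x0 ∈ O ∧ O ⊆ Ω ∧
      ∀ x ∈ O, Module.finrank ℝ (WW Z x0) ≤ Module.finrank ℝ (WW Z x) := by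
  classical
  obtain ⟨b, hb, hspan, hli⟩ := exists_linearIndependent ℝ (Set.range fun o => fam Z o x0)
  have hfin : Finite b := hli.finite
  have : Fintype b := Fintype.ofFinite b
  choose idx hidx using fun v : b => hb v.2
  have hli0 : LinearIndependent ℝ fun v : b => fam Z (idx v) x0 := by
    have h1 : (fun v : b => fam Z (idx v) x0) = fun v : b => (v : Fin k → ℝ) := funext hidx
    rw [h1]
    exact hli
  have hcard : Module.finrank ℝ (WW Z x0) = Fintype.card b := by
    unfold WW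
    rw [← range_fam, ← hspan]
    have h1 := finrank_span_eq_card hli
    rw [Subtype.range_coe] at h1
    exact h1
  have hcont : ContinuousOn (fun x => fun v : b => fam Z (idx v) x) Ω :=
    continuousOn_pi.2 fun v => fam_cont hΩ hZ (idx v)
  have hopen : IsOpen (Ω ∩ (fun x => fun v : b => fam Z (idx v) x) ⁻¹'
      {g : b → Fin k → ℝ | LinearIndependent ℝ g}) :=
    hcont.isOpen_inter_preimage hΩ isOpen_setOf_linearIndependent
  refine ⟨_, hopen, ⟨hx0, hli0⟩, Set.inter_subset_left, fun x hx => ?_⟩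
  have h2 : LinearIndependent ℝ fun v : b => fam Z (idx v) x := hx.2
  have h3 := finrank_span_eq_card h2
  rw [hcard, ← h3]
  refine Submodule.finrank_mono (Submodule.span_mono ?_)
  rw [← range_fam]
  rintro _ ⟨v, rfl⟩
  exact ⟨idx v, rfl⟩

/-- **LOC.** -/
theorem t_LOC (h1 : S_A1) (h2 : S_A2) (h2b : S_A2b) (h3 : S_A3) (h4 : S_A4) : S_LOC := by
  classical
  intro n k Ω ε Z A b lam hΩ hne hk hZ hε hp hzz hdd hA heq
  have hA1 := h1 n k Ω ε Z hΩ hZ hzz hdd
  -- the spaces are isotropic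
  have hiso : ∀ x ∈ Ω, ∀ v ∈ WW Z x, ∀ w ∈ WW Z x, B ε v w = 0 := by
    intro x hx
    refine B_span ε ?_
    obtain ⟨-, h5, -, -, -⟩ := hA1 x hx
    intro v hv w hw
    rcases Set.mem_insert_iff.1 hv with rfl | ⟨i, rfl⟩
    · rcases Set.mem_insert_iff.1 hw with rfl | ⟨l, rfl⟩
      · exact hzz x hx
      · exact h5 l
    · rcases Set.mem_insert_iff.1 hw with rfl | ⟨l, rfl⟩
      · rw [B_comm]
        exact h5 i
      · exact hdd x hx i l
  have hrk : ∀ x ∈ Ω, Module.finrank ℝ (WW Z x) ≤ (Finset.univ.filter fun j => ε j = 1).card ∧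
      Module.finrank ℝ (WW Z x) < k := fun x hx => h2b k ε (WW Z x) hk hε (hiso x hx)
  -- a point of maximal rank
  have hbdd : BddAbove ((fun x => Module.finrank ℝ (WW Z x)) '' Ω) := by
    refine ⟨k, ?_⟩
    rintro _ ⟨x, hx, rfl⟩
    exact (hrk x hx).2.le
  obtain ⟨x0, hx0, hmax⟩ := Nat.sSup_mem (hne.image fun x => Module.finrank ℝ (WW Z x)) hbdd
  beta_reduce at hmax
  have hle : ∀ x ∈ Ω, Module.finrank ℝ (WW Z x) ≤ Module.finrank ℝ (WW Z x0) := by
    intro x hx
    rw [hmax]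
    exact le_csSup hbdd (Set.mem_image_of_mem _ hx)
  obtain ⟨Ω1, hΩ1, hx01, hsub, hlow⟩ := rank_lsc hΩ hZ hx0
  have hconst : ∀ x ∈ Ω1, Module.finrank ℝ (WW Z x) = Module.finrank ℝ (WW Z x0) :=
    fun x hx => le_antisymm (hle x (hsub hx)) (hlow x hx)
  have hZ1 : ∀ j, ContDiffOn ℝ ∞ (Z j) Ω1 := fun j => (hZ j).mono hsub
  have hwk := (hrk x0 hx0).2
  rcases (hrk x0 hx0).1.lt_or_eq with hlt | heqp
  · -- the rank is at most two
    by_cases hz : ∃ x1 ∈ Ω1, vz Z x1 ≠ 0
    · obtain ⟨x1, hx1, hz1⟩ := hz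
      obtain ⟨O, hO, hxO, hOs, hvh⟩ := h3 n k (Module.finrank ℝ (WW Z x0)) Ω1 Z A b lam x1 hΩ1 hZ1
        (fun x hx => hA x (hsub hx)) (fun x hx => heq x (hsub hx)) hconst (by omega) hx1 hz1
      obtain ⟨O', c, hO', hxO', hOs', hc, hsum⟩ := h4 n k (Module.finrank ℝ (WW Z x0)) O Z x1 hO
        (fun j => (hZ1 j).mono hOs) (fun x hx => hconst x (hOs hx)) hwk hvh hxO
      exact ⟨O', c, hO', ⟨x1, hxO'⟩, hOs'.trans (hOs.trans hsub), hc, hsum⟩
    · push Not at hz
      refine ⟨Ω1, fun _ => 1, hΩ1, ⟨x0, hx01⟩, hsub, fun hcon => ?_, fun x hx => ?_⟩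
      · have h5 := congrFun hcon ⟨0, hk⟩
        simp at h5
      · refine Finset.sum_eq_zero fun j _ => ?_
        have h5 : Z j x = 0 := congrFun (hz x hx) j
        rw [h5, mul_zero]
  · -- the definite case
    obtain ⟨O', c, hO', hxO', hOs', hc, hsum⟩ := h4 n k (Module.finrank ℝ (WW Z x0)) Ω1 Z x0 hΩ1
      hZ1 hconst hwk (fun x hx => by
        obtain ⟨h5, h6, h7, h8, h9⟩ := hA1 x (hsub hx)
        exact h2 n k ε (A x) (b x) lam (vz Z x) (fun i => vd Z i x) (fun i l => vh Z i l x) hε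
          (hA x (hsub hx)) h5 (hzz x (hsub hx)) h6 (hdd x (hsub hx)) h7 h8 h9 (heq x (hsub hx))
          ((hconst x hx).trans heqp)) hx01
    exact ⟨O', c, hO', ⟨x0, hxO'⟩, hOs'.trans hsub, hc, hsum⟩

end Pool.Agent.R235.FS.PLOC
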