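import Pool.Agent.R235.FS.Stm

/-! # MUC: unique continuation on a manifold -/

set_option autoImplicit false

open MeasureTheory Set Filter Topology
open scoped ContDiff Manifold

namespace Pool.Agent.R235.FS.PMUC

theorem t_MUC (h1 : S_UC) (h2 : S_LAP) : S_MUC := by
  intro n M _ _ _ _ g lam u hu hO x
  obtain ⟨O, hOo, hOn, hO0⟩ := hO
  obtain ⟨hsm, heq⟩ := hu
  obtain ⟨N, hN⟩ : ∃ N : Set M, N = interior {p | u p = 0} := ⟨_, rfl⟩
  have hNo : IsOpen N := by rw [hN]; exact isOpen_interior
  have hN0 : ∀ p ∈ N, u p = 0 := by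
    intro p hp
    rw [hN] at hp
    have h := (interior_subset : interior {p | u p = 0} ⊆ {p | u p = 0}) hp
    exact h
  have hNne : N.Nonempty := by
    obtain ⟨p, hp⟩ := hOn
    refine ⟨p, ?_⟩
    rw [hN]
    exact interior_maximal (fun q hq => hO0 q hq) hOo hp
  have hNc : IsClosed N := by
    refine isClosed_of_closure_subset fun p hp => ?_
    obtain ⟨e, he⟩ : ∃ e, e = chartAt (V n) p := ⟨_, rfl⟩
    have hea : e ∈ atlas (V n) M := by rw [he]; exact chart_mem_atlas _ _
    have hps : p ∈ e.source := by rw [he]; exact mem_chart_source _ _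
    have hpt : e p ∈ e.target := e.map_source hps
    have hto : IsOpen e.target := e.open_target
    obtain ⟨hinv, hell, b, hb, hlap⟩ := h2 n e.target (g.G e) hto (g.smooth e hea)
      (g.posDef e hea)
    have hv : ContDiffOn ℝ ∞ (fun z => u (e.symm z)) e.target := by
      rw [← contMDiffOn_iff_contDiffOn]
      exact hsm.comp_contMDiffOn (contMDiffOn_symm_of_mem_maximalAtlas
        (IsManifold.subset_maximalAtlas hea))
    have hsol : Sol e.target (fun y i j => (g.G e y)⁻¹ i j) b (fun _ => -lam)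
        (fun z => u (e.symm z)) := by
      refine ⟨hto, hinv, hell, hb, continuousOn_const, hv, fun y hy => ?_⟩
      have h3 := hlap _ hv y hy
      rw [heq e hea y hy] at h3
      change ∑ i, ∑ j, (g.G e y)⁻¹ i j * pd i (pd j fun z => u (e.symm z)) y +
        ∑ i, b y i * pd i (fun z => u (e.symm z)) y + -lam * u (e.symm y) = 0
      rw [← h3]
      ring
    obtain ⟨U, hUo, hpU, hU⟩ := h1 n e.target _ b _ _ (e p) hsol hpt (by
      intro U hUo hpU
      refine ⟨(e.target ∩ e.symm ⁻¹' N) ∩ U, inter_subset_right,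
        (e.isOpen_inter_preimage_symm hNo).inter hUo, ?_, fun y hy => hN0 _ hy.1.2⟩
      have h4 : IsOpen (e.source ∩ e ⁻¹' U) := e.isOpen_inter_preimage hUo
      obtain ⟨q, hq1, hq2⟩ := mem_closure_iff.1 hp _ h4 ⟨hps, hpU⟩
      refine ⟨e q, ⟨e.map_source hq1.1, ?_⟩, hq1.2⟩
      change e.symm (e q) ∈ N
      rw [e.left_inv hq1.1]
      exact hq2)
    have h5 : IsOpen (e.source ∩ e ⁻¹' U) := e.isOpen_inter_preimage hUo
    rw [hN]
    refine interior_maximal ?_ h5 ⟨hps, hpU⟩
    intro q hq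
    have h6 : u (e.symm (e q)) = 0 := hU (e q) hq.2
    rw [e.left_inv hq.1] at h6
    exact h6
  have huniv : N = univ := IsClopen.eq_univ ⟨hNc, hNo⟩ hNne
  exact hN0 x (by rw [huniv]; trivial)

end Pool.Agent.R235.FS.PMUC
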