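import Pool.Agent.R235.FS.Stm

/-! FS-MAIN: assembly. -/

set_option autoImplicit false

open MeasureTheory Set Filter Topology
open scoped ContDiff Manifold

namespace Pool.Agent.R235.FS.PMAIN

section
variable {n : ℕ}

theorem pd_contDiffOn {Ω : Set (V n)} (hΩ : IsOpen Ω) {f : V n → ℝ} (hf : ContDiffOn ℝ ∞ f Ω)
    (i : Fin n) : ContDiffOn ℝ ∞ (pd i f) Ω := by
  have h1 : ContDiffOn ℝ ∞ (fun x => fderiv ℝ f x) Ω :=
    hf.fderiv_of_isOpen hΩ (by exact_mod_cast le_rfl)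
  exact h1.clm_apply contDiffOn_const

theorem diffAt {Ω : Set (V n)} (hΩ : IsOpen Ω) {f : V n → ℝ} (hf : ContDiffOn ℝ ∞ f Ω)
    {x : V n} (hx : x ∈ Ω) : DifferentiableAt ℝ f x :=
  (hf.contDiffAt (hΩ.mem_nhds hx)).differentiableAt (by simp)

theorem pd_sum {k : ℕ} {Ω : Set (V n)} (hΩ : IsOpen Ω) {f : Fin k → V n → ℝ}
    (hf : ∀ j, ContDiffOn ℝ ∞ (f j) Ω) (c : Fin k → ℝ) (i : Fin n) {x : V n} (hx : x ∈ Ω) :
    pd i (fun z => ∑ j, c j * f j z) x = ∑ j, c j * pd i (f j) x := by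
  have h1 : HasFDerivAt (fun z => ∑ j, c j * f j z) (∑ j, c j • fderiv ℝ (f j) x) x := by
    have h2 := HasFDerivAt.fun_sum (u := Finset.univ) (A := fun j z => c j * f j z)
      (A' := fun j => c j • fderiv ℝ (f j) x) (x := x)
      fun j _ => ((diffAt hΩ (hf j) hx).hasFDerivAt.const_mul (c j))
    exact h2
  unfold pd
  rw [h1.fderiv]
  simp

theorem pd_congr {Ω : Set (V n)} (hΩ : IsOpen Ω) {f g : V n → ℝ} (h : ∀ x ∈ Ω, f x = g x)
    (i : Fin n) {x : V n} (hx : x ∈ Ω) : pd i f x = pd i g x := by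
  unfold pd
  have : f =ᶠ[𝓝 x] g := Filter.eventually_of_mem (hΩ.mem_nhds hx) h
  rw [this.fderiv_eq]

theorem pd_pd_sum {k : ℕ} {Ω : Set (V n)} (hΩ : IsOpen Ω) {f : Fin k → V n → ℝ}
    (hf : ∀ j, ContDiffOn ℝ ∞ (f j) Ω) (c : Fin k → ℝ) (i l : Fin n) {x : V n} (hx : x ∈ Ω) :
    pd i (pd l (fun z => ∑ j, c j * f j z)) x = ∑ j, c j * pd i (pd l (f j)) x := by
  rw [pd_congr hΩ (g := fun z => ∑ j, c j * pd l (f j) z)
    (fun z hz => pd_sum hΩ hf c l hz) i hx]
  exact pd_sum hΩ (fun j => pd_contDiffOn hΩ (hf j) l) c i hx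

theorem contDiffOn_sum' {k : ℕ} {Ω : Set (V n)} {f : Fin k → V n → ℝ}
    (hf : ∀ j, ContDiffOn ℝ ∞ (f j) Ω) (c : Fin k → ℝ) :
    ContDiffOn ℝ ∞ (fun z => ∑ j, c j * f j z) Ω :=
  ContDiffOn.sum fun j _ => contDiffOn_const.mul (hf j)

theorem alg {k : ℕ} (A : Fin n → Fin n → ℝ) (b : Fin n → ℝ) (c : Fin k → ℝ)
    (P : Fin n → Fin n → Fin k → ℝ) (Q : Fin n → Fin k → ℝ) :
    ∑ i, ∑ l, A i l * ∑ j, c j * P i l j + ∑ i, b i * ∑ j, c j * Q i j =
      ∑ j, c j * (∑ i, ∑ l, A i l * P i l j + ∑ i, b i * Q i j) := by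
  simp only [Finset.mul_sum, mul_add, Finset.sum_add_distrib]
  congr 1
  · calc ∑ i, ∑ l, ∑ j, A i l * (c j * P i l j) = ∑ i, ∑ j, ∑ l, A i l * (c j * P i l j) :=
        Finset.sum_congr rfl fun i _ => Finset.sum_comm
      _ = ∑ j, ∑ i, ∑ l, A i l * (c j * P i l j) := Finset.sum_comm
      _ = _ := Finset.sum_congr rfl fun j _ => Finset.sum_congr rfl fun i _ =>
        Finset.sum_congr rfl fun l _ => by ring
  · calc ∑ i, ∑ j, b i * (c j * Q i j) = ∑ j, ∑ i, b i * (c j * Q i j) := Finset.sum_comm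
      _ = _ := Finset.sum_congr rfl fun j _ => Finset.sum_congr rfl fun i _ => by ring

theorem lap_sum (h3 : S_LAP) {k : ℕ} {Ω : Set (V n)} (hΩ : IsOpen Ω)
    {G : V n → Matrix (Fin n) (Fin n) ℝ} (hG : ∀ i j, ContDiffOn ℝ ∞ (fun x => G x i j) Ω)
    (hp : ∀ x ∈ Ω, (G x).PosDef) {f : Fin k → V n → ℝ} (hf : ∀ j, ContDiffOn ℝ ∞ (f j) Ω)
    (c : Fin k → ℝ) {x : V n} (hx : x ∈ Ω) :
    lap G (fun z => ∑ j, c j * f j z) x = ∑ j, c j * lap G (f j) x := by
  obtain ⟨_, _, b, _, hlap⟩ := h3 n Ω G hΩ hG hp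
  rw [hlap _ (contDiffOn_sum' hf c) x hx]
  have h1 : ∀ j, lap G (f j) x = _ := fun j => hlap (f j) (hf j) x hx
  simp only [h1, pd_pd_sum hΩ hf c _ _ hx, pd_sum hΩ hf c _ hx]
  exact alg (fun i l => (G x)⁻¹ i l) (b x) c (fun i l j => pd i (pd l (f j)) x)
    (fun i j => pd i (f j) x)

end

section
variable {n : ℕ} {M : Type} [TopologicalSpace M] [ChartedSpace (V n) M]
  [IsManifold 𝓘(ℝ, V n) ∞ M]

theorem chart_smooth {u : M → ℝ} (hu : ContMDiff 𝓘(ℝ, V n) 𝓘(ℝ, ℝ) ∞ u)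
    {e : OpenPartialHomeomorph M (V n)} (he : e ∈ atlas (V n) M) :
    ContDiffOn ℝ ∞ (fun z => u (e.symm z)) e.target := by
  have h1 : ContMDiffOn 𝓘(ℝ, V n) 𝓘(ℝ, V n) ∞ e.symm e.target :=
    contMDiffOn_symm_of_mem_maximalAtlas (IsManifold.subset_maximalAtlas he)
  have h2 := hu.comp_contMDiffOn h1
  exact contMDiffOn_iff_contDiffOn.1 h2

theorem isEig_sum (h3 : S_LAP) {g : RMet n M} {lam : ℝ} {k : ℕ} {u : Fin k → M → ℝ}
    (hu : ∀ j, IsEig g lam (u j)) (c : Fin k → ℝ) :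
    IsEig g lam (fun x => ∑ j, c j * u j x) := by
  refine ⟨?_, fun e he y hy => ?_⟩
  · exact ContMDiff.sum fun j _ => contMDiff_const.mul (hu j).1
  · have h1 := lap_sum h3 e.open_target (g.smooth e he) (g.posDef e he)
      (f := fun j z => u j (e.symm z)) (fun j => chart_smooth (hu j).1 he) c hy
    rw [h1, Finset.mul_sum]
    refine Finset.sum_congr rfl fun j _ => ?_
    rw [(hu j).2 e he y hy]
    ring

variable [ConnectedSpace M]

theorem aux (h1 : S_LOC) (h2 : S_MUC) (h3 : S_LAP) {g : RMet n M} {lam : ℝ} {k : ℕ} (hk : 1 ≤ k)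
    {u : Fin k → M → ℝ} (hu : ∀ j, IsEig g lam (u j)) (hli : LinearIndependent ℝ u)
    {δ : Fin k → ℝ} (hδ : ∀ j, δ j = 1 ∨ δ j = -1)
    (hc : (Finset.univ.filter fun j => δ j = 1).card ≤ 3) (h0 : ∀ x, ∑ j, δ j * u j x ^ 2 = 0)
    (hd : ∀ e ∈ atlas (V n) M, ∀ y ∈ e.target, ∀ i l,
      ∑ j, δ j * (pd i (fun z => u j (e.symm z)) y * pd l (fun z => u j (e.symm z)) y) = 0) :
    False := by
  obtain ⟨x0⟩ : Nonempty M := inferInstance
  obtain ⟨e, he'⟩ : ∃ e, e = chartAt (V n) x0 := ⟨_, rfl⟩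
  have he : e ∈ atlas (V n) M := by rw [he']; exact chart_mem_atlas _ _
  have hx0 : x0 ∈ e.source := by rw [he']; exact mem_chart_source _ _
  obtain ⟨_, hell, b, _, hlap⟩ := h3 n e.target (g.G e) e.open_target (g.smooth e he)
    (g.posDef e he)
  have hsm : ∀ j, ContDiffOn ℝ ∞ (fun z => u j (e.symm z)) e.target :=
    fun j => chart_smooth (hu j).1 he
  obtain ⟨O, c, hO, hOn, hOt, hc0, hz⟩ := h1 n k e.target δ (fun j z => u j (e.symm z))
    (fun x i j => (g.G e x)⁻¹ i j) b lam e.open_target ⟨e x0, e.map_source hx0⟩ hk hsm hδ hc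
    (fun x _ => by
      have := h0 (e.symm x)
      simp only [B, vz]
      rw [← this]
      exact Finset.sum_congr rfl fun j _ => by ring)
    (fun x hx i l => hd e he x hx i l) hell
    (fun x hx => by
      funext j
      have h4 := hlap (fun z => u j (e.symm z)) (hsm j) x hx
      rw [(hu j).2 e he x hx] at h4
      simp only [Pi.add_apply, Finset.sum_apply, Pi.smul_apply, smul_eq_mul, vh, vd, vz]
      exact h4.symm)
  have hv := isEig_sum h3 hu c
  obtain ⟨y, hy⟩ := hOn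
  have h5 := h2 n M g lam _ hv ⟨e.source ∩ e ⁻¹' O, e.isOpen_inter_preimage hO,
    ⟨e.symm y, e.map_target (hOt hy), by rw [mem_preimage, e.right_inv (hOt hy)]; exact hy⟩,
    fun x hx => by
      have h6 := hz (e x) hx.2
      simp only [e.left_inv hx.1] at h6
      exact h6⟩
  apply hc0
  funext j
  refine Fintype.linearIndependent_iff.1 hli c ?_ j
  funext x
  simp only [Finset.sum_apply, Pi.smul_apply, smul_eq_mul, Pi.zero_apply]
  exact h5 x

end

theorem t_MAIN (h1 : S_LOC) (h2 : S_MUC) (h3 : S_LAP) : S_MAIN := by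
  intro n M _ _ _ _ _ _ g lam hdeg
  obtain ⟨-, -, k, u, ε, hk, hu, hli, hε, h0, hd⟩ := hdeg
  by_cases hp : (Finset.univ.filter fun j => ε j = 1).card ≤ 3
  · exact (aux h1 h2 h3 hk hu hli hε hp h0 hd).elim
  by_cases hq : (Finset.univ.filter fun j => -ε j = 1).card ≤ 3
  · refine (aux h1 h2 h3 hk hu hli (δ := fun j => -ε j) (fun j => ?_) hq (fun x => ?_)
      fun e he y hy i l => ?_).elim
    · rcases hε j with h | h
      · right; rw [h]
      · left; rw [h]; norm_num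
    · simp only [neg_mul, Finset.sum_neg_distrib, h0 x, neg_zero]
    · simp only [neg_mul, Finset.sum_neg_distrib, hd e he y hy i l, neg_zero]
  push Not at hp hq
  have hk8 : 8 ≤ k := by
    have hdis : Disjoint (Finset.univ.filter fun j => ε j = 1)
        (Finset.univ.filter fun j => -ε j = 1) := by
      rw [Finset.disjoint_left]
      intro j hj hj'
      simp only [Finset.mem_filter, Finset.mem_univ, true_and] at hj hj'
      rw [hj] at hj'
      norm_num at hj'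
    have h4 := Finset.card_le_univ ((Finset.univ.filter fun j => ε j = 1) ∪
      (Finset.univ.filter fun j => -ε j = 1))
    rw [Finset.card_union_of_disjoint hdis, Fintype.card_fin] at h4
    omega
  have hmem : ∀ j, u j ∈ Eig g lam := fun j => Submodule.subset_span (hu j)
  have hli' : LinearIndependent ℝ (fun j => (⟨u j, hmem j⟩ : Eig g lam)) := by
    apply LinearIndependent.of_comp (Eig g lam).subtype
    exact hli
  have h5 := hli'.cardinal_le_rank
  refine le_trans ?_ h5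
  rw [Cardinal.mk_fin]
  exact_mod_cast hk8

end Pool.Agent.R235.FS.PMAIN

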