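import Pool.Agent.R235.FS.Stm

/-!
# FS-U1: unique continuation across a sphere from the Carleman inequality
-/

set_option autoImplicit false

open MeasureTheory Set Filter Topology
open scoped ContDiff Manifold

namespace Pool.Agent.R235.FS.PU1

open Pool.Agent.R235.FS

variable {n : ℕ}

theorem cd_pd {f : V n → ℝ} (hf : ContDiff ℝ ∞ f) (i : Fin n) : ContDiff ℝ ∞ (pd i f) := by
  unfold pd
  exact (hf.fderiv_right (m := ∞) (by simp)).clm_apply contDiff_const

theorem pd_congr {f g : V n → ℝ} {x : V n} (h : f =ᶠ[𝓝 x] g) (i : Fin n) :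
    pd i f x = pd i g x := by
  unfold pd
  rw [h.fderiv_eq]

theorem pd_ev {f g : V n → ℝ} {x : V n} (h : f =ᶠ[𝓝 x] g) (i : Fin n) :
    pd i f =ᶠ[𝓝 x] pd i g := by
  filter_upwards [h.fderiv (𝕜 := ℝ)] with y hy
  unfold pd
  rw [hy]

theorem pd_zero (i : Fin n) : pd i (fun _ : V n => (0 : ℝ)) = fun _ => 0 := by
  funext x
  unfold pd
  simp

theorem pd_mul {f g : V n → ℝ} {x : V n} (hf : DifferentiableAt ℝ f x)
    (hg : DifferentiableAt ℝ g x) (i : Fin n) :
    pd i (fun y => f y * g y) x = f x * pd i g x + pd i f x * g x := by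
  unfold pd
  rw [fderiv_fun_mul hf hg]
  simp only [add_apply, smul_apply, smul_eq_mul]
  ring

theorem pd_sum {ι : Type} (s : Finset ι) {f : ι → V n → ℝ} {x : V n}
    (h : ∀ j ∈ s, DifferentiableAt ℝ (f j) x) (i : Fin n) :
    pd i (fun y => ∑ j ∈ s, f j y) x = ∑ j ∈ s, pd i (f j) x := by
  unfold pd
  rw [fderiv_fun_sum h]
  simp

theorem Pa_zero (a : V n → Fin n → Fin n → ℝ) {w : V n → ℝ} {x : V n}
    (h : w =ᶠ[𝓝 x] fun _ => 0) : Pa a w x = 0 := by
  unfold Pa
  apply Finset.sum_eq_zero
  intro i _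
  have h1 : (fun y => ∑ j, a y i j * pd j w y) =ᶠ[𝓝 x] fun _ => 0 := by
    have h2 : ∀ j : Fin n, pd j w =ᶠ[𝓝 x] fun _ => 0 := by
      intro j
      have := pd_ev h j
      rwa [pd_zero] at this
    have h3 : ∀ᶠ y in 𝓝 x, ∀ j : Fin n, pd j w y = 0 := by
      rw [eventually_all]
      exact h2
    filter_upwards [h3] with y hy
    apply Finset.sum_eq_zero
    intro j _
    rw [hy j, mul_zero]
  rw [pd_congr h1, pd_zero]

theorem Pa_expand {A : V n → Fin n → Fin n → ℝ} (hA : ∀ i j, ContDiff ℝ ∞ fun x => A x i j)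
    {w : V n → ℝ} (hw : ContDiff ℝ ∞ w) (x : V n) :
    Pa A w x = ∑ i, ∑ j, (A x i j * pd i (pd j w) x + pd i (fun y => A y i j) x * pd j w x) := by
  unfold Pa
  apply Finset.sum_congr rfl
  intro i _
  have hd : ∀ j, DifferentiableAt ℝ (fun y => A y i j) x := fun j =>
    (hA i j).differentiable (by simp) x
  have hd' : ∀ j, DifferentiableAt ℝ (pd j w) x := fun j =>
    (cd_pd hw j).differentiable (by simp) x
  rw [pd_sum Finset.univ (f := fun j y => A y i j * pd j w y)
    (fun j _ => (hd j).mul (hd' j)) i]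
  apply Finset.sum_congr rfl
  intro j _
  exact pd_mul (hd j) (hd' j) i

theorem cont_Pa {A : V n → Fin n → Fin n → ℝ} (hA : ∀ i j, ContDiff ℝ ∞ fun x => A x i j)
    {w : V n → ℝ} (hw : ContDiff ℝ ∞ w) : Continuous (Pa A w) := by
  have h : Pa A w = fun x => ∑ i, ∑ j, (A x i j * pd i (pd j w) x +
      pd i (fun y => A y i j) x * pd j w x) := by
    funext x
    exact Pa_expand hA hw x
  rw [h]
  refine continuous_finsetSum _ fun i _ => continuous_finsetSum _ fun j _ => ?_
  exact ((hA i j).continuous.mul (cd_pd (cd_pd hw j) i).continuous).add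
    ((cd_pd (hA i j) i).continuous.mul (cd_pd hw j).continuous)

theorem cut_smooth {χ f : V n → ℝ} {Ω : Set (V n)} (hΩ : IsOpen Ω) (hχ : ContDiff ℝ ∞ χ)
    (hs : tsupport χ ⊆ Ω) (hf : ContDiffOn ℝ ∞ f Ω) : ContDiff ℝ ∞ (fun x => χ x * f x) := by
  rw [contDiff_iff_contDiffAt]
  intro x
  by_cases hx : x ∈ Ω
  · exact hχ.contDiffAt.mul (hf.contDiffAt (hΩ.mem_nhds hx))
  · have h1 : χ =ᶠ[𝓝 x] 0 := notMem_tsupport_iff_eventuallyEq.mp (fun h => hx (hs h))
    have h2 : (fun x => χ x * f x) =ᶠ[𝓝 x] fun _ => 0 := by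
      filter_upwards [h1] with y hy
      rw [hy, Pi.zero_apply, zero_mul]
    exact contDiffAt_const.congr_of_eventuallyEq h2

theorem sq_ident (x x1 y : V n) : 2 * sq (x - (fun i => (y i + x1 i) / 2)) =
    sq (x - x1) + sq (x1 - y) / 2 + (sq (x - y) - sq (x1 - y)) := by
  unfold sq
  rw [Finset.mul_sum, Finset.sum_div, ← Finset.sum_sub_distrib, ← Finset.sum_add_distrib,
    ← Finset.sum_add_distrib]
  apply Finset.sum_congr rfl
  intro i _
  simp only [Pi.sub_apply]
  ring

theorem cd_sq (z : V n) : ContDiff ℝ ∞ (fun x : V n => sq (x - z)) := by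
  unfold sq
  refine ContDiff.sum fun i _ => ?_
  exact ((contDiff_apply ℝ ℝ i).sub contDiff_const).pow 2

theorem pd_psi (z x : V n) (i : Fin n) :
    pd i (fun x : V n => -sq (x - z)) x = -(2 * (x i - z i)) := by
  have h1 : ∀ j : Fin n, HasFDerivAt (fun x : V n => (x j - z j) ^ 2)
      ((2 * (x j - z j)) • (ContinuousLinearMap.proj j : V n →L[ℝ] ℝ)) x := by
    intro j
    have h2 := ((hasFDerivAt_apply (𝕜 := ℝ) j x).sub_const (z j)).pow 2
    simpa using h2
  have h3 : HasFDerivAt (fun x : V n => -sq (x - z))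
      (-(∑ j : Fin n, (2 * (x j - z j)) • (ContinuousLinearMap.proj j : V n →L[ℝ] ℝ))) x := by
    unfold sq
    exact (HasFDerivAt.fun_sum fun j _ => h1 j).neg
  unfold pd
  rw [h3.fderiv]
  simp only [neg_apply, sum_apply,
    smul_apply, ContinuousLinearMap.proj_apply, smul_eq_mul]
  rw [Finset.sum_eq_single i]
  · simp
  · intro j _ hj
    simp [Pi.single_eq_of_ne hj]
  · intro h
    exact absurd (Finset.mem_univ i) h

theorem absorb {K : Set (V n)} (hK : IsCompact K) {w g p φ : V n → ℝ} (hw : Continuous w)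
    (hg : Continuous g) (hp : Continuous p) (hφ : Continuous φ) (hw0 : ∀ x, x ∉ K → w x = 0)
    (hg0 : ∀ x, x ∉ K → g x = 0) (hp0 : ∀ x, x ∉ K → p x = 0) (hgn : ∀ x, 0 ≤ g x)
    {c τ0 C1 C2 M1 M2 δ : ℝ} {x1 : V n} (hc : 0 < c) (hC1 : 0 ≤ C1) (hC2 : 0 ≤ C2)
    (h12 : M1 < M2)
    (hpt : ∀ x, p x ^ 2 ≤ C1 * (w x ^ 2 + g x) ∨ (x ∈ K ∧ p x ^ 2 ≤ C2 ∧ φ x ≤ M1))
    (hball : ∀ x ∈ Metric.ball x1 δ, M2 ≤ φ x)
    (hcw : ∀ τ, τ0 ≤ τ → c * ∫ x, Real.exp (2 * τ * φ x) * (τ ^ 3 * w x ^ 2 + τ * g x) ≤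
      ∫ x, Real.exp (2 * τ * φ x) * p x ^ 2) :
    ∀ x ∈ Metric.ball x1 δ, w x = 0 := by
  classical
  set J := ∫ x in Metric.ball x1 δ, w x ^ 2 with hJ
  have hwint : Integrable (fun x => w x ^ 2) := by
    refine (hw.pow 2).integrable_of_hasCompactSupport ?_
    exact HasCompactSupport.intro hK (fun x hx => by
      show w x ^ 2 = 0
      rw [hw0 x hx]
      ring)
  have hJ0 : 0 ≤ J := integral_nonneg fun x => sq_nonneg _
  have hmain : ∀ τ, max τ0 (max 1 (2 * C1 / c)) ≤ τ →
      J ≤ (2 / c * C2 * volume.real K) * Real.exp (-(2 * (M2 - M1)) * τ) := by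
    intro τ hτ
    have hτ0 : τ0 ≤ τ := (le_max_left _ _).trans hτ
    have hτ1 : 1 ≤ τ := ((le_max_left _ _).trans (le_max_right _ _)).trans hτ
    have hτ2 : 2 * C1 / c ≤ τ := ((le_max_right _ _).trans (le_max_right _ _)).trans hτ
    have hτ2' : 2 * C1 ≤ τ * c := by rwa [div_le_iff₀ hc] at hτ2
    have hτ3 : τ ≤ τ ^ 3 := by
      have h1 : 1 ≤ τ ^ 2 := one_le_pow₀ hτ1
      nlinarith
    have hEc : Continuous fun x => Real.exp (2 * τ * φ x) :=
      Real.continuous_exp.comp (continuous_const.mul hφ)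
    have hF : Integrable (fun x => Real.exp (2 * τ * φ x) * (τ ^ 3 * w x ^ 2 + τ * g x)) := by
      refine Continuous.integrable_of_hasCompactSupport ?_ ?_
      · exact hEc.mul ((continuous_const.mul (hw.pow 2)).add (continuous_const.mul hg))
      · exact HasCompactSupport.intro hK (fun x hx => by rw [hw0 x hx, hg0 x hx]; ring)
    have hG : Integrable (fun x => Real.exp (2 * τ * φ x) * p x ^ 2) := by
      refine Continuous.integrable_of_hasCompactSupport ?_ ?_
      · exact hEc.mul (hp.pow 2)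
      · exact HasCompactSupport.intro hK (fun x hx => by rw [hp0 x hx]; ring)
    have hH : Integrable (K.indicator fun _ : V n => C2 * Real.exp (2 * τ * M1)) := by
      rw [integrable_indicator_iff hK.measurableSet]
      exact integrableOn_const (hK.measure_lt_top.ne)
    have hFn : ∀ x, 0 ≤ Real.exp (2 * τ * φ x) * (τ ^ 3 * w x ^ 2 + τ * g x) := by
      intro x
      have := hgn x
      positivity
    have hpw : ∀ x, Real.exp (2 * τ * φ x) * p x ^ 2 ≤
        c / 2 * (Real.exp (2 * τ * φ x) * (τ ^ 3 * w x ^ 2 + τ * g x)) +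
          K.indicator (fun _ : V n => C2 * Real.exp (2 * τ * M1)) x := by
      intro x
      have hind : 0 ≤ K.indicator (fun _ : V n => C2 * Real.exp (2 * τ * M1)) x :=
        indicator_nonneg (fun _ _ => by positivity) x
      rcases hpt x with h | ⟨hx, h, h'⟩
      · have h1 : p x ^ 2 ≤ c / 2 * (τ ^ 3 * w x ^ 2 + τ * g x) := by
          have h2 : C1 * (w x ^ 2 + g x) ≤ c / 2 * τ * (w x ^ 2 + g x) :=
            mul_le_mul_of_nonneg_right (by linarith) (by have := hgn x; positivity)
          have h3 : τ * w x ^ 2 ≤ τ ^ 3 * w x ^ 2 :=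
            mul_le_mul_of_nonneg_right hτ3 (sq_nonneg _)
          have h4 : c / 2 * (τ * w x ^ 2) ≤ c / 2 * (τ ^ 3 * w x ^ 2) :=
            mul_le_mul_of_nonneg_left h3 (by positivity)
          nlinarith
        have h5 := mul_le_mul_of_nonneg_left h1 (Real.exp_pos (2 * τ * φ x)).le
        linarith
      · rw [indicator_of_mem hx]
        have h1 : Real.exp (2 * τ * φ x) ≤ Real.exp (2 * τ * M1) := by
          apply Real.exp_le_exp.mpr
          exact mul_le_mul_of_nonneg_left h' (by positivity)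
        have h2 : Real.exp (2 * τ * φ x) * p x ^ 2 ≤ Real.exp (2 * τ * M1) * C2 :=
          mul_le_mul h1 h (sq_nonneg _) (Real.exp_pos _).le
        have h3 := hFn x
        have h4 : 0 ≤ c / 2 * (Real.exp (2 * τ * φ x) * (τ ^ 3 * w x ^ 2 + τ * g x)) := by
          positivity
        linarith
    have h1 := hcw τ hτ0
    have h2 : ∫ x, Real.exp (2 * τ * φ x) * p x ^ 2 ≤
        c / 2 * (∫ x, Real.exp (2 * τ * φ x) * (τ ^ 3 * w x ^ 2 + τ * g x)) +
          volume.real K * (C2 * Real.exp (2 * τ * M1)) := by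
      have h3 := integral_mono hG ((hF.const_mul (c / 2)).add hH) hpw
      refine h3.trans (le_of_eq ?_)
      have h4 := integral_add (hF.const_mul (c / 2)) hH
      refine h4.trans ?_
      rw [integral_const_mul, integral_indicator hK.measurableSet, setIntegral_const, smul_eq_mul]
    have h3 : Real.exp (2 * τ * M2) * J ≤
        ∫ x, Real.exp (2 * τ * φ x) * (τ ^ 3 * w x ^ 2 + τ * g x) := by
      refine le_trans ?_ (setIntegral_le_integral (s := Metric.ball x1 δ) hF
        (Eventually.of_forall hFn))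
      rw [hJ, ← integral_const_mul]
      refine setIntegral_mono_on (hwint.const_mul _).integrableOn hF.integrableOn
        Metric.isOpen_ball.measurableSet ?_
      intro x hx
      have e1 : Real.exp (2 * τ * M2) ≤ Real.exp (2 * τ * φ x) := by
        apply Real.exp_le_exp.mpr
        exact mul_le_mul_of_nonneg_left (hball x hx) (by positivity)
      have e2 : w x ^ 2 ≤ τ ^ 3 * w x ^ 2 + τ * g x := by
        have h1 : 1 ≤ τ ^ 3 := one_le_pow₀ hτ1
        have h2 : 0 ≤ τ * g x := mul_nonneg (by positivity) (hgn x)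
        nlinarith [sq_nonneg (w x)]
      exact mul_le_mul e1 e2 (sq_nonneg _) (Real.exp_pos _).le
    set I := ∫ x, Real.exp (2 * τ * φ x) * (τ ^ 3 * w x ^ 2 + τ * g x) with hI
    have h4 : c / 2 * I ≤ volume.real K * (C2 * Real.exp (2 * τ * M1)) := by linarith
    have h5 : Real.exp (2 * τ * M2) * J ≤
        (2 / c * C2 * volume.real K) * Real.exp (2 * τ * M1) := by
      refine h3.trans ?_
      have h6 : I = 2 / c * (c / 2 * I) := by field_simp
      rw [h6]
      have h7 := mul_le_mul_of_nonneg_left h4 (show (0 : ℝ) ≤ 2 / c by positivity)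
      refine h7.trans (le_of_eq ?_)
      ring
    have h6 : Real.exp (-(2 * (M2 - M1)) * τ) = Real.exp (2 * τ * M1) / Real.exp (2 * τ * M2) := by
      rw [← Real.exp_sub]
      congr 1
      ring
    rw [h6, ← mul_div_assoc, le_div_iff₀ (Real.exp_pos _), mul_comm J]
    exact h5
  have hlim : Tendsto (fun τ : ℝ => (2 / c * C2 * volume.real K) *
      Real.exp (-(2 * (M2 - M1)) * τ)) atTop (𝓝 0) := by
    have h1 : Tendsto (fun τ : ℝ => -(2 * (M2 - M1)) * τ) atTop atBot := by
      refine (tendsto_const_mul_atBot_of_neg ?_).mpr tendsto_id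
      linarith
    have h2 := (Real.tendsto_exp_atBot.comp h1).const_mul (2 / c * C2 * volume.real K)
    rw [mul_zero] at h2
    exact h2
  have hJle : J ≤ 0 := ge_of_tendsto hlim (eventually_atTop.mpr ⟨_, hmain⟩)
  have hJz : J = 0 := le_antisymm hJle hJ0
  have h1 : (fun x => w x ^ 2) =ᵐ[volume.restrict (Metric.ball x1 δ)] 0 :=
    (integral_eq_zero_iff_of_nonneg (fun x => sq_nonneg (w x)) hwint.integrableOn).mp hJz
  have h2 := Measure.eqOn_open_of_ae_eq h1 Metric.isOpen_ball (hw.pow 2).continuousOn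
    continuous_zero.continuousOn
  intro x hx
  have h3 := h2 hx
  exact pow_eq_zero_iff two_ne_zero |>.mp h3

theorem t_U1 (h : S_CW) : S_U1 := by
  intro n Ω a b c u x1 y hS hx1 hR hvan
  classical
  obtain ⟨hΩ, hsa, hell, hsb, hsc, hsu, heq⟩ := hS
  set y' : V n := fun i => (y i + x1 i) / 2 with hy'
  have hy'ne : x1 ≠ y' := by
    intro hh
    have hi : ∀ i, x1 i = y i := by
      intro i
      have := congrFun hh i
      simp only [hy'] at this
      linarith
    have h0 : x1 - y = 0 := by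
      funext i
      simp [hi i]
    rw [h0] at hR
    simp [sq] at hR
  obtain ⟨e0, he0, hball0⟩ := Metric.isOpen_iff.mp hΩ x1 hx1
  have hdpos : 0 < dist x1 y' := dist_pos.mpr hy'ne
  obtain ⟨e, he, he1, he2⟩ : ∃ e : ℝ, 0 < e ∧ 2 * e < e0 ∧ e < dist x1 y' := by
    refine ⟨min (e0 / 4) (dist x1 y' / 2), lt_min (by positivity) (by positivity), ?_, ?_⟩
    · have := min_le_left (e0 / 4) (dist x1 y' / 2)
      linarith
    · have := min_le_right (e0 / 4) (dist x1 y' / 2)
      linarith
  have hK2Ω : Metric.closedBall x1 (2 * e) ⊆ Ω :=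
    (Metric.closedBall_subset_ball he1).trans hball0
  have hKΩ : Metric.closedBall x1 e ⊆ Ω :=
    (Metric.closedBall_subset_closedBall (by linarith)).trans hK2Ω
  set K := Metric.closedBall x1 e with hKdef
  have hK : IsCompact K := isCompact_closedBall _ _
  let χ1 : ContDiffBump x1 := ⟨e, 2 * e, he, by linarith⟩
  let χ : ContDiffBump x1 := ⟨e / 2, e, by positivity, by linarith⟩
  have hχ1s : tsupport χ1 ⊆ Ω := by
    rw [χ1.tsupport_eq]
    exact hK2Ω
  have hχs : tsupport χ = K := χ.tsupport_eq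
  set A : V n → Fin n → Fin n → ℝ := fun x i j => χ1 x * a x i j with hA
  have hAs : ∀ i j, ContDiff ℝ ∞ fun x => A x i j := fun i j =>
    cut_smooth hΩ χ1.contDiff hχ1s (hsa i j)
  have hAK : ∀ x ∈ K, ∀ i j, A x i j = a x i j := by
    intro x hx i j
    have h1 : χ1 x = 1 := χ1.one_of_mem_closedBall hx
    simp only [hA]
    rw [h1, one_mul]
  have hSm : SmS A := by
    refine ⟨hAs, fun x i j => ?_⟩
    by_cases hx : x ∈ Ω
    · simp only [hA]
      rw [(hell x hx).1 i j]
    · have h1 : χ1 x = 0 := image_eq_zero_of_notMem_tsupport (fun hh => hx (hχ1s hh))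
      simp only [hA]
      rw [h1, zero_mul, zero_mul]
  set w : V n → ℝ := fun x => χ x * u x with hwdef
  have hw : ContDiff ℝ ∞ w := cut_smooth hΩ χ.contDiff (by rw [hχs]; exact hKΩ) hsu
  have hwK : tsupport w ⊆ K := by
    rw [← hχs]
    exact tsupport_mul_subset_left
  set ψ : V n → ℝ := fun x => -sq (x - y') with hψdef
  have hψ : ContDiff ℝ ∞ ψ := (cd_sq y').neg
  have hψ1 : ∀ x ∈ K, ∃ i, pd i ψ x ≠ 0 := by
    intro x hx
    by_contra hcon
    push Not at hcon
    have hxy : x = y' := by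
      funext i
      have h1 := hcon i
      rw [hψdef, pd_psi] at h1
      linarith
    rw [hxy, hKdef, Metric.mem_closedBall, dist_comm] at hx
    linarith
  obtain ⟨s, c', τ0, hs, hc', hτ0, hcw⟩ := h n A ψ K hSm hψ hK (fun x hx => by
    have hAx : A x = a x := by
      funext i j
      exact hAK x hx i j
    rw [hAx]
    exact hell x (hKΩ hx)) hψ1
  have hw0ev : ∀ x, x ∉ K → w =ᶠ[𝓝 x] fun _ => 0 := fun x hx =>
    notMem_tsupport_iff_eventuallyEq.mp (fun hh => hx (hwK hh))
  set g : V n → ℝ := fun x => ∑ i, pd i w x ^ 2 with hgdef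
  have hg : Continuous g := continuous_finsetSum _ fun i _ => (cd_pd hw i).continuous.pow 2
  have hgn : ∀ x, 0 ≤ g x := fun x => Finset.sum_nonneg fun i _ => sq_nonneg _
  have hp : Continuous (Pa A w) := cont_Pa hAs hw
  -- the constants
  have hκ : ∀ j, ContinuousOn (fun x => ∑ i, pd i (fun y => A y i j) x - b x j) K := by
    intro j
    exact (continuous_finsetSum _ fun i _ => (cd_pd (hAs i j) i).continuous).continuousOn.sub
      ((hsb j).mono hKΩ)
  obtain ⟨C1, hC1⟩ := hK.exists_bound_of_continuousOn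
    (f := fun x => 2 * (∑ j, (∑ i, pd i (fun y => A y i j) x - b x j) ^ 2 + c x ^ 2))
    (continuousOn_const.mul ((continuousOn_finsetSum _ fun j _ => (hκ j).pow 2).add
      ((hsc.mono hKΩ).pow 2)))
  obtain ⟨C2, hC2⟩ := hK.exists_bound_of_continuousOn (f := fun x => Pa A w x ^ 2)
    (hp.pow 2).continuousOn
  have hx1K : x1 ∈ K := Metric.mem_closedBall_self he.le
  have hC1n : 0 ≤ C1 := (norm_nonneg _).trans (hC1 x1 hx1K)
  have hC2n : 0 ≤ C2 := (norm_nonneg _).trans (hC2 x1 hx1K)
  set R2 := sq (x1 - y) with hR2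
  set m1 := -(R2 / 4 + e ^ 2 / 8) with hm1
  set m2 := -(R2 / 4 + e ^ 2 / 16) with hm2
  have hm12 : m1 < m2 := by
    rw [hm1, hm2]
    have : 0 < e ^ 2 := by positivity
    linarith
  have hψx1 : m2 < ψ x1 := by
    have h1 := sq_ident x1 x1 y
    have h2 : sq (x1 - x1) = 0 := by simp [sq]
    rw [h2] at h1
    simp only [hψdef]
    have : 0 < e ^ 2 := by positivity
    rw [← hy', ← hR2] at h1
    rw [hm2]
    linarith
  obtain ⟨δ0, hδ0, hδ0'⟩ := Metric.isOpen_iff.mp (isOpen_lt continuous_const hψ.continuous) x1 hψx1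
  -- pointwise bound
  have hpt : ∀ x, Pa A w x ^ 2 ≤ C1 * (w x ^ 2 + g x) ∨
      (x ∈ K ∧ Pa A w x ^ 2 ≤ C2 ∧ Real.exp (s * ψ x) ≤ Real.exp (s * m1)) := by
    intro x
    have hrhs : 0 ≤ C1 * (w x ^ 2 + g x) := mul_nonneg hC1n (by have := hgn x; positivity)
    by_cases hx : x ∈ K
    swap
    · left
      rw [Pa_zero A (hw0ev x hx)]
      simpa using hrhs
    by_cases hb : x ∈ Metric.ball x1 (e / 2)
    · left
      have hwu : w =ᶠ[𝓝 x] u := by
        filter_upwards [Metric.isOpen_ball.mem_nhds hb] with z hz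
        have h1 : χ z = 1 := χ.one_of_mem_closedBall (Metric.ball_subset_closedBall hz)
        simp only [hwdef]
        rw [h1, one_mul]
      have hPa : Pa A w x =
          (∑ j, (∑ i, pd i (fun y => A y i j) x - b x j) * pd j w x) - c x * w x := by
        rw [Pa_expand hAs hw x]
        simp only [Finset.sum_add_distrib]
        have h1 : ∑ i, ∑ j, A x i j * pd i (pd j w) x =
            ∑ i, ∑ j, a x i j * pd i (pd j u) x := by
          apply Finset.sum_congr rfl
          intro i _
          apply Finset.sum_congr rfl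
          intro j _
          rw [hAK x hx i j, pd_congr (pd_ev hwu j) i]
        have h2 := heq x (hKΩ hx)
        have h3 : ∑ i, b x i * pd i u x = ∑ i, b x i * pd i w x := by
          apply Finset.sum_congr rfl
          intro i _
          rw [pd_congr hwu i]
        have h4 : u x = w x := hwu.self_of_nhds.symm
        have h5 : ∑ i, ∑ j, pd i (fun y => A y i j) x * pd j w x =
            ∑ j, (∑ i, pd i (fun y => A y i j) x) * pd j w x := by
          rw [Finset.sum_comm]
          apply Finset.sum_congr rfl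
          intro j _
          rw [Finset.sum_mul]
        have h6 : ∑ j, (∑ i, pd i (fun y => A y i j) x - b x j) * pd j w x =
            ∑ j, (∑ i, pd i (fun y => A y i j) x) * pd j w x - ∑ j, b x j * pd j w x := by
          rw [← Finset.sum_sub_distrib]
          apply Finset.sum_congr rfl
          intro j _
          ring
        rw [h1, h5, h6]
        rw [h3, h4] at h2
        linarith
      have hcs := Finset.sum_mul_sq_le_sq_mul_sq Finset.univ
        (fun j => ∑ i, pd i (fun y => A y i j) x - b x j) (fun j => pd j w x)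
      have hC1x := (le_abs_self _).trans (hC1 x hx)
      set P := ∑ j, (∑ i, pd i (fun y => A y i j) x - b x j) ^ 2 with hP
      have hPn : 0 ≤ P := Finset.sum_nonneg fun j _ => sq_nonneg _
      rw [hPa]
      set Q := ∑ j, (∑ i, pd i (fun y => A y i j) x - b x j) * pd j w x with hQ
      have hQ2 : Q ^ 2 ≤ P * g x := hcs
      have h1 : (Q - c x * w x) ^ 2 ≤ 2 * (P * g x) + 2 * (c x ^ 2 * w x ^ 2) := by
        nlinarith [sq_nonneg (Q + c x * w x)]
      have h2 : 2 * (P * g x) + 2 * (c x ^ 2 * w x ^ 2) ≤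
          2 * (P + c x ^ 2) * (w x ^ 2 + g x) := by
        have e1 : 0 ≤ P * w x ^ 2 := by positivity
        have e2 : 0 ≤ c x ^ 2 * g x := mul_nonneg (sq_nonneg _) (hgn x)
        nlinarith
      have h3 : 2 * (P + c x ^ 2) * (w x ^ 2 + g x) ≤ C1 * (w x ^ 2 + g x) :=
        mul_le_mul_of_nonneg_right hC1x (by have := hgn x; positivity)
      linarith
    · by_cases hp0 : Pa A w x = 0
      · left
        rw [hp0]
        simpa using hrhs
      · right
        refine ⟨hx, (le_abs_self _).trans (hC2 x hx), ?_⟩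
        apply Real.exp_le_exp.mpr
        refine mul_le_mul_of_nonneg_left ?_ hs.le
        have h1 : sq (x1 - y) ≤ sq (x - y) := by
          by_contra hlt
          push Not at hlt
          apply hp0
          apply Pa_zero
          have hop : IsOpen {z : V n | sq (z - y) < sq (x1 - y)} :=
            isOpen_lt (cd_sq y).continuous continuous_const
          filter_upwards [hop.mem_nhds hlt, hΩ.mem_nhds (hKΩ hx)] with z hz hzΩ
          simp only [hwdef]
          rw [hvan z hzΩ hz, mul_zero]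
        have h2 : e ^ 2 / 4 ≤ sq (x - x1) := by
          rw [Metric.mem_ball, dist_pi_lt_iff (by positivity)] at hb
          push Not at hb
          obtain ⟨i, hi⟩ := hb
          have h3 : (x i - x1 i) ^ 2 ≤ sq (x - x1) := by
            unfold sq
            exact Finset.single_le_sum (f := fun i => (x - x1) i ^ 2)
              (fun j _ => sq_nonneg _) (Finset.mem_univ i)
          have h4 : (e / 2) ^ 2 ≤ (x i - x1 i) ^ 2 := by
            rw [Real.dist_eq] at hi
            rw [← sq_abs (x i - x1 i)]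
            exact pow_le_pow_left₀ (by positivity) hi 2
          nlinarith
        have h3 := sq_ident x x1 y
        rw [← hy'] at h3
        simp only [hψdef]
        rw [hm1]
        linarith
  have key := absorb hK hw.continuous hg hp
    (Real.continuous_exp.comp (continuous_const.mul hψ.continuous) :
      Continuous fun x => Real.exp (s * ψ x))
    (fun x hx => (hw0ev x hx).self_of_nhds)
    (fun x hx => by
      simp only [hgdef]
      apply Finset.sum_eq_zero
      intro i _
      rw [pd_congr (hw0ev x hx) i, pd_zero]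
      simp)
    (fun x hx => Pa_zero A (hw0ev x hx)) hgn hc' hC1n hC2n
    (Real.exp_lt_exp.mpr (mul_lt_mul_of_pos_left hm12 hs)) hpt
    (x1 := x1) (δ := min δ0 (e / 2)) (τ0 := τ0)
    (fun x hx => by
      apply Real.exp_le_exp.mpr
      refine mul_le_mul_of_nonneg_left ?_ hs.le
      exact (hδ0' (Metric.ball_subset_ball (min_le_left _ _) hx)).le)
    (fun τ hτ => hcw τ hτ w hw hwK)
  refine ⟨Metric.ball x1 (min δ0 (e / 2)), Metric.isOpen_ball,
    Metric.mem_ball_self (lt_min hδ0 (by positivity)), ?_⟩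
  intro x hx
  have h1 := key x hx
  have h2 : χ x = 1 := χ.one_of_mem_closedBall
    (Metric.ball_subset_closedBall (Metric.ball_subset_ball (min_le_right _ _) hx))
  simp only [hwdef] at h1
  rwa [h2, one_mul] at h1

end Pool.Agent.R235.FS.PU1
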