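import Pool.Agent.R235.FS.Stm

set_option autoImplicit false

open MeasureTheory Set Filter Topology
open scoped ContDiff Manifold

namespace Pool.Agent.R235.FS.PUC

theorem sq_nonneg' {n : ℕ} (x : V n) : 0 ≤ sq x := Finset.sum_nonneg fun _ _ => sq_nonneg _

theorem sq_pos {n : ℕ} {x : V n} (h : x ≠ 0) : 0 < sq x := by
  obtain ⟨i, hi⟩ := Function.ne_iff.1 h
  refine Finset.sum_pos' (fun i _ => sq_nonneg _) ⟨i, Finset.mem_univ i, ?_⟩
  exact pow_pos_of_ne hi
where
  pow_pos_of_ne {a : ℝ} (ha : a ≠ 0) : 0 < a ^ 2 := by positivity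

theorem sq_add {n : ℕ} (x y : V n) : sq (x + y) ≤ 2 * sq x + 2 * sq y := by
  unfold sq
  rw [Finset.mul_sum, Finset.mul_sum, ← Finset.sum_add_distrib]
  refine Finset.sum_le_sum fun i _ => ?_
  simp only [Pi.add_apply]
  nlinarith [sq_nonneg (x i - y i)]

theorem continuous_sq {n : ℕ} (c : V n) : Continuous fun x : V n => sq (x - c) := by
  unfold sq
  fun_prop

theorem dist_of_sq {n : ℕ} {x c : V n} {r : ℝ} (hr : 0 < r) (h : sq (x - c) ≤ r ^ 2) :
    dist x c ≤ r := by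
  rw [dist_pi_le_iff hr.le]
  intro i
  rw [Real.dist_eq]
  apply abs_le_of_sq_le_sq _ hr.le
  refine le_trans ?_ h
  have := Finset.single_le_sum (f := fun i => ((x - c) i) ^ 2) (fun i _ => sq_nonneg _)
    (Finset.mem_univ i)
  simpa [sq] using this

theorem dist_of_sq_lt {n : ℕ} {x c : V n} {r : ℝ} (hr : 0 < r) (h : sq (x - c) < r ^ 2) :
    dist x c < r := by
  have h0 : 0 ≤ sq (x - c) := sq_nonneg' _
  have h1 : sq (x - c) = (√(sq (x - c))) ^ 2 := (Real.sq_sqrt h0).symm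
  have h2 : √(sq (x - c)) < r := by
    rw [← Real.sqrt_sq hr.le]
    exact Real.sqrt_lt_sqrt h0 h
  have h3 : 0 < (√(sq (x - c)) + r) / 2 := by positivity
  have h4 : sq (x - c) ≤ ((√(sq (x - c)) + r) / 2) ^ 2 := by
    have h5 : 0 ≤ √(sq (x - c)) := Real.sqrt_nonneg _
    nlinarith
  have h6 := dist_of_sq h3 h4
  linarith

theorem t_UC (h : S_U1) : S_UC := by
  intro n Ω a b c u x0 hS hx0 hU
  by_contra hcon
  obtain ⟨ε, hε, hball⟩ := Metric.isOpen_iff.1 hS.op x0 hx0
  set ρ : ℝ := ε / 4 with hρ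
  have hρ0 : 0 < ρ := by positivity
  set N : Set (V n) := interior {x | u x = 0} with hN
  have hNu : ∀ x ∈ N, u x = 0 := fun x hx => interior_subset (s := {x | u x = 0}) hx
  have hx0N : x0 ∉ N := by
    intro hx
    exact hcon ⟨N, isOpen_interior, hx, hNu⟩
  obtain ⟨O, hOU, hO, ⟨y, hy⟩, hO0⟩ := hU {x | sq (x - x0) < ρ ^ 2}
    (isOpen_lt (continuous_sq x0) continuous_const) (by
      show sq (x0 - x0) < ρ ^ 2
      rw [sub_self]
      have : sq (0 : V n) = 0 := by simp [sq]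
      rw [this]
      positivity)
  have hyN : y ∈ N := mem_interior.2 ⟨O, hO0, hO, hy⟩
  have hy0 : sq (y - x0) < ρ ^ 2 := hOU hy
  set S : Set (V n) := {x | x ∉ N ∧ sq (x - x0) ≤ (3 * ρ) ^ 2} with hSdef
  have hclosed : IsClosed S :=
    (isOpen_interior.isClosed_compl).inter (isClosed_le (continuous_sq x0) continuous_const)
  have hcomp : IsCompact S := by
    refine (isCompact_closedBall x0 (3 * ρ)).of_isClosed_subset hclosed fun x hx => ?_
    exact dist_of_sq (by positivity) hx.2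
  have hx0S : x0 ∈ S := ⟨hx0N, by
    rw [sub_self]
    have : sq (0 : V n) = 0 := by simp [sq]
    rw [this]
    positivity⟩
  obtain ⟨x1, hx1, hmin⟩ := hcomp.exists_isMinOn ⟨x0, hx0S⟩ (continuous_sq y).continuousOn
  have hR : sq (x1 - y) < ρ ^ 2 := by
    have h1 : sq (x1 - y) ≤ sq (x0 - y) := hmin hx0S
    have h2 : sq (x0 - y) = sq (y - x0) := by
      unfold sq
      refine Finset.sum_congr rfl fun i _ => ?_
      simp only [Pi.sub_apply]
      ring
    linarith
  have hx1y : x1 - y ≠ 0 := by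
    intro h1
    rw [sub_eq_zero] at h1
    exact hx1.1 (h1 ▸ hyN)
  have hx1x0 : sq (x1 - x0) < (3 * ρ) ^ 2 := by
    have h1 := sq_add (x1 - y) (y - x0)
    rw [sub_add_sub_cancel] at h1
    nlinarith
  set Ω' : Set (V n) := {x | sq (x - x0) < (3 * ρ) ^ 2} with hΩ'
  have hsub : Ω' ⊆ Ω := by
    intro x hx
    apply hball
    have h1 : dist x x0 < 3 * ρ := dist_of_sq_lt (by positivity) hx
    rw [Metric.mem_ball]
    linarith
  have hΩo : IsOpen Ω' := isOpen_lt (continuous_sq x0) continuous_const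
  have hSol : Sol Ω' a b c u :=
    ⟨hΩo, fun i j => (hS.sa i j).mono hsub, fun x hx => hS.ell x (hsub hx),
      fun i => (hS.sb i).mono hsub, hS.sc.mono hsub, hS.su.mono hsub,
      fun x hx => hS.eq x (hsub hx)⟩
  obtain ⟨U, hUo, hx1U, hU0⟩ := h n Ω' a b c u x1 y hSol hx1x0 (sq_pos hx1y) (by
    intro x hx hlt
    by_contra hne
    have hxN : x ∉ N := fun hx' => hne (hNu x hx')
    have h1 : sq (x1 - y) ≤ sq (x - y) := hmin (show x ∈ S from ⟨hxN, le_of_lt hx⟩)
    linarith)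
  exact hx1.1 (mem_interior.2 ⟨U, hU0, hUo, hx1U⟩)

end Pool.Agent.R235.FS.PUC
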