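import Pool.Agent.R235.FS.Stm

/-!
# WT (MP_f97e06_gt): exponential weights
-/

set_option autoImplicit false

open MeasureTheory Set Filter Topology
open scoped ContDiff Manifold

namespace Pool.Agent.R235.FS.PWT

open Pool.Agent.R235.FS

theorem cd_pd {n : ℕ} {f : V n → ℝ} (hf : ContDiff ℝ ∞ f) (i : Fin n) :
    ContDiff ℝ ∞ (fun x => pd i f x) := by
  unfold pd
  exact (hf.fderiv_right (m := ∞) (by simp)).clm_apply contDiff_const

theorem cd_diff {n : ℕ} {f : V n → ℝ} (hf : ContDiff ℝ ∞ f) (x : V n) :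
    DifferentiableAt ℝ f x := (hf.differentiable (by simp)).differentiableAt

theorem pd_mul {n : ℕ} {f g : V n → ℝ} {x : V n} (hf : DifferentiableAt ℝ f x)
    (hg : DifferentiableAt ℝ g x) (i : Fin n) :
    pd i (fun y => f y * g y) x = f x * pd i g x + g x * pd i f x := by
  unfold pd
  rw [fderiv_fun_mul hf hg]
  simp

theorem pd_const_mul {n : ℕ} {g : V n → ℝ} {x : V n} (c : ℝ)
    (hg : DifferentiableAt ℝ g x) (i : Fin n) :
    pd i (fun y => c * g y) x = c * pd i g x := by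
  unfold pd
  rw [(hg.hasFDerivAt.const_mul c).fderiv]
  simp

theorem pd_sub {n : ℕ} {f g : V n → ℝ} {x : V n} (hf : DifferentiableAt ℝ f x)
    (hg : DifferentiableAt ℝ g x) (i : Fin n) :
    pd i (fun y => f y - g y) x = pd i f x - pd i g x := by
  unfold pd
  rw [fderiv_fun_sub hf hg]
  simp

theorem pd_exp {n : ℕ} {f : V n → ℝ} {x : V n} (hf : DifferentiableAt ℝ f x) (i : Fin n) :
    pd i (fun y => Real.exp (f y)) x = Real.exp (f x) * pd i f x := by
  unfold pd
  rw [hf.hasFDerivAt.exp.fderiv]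
  simp

theorem cd_XX {n : ℕ} {a : V n → Fin n → Fin n → ℝ} {φ : V n → ℝ} (ha : SmS a)
    (hφ : ContDiff ℝ ∞ φ) (m : Fin n) : ContDiff ℝ ∞ (fun x => XX a φ x m) := by
  unfold XX
  exact ContDiff.sum fun l _ => (ha.1 m l).mul (cd_pd hφ l)

theorem cd_qq {n : ℕ} {a : V n → Fin n → Fin n → ℝ} {φ : V n → ℝ} (ha : SmS a)
    (hφ : ContDiff ℝ ∞ φ) : ContDiff ℝ ∞ (fun x => qq a φ x) := by
  unfold qq
  exact ContDiff.sum fun l _ => (cd_pd hφ l).mul (cd_XX ha hφ l)

theorem sym_sum {n : ℕ} {a : V n → Fin n → Fin n → ℝ} {φ : V n → ℝ} (ha : SmS a) (x : V n)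
    (w : Fin n → ℝ) :
    ∑ i, pd i φ x * ∑ j, a x i j * w j = ∑ j, XX a φ x j * w j := by
  unfold XX
  simp_rw [Finset.mul_sum, Finset.sum_mul]
  rw [Finset.sum_comm]
  refine Finset.sum_congr rfl fun j _ => Finset.sum_congr rfl fun i _ => ?_
  rw [ha.2 x i j]
  ring

theorem t_WT : S_WT := by
  intro n a ψ s ha hψ φ hφ x
  have hdψ := cd_diff hψ
  have hsψ : ContDiff ℝ ∞ (fun y => s * ψ y) := contDiff_const.mul hψ
  have hφc : ContDiff ℝ ∞ φ := by
    rw [hφ]
    exact hsψ.exp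
  have hdφ := cd_diff hφc
  have hpd : ∀ (y : V n) (m : Fin n), pd m φ y = s * φ y * pd m ψ y := by
    intro y m
    rw [hφ, pd_exp (cd_diff hsψ y), pd_const_mul s (hdψ y)]
    ring
  have hXX : ∀ (y : V n) (m : Fin n), XX a φ y m = s * φ y * XX a ψ y m := by
    intro y m
    unfold XX
    rw [Finset.mul_sum]
    refine Finset.sum_congr rfl fun l _ => ?_
    rw [hpd]
    ring
  have hqq : ∀ y : V n, qq a φ y = s ^ 2 * φ y ^ 2 * qq a ψ y := by
    intro y
    unfold qq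
    rw [Finset.mul_sum]
    refine Finset.sum_congr rfl fun l _ => ?_
    rw [hpd, hXX]
    ring
  have hdX : ∀ (m : Fin n) (y : V n), DifferentiableAt ℝ (fun y => XX a ψ y m) y :=
    fun m => cd_diff (cd_XX ha hψ m)
  have hdq : ∀ (y : V n), DifferentiableAt ℝ (fun y => qq a ψ y) y := cd_diff (cd_qq ha hψ)
  have hpX : ∀ i m : Fin n, pd i (fun y => XX a φ y m) x =
      s * φ x * pd i (fun y => XX a ψ y m) x + s ^ 2 * φ x * pd i ψ x * XX a ψ x m := by
    intro i m
    have e : (fun y => XX a φ y m) = fun y => (s * φ y) * XX a ψ y m := by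
      funext y
      rw [hXX]
    have hsφ : DifferentiableAt ℝ (fun y => s * φ y) x := (hdφ x).const_mul s
    rw [e, pd_mul hsφ (hdX m x), pd_const_mul s (hdφ x), hpd]
    ring
  have hpq : ∀ m : Fin n, pd m (qq a φ) x =
      2 * s ^ 3 * φ x ^ 2 * pd m ψ x * qq a ψ x + s ^ 2 * φ x ^ 2 * pd m (qq a ψ) x := by
    intro m
    have e : (qq a φ) = fun y => (s ^ 2 * (φ y * φ y)) * qq a ψ y := by
      funext y
      rw [hqq]
      ring
    have h1 : DifferentiableAt ℝ (fun y => φ y * φ y) x := (hdφ x).mul (hdφ x)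
    have h2 : DifferentiableAt ℝ (fun y => s ^ 2 * (φ y * φ y)) x := h1.const_mul _
    have h3 : pd m (fun y => (s ^ 2 * (φ y * φ y)) * qq a ψ y) x =
        (s ^ 2 * (φ x * φ x)) * pd m (qq a ψ) x +
          qq a ψ x * pd m (fun y => s ^ 2 * (φ y * φ y)) x := pd_mul h2 (hdq x) m
    rw [e, h3, pd_const_mul _ h1, pd_mul (hdφ x) (hdφ x), hpd]
    ring
  refine ⟨?_, ?_, hqq x⟩
  · intro ξ
    have hsq : (∑ m, XX a ψ x m * ξ m) ^ 2 =
        ∑ i, ∑ j, ∑ m, pd i ψ x * XX a ψ x m * a x i j * (ξ m * ξ j) := by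
      rw [pow_two]
      nth_rewrite 1 [← sym_sum ha x ξ]
      rw [Finset.sum_mul]
      refine Finset.sum_congr rfl fun i _ => ?_
      rw [mul_assoc, Finset.sum_mul_sum, Finset.mul_sum]
      refine Finset.sum_congr rfl fun j _ => ?_
      rw [Finset.mul_sum]
      refine Finset.sum_congr rfl fun m _ => ?_
      ring
    unfold HH
    rw [hsq]
    simp_rw [hpX, hXX]
    have e1 : ∀ i j m : Fin n,
        (s * φ x * pd i (fun y => XX a ψ y m) x + s ^ 2 * φ x * pd i ψ x * XX a ψ x m) *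
          a x i j * (ξ m * ξ j) =
        s * φ x * (pd i (fun y => XX a ψ y m) x * a x i j * (ξ m * ξ j)) +
          s ^ 2 * φ x * (pd i ψ x * XX a ψ x m * a x i j * (ξ m * ξ j)) := by
      intro i j m
      ring
    have e2 : ∀ i j m : Fin n,
        s * φ x * XX a ψ x m * pd m (fun y => a y i j) x * (ξ i * ξ j) =
          s * φ x * (XX a ψ x m * pd m (fun y => a y i j) x * (ξ i * ξ j)) := by
      intro i j m
      ring
    simp_rw [e1, e2, Finset.sum_add_distrib, ← Finset.mul_sum]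
    ring
  · simp_rw [hXX, hpq]
    have e1 : ∀ m : Fin n, s * φ x * XX a ψ x m *
        (2 * s ^ 3 * φ x ^ 2 * pd m ψ x * qq a ψ x + s ^ 2 * φ x ^ 2 * pd m (qq a ψ) x) =
        2 * s ^ 4 * φ x ^ 3 * qq a ψ x * (pd m ψ x * XX a ψ x m) +
          s ^ 3 * φ x ^ 3 * (XX a ψ x m * pd m (qq a ψ) x) := by
      intro m
      ring
    simp_rw [e1, Finset.sum_add_distrib, ← Finset.mul_sum]
    have e2 : ∑ m, pd m ψ x * XX a ψ x m = qq a ψ x := rfl
    rw [e2]
    ring

end Pool.Agent.R235.FS.PWT
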